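import Pool.Agent.N422.MT7
import Pool.Agent.Y829.RP3

/-! Primes in `n + H`, on average with respect to a sum of squares. Author: helper422 (the reduction uses
`Pool.Agent.Y829.RP` of helper829). -/

set_option autoImplicit false

namespace Pool.Agent.N422.MT

open Finset Filter Topology Pool.Agent.Y829 Pool.Agent.Y829.RP
open H343E (pi1)

/-- a finite sum of squares of functions of level `R` -/
def SqR (R : ℕ) (w : ℕ → ℝ) : Prop := ∃ (m : ℕ) (v : ℕ → ℕ → ℕ → ℝ),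
  (∀ j d, Function.Periodic (v j d) d) ∧ ∀ n, w n = ∑ j ∈ range m, (∑ d ∈ Icc 1 R, v j d n) ^ 2

theorem SqR.nonneg {R : ℕ} {w : ℕ → ℝ} (h : SqR R w) (n : ℕ) : 0 ≤ w n := by
  obtain ⟨m, v, -, hw⟩ := h
  rw [hw]
  exact sum_nonneg fun _ _ => sq_nonneg _

theorem lg_pf {m : ℕ} (hm : 0 < m) : lg m.primeFactors ≤ Real.log m := by
  have h1 : lg m.primeFactors = Real.log ((∏ p ∈ m.primeFactors, p : ℕ) : ℝ) := by
    unfold lg
    push_cast
    rw [Real.log_prod]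
    intro p hp
    exact_mod_cast (Nat.prime_of_mem_primeFactors hp).ne_zero
  rw [h1]
  apply Real.log_le_log
  · exact_mod_cast prod_pos fun p hp => (Nat.prime_of_mem_primeFactors hp).pos
  · exact_mod_cast Nat.le_of_dvd hm (Nat.prod_primeFactors_dvd m)

/-- the mean value of the weight, against its mass -/
theorem mean_le (K : ℕ) (eta : ℝ) (he : 0 < eta) : ∃ B X0 : ℕ, ∀ X : ℕ, X0 ≤ X → ∀ Q : ℕ,
    1 ≤ Q → (Q : ℝ) ^ 2 * Real.log X ^ B ≤ X →
    ∀ c : ℕ → ℕ → ℝ, ∑ d ∈ Icc 1 Q, ss c d ^ 2 / d ≤ Real.log X ^ K →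
    X / Real.log X ^ K ≤ ∑ n ∈ Ioc X (2 * X), wt Q c n →
    X * mu Q c ≤ (1 + eta) * ∑ n ∈ Ioc X (2 * X), wt Q c n := by
  obtain ⟨X2, hX2⟩ := (log_tend.eventually_ge_atTop (2 / eta + 1)).exists_forall_of_atTop
  refine ⟨2 * K + 1, max X2 3, ?_⟩
  intro X hX Q hQ hQX c hc hW
  have hX3 : 3 ≤ X := (le_max_right _ _).trans hX
  have hL := hX2 X ((le_max_left _ _).trans hX)
  set L := Real.log (X : ℝ) with hLd
  set W : ℝ := ∑ n ∈ Ioc X (2 * X), wt Q c n with hWd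
  have hXr : (0 : ℝ) < X := by exact_mod_cast (by omega : 0 < X)
  have hdiv : 0 < 2 / eta := by positivity
  have hL1 : 1 ≤ L := by linarith
  have hL0 : 0 < L := by linarith
  have hLe : 2 ≤ eta * L := by
    have h1 : 2 / eta ≤ L := by linarith
    rw [div_le_iff₀ he] at h1
    linarith
  have hQr : (1 : ℝ) ≤ Q := by exact_mod_cast hQ
  have hss : ∑ d ∈ Icc 1 Q, ss c d ≤ eta * W := by
    have h1 : ∀ d ∈ Icc 1 Q, ss c d ≤ (1 / 2) * (Q * (ss c d ^ 2 / d)) + (1 / 2) := by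
      intro d hd
      rw [mem_Icc] at hd
      have hd0 : (0 : ℝ) < d := by exact_mod_cast (by omega : 0 < d)
      have hdQ : (d : ℝ) ≤ Q := by exact_mod_cast hd.2
      have h2 : ss c d ^ 2 ≤ Q * (ss c d ^ 2 / d) := by
        rw [mul_div_assoc', le_div_iff₀ hd0, mul_comm]
        exact mul_le_mul_of_nonneg_right hdQ (sq_nonneg _)
      nlinarith [sq_nonneg (ss c d - 1)]
    have h2 : ∑ d ∈ Icc 1 Q, ss c d ≤ Q * L ^ K := by
      refine (sum_le_sum h1).trans ?_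
      rw [sum_add_distrib, ← mul_sum, ← mul_sum, sum_const, Nat.card_Icc, Nat.add_sub_cancel, nsmul_eq_mul]
      have h3 := mul_le_mul_of_nonneg_left hc (show (0 : ℝ) ≤ Q by linarith)
      have h4 : (Q : ℝ) ≤ Q * L ^ K := by
        have : (1 : ℝ) ≤ L ^ K := one_le_pow₀ hL1
        nlinarith
      linarith
    refine h2.trans ?_
    have h5 : (Q : ℝ) * L ^ K ≤ eta * (X / L ^ K) := by
      rw [mul_div_assoc', le_div_iff₀ (by positivity)]
      have h6 : (Q : ℝ) * L ^ K * L ^ K * L ≤ X := by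
        calc (Q : ℝ) * L ^ K * L ^ K * L = Q * L ^ (2 * K + 1) := by ring
          _ ≤ (Q : ℝ) ^ 2 * L ^ (2 * K + 1) := by
              apply mul_le_mul_of_nonneg_right (by nlinarith) (by positivity)
          _ ≤ X := hQX
      have h7 : (Q : ℝ) * L ^ K * L ^ K * 1 ≤ (Q : ℝ) * L ^ K * L ^ K * (eta * L) := by
        apply mul_le_mul_of_nonneg_left (by linarith) (by positivity)
      calc (Q : ℝ) * L ^ K * L ^ K ≤ eta * ((Q : ℝ) * L ^ K * L ^ K * L) := by linarith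
        _ ≤ eta * X := mul_le_mul_of_nonneg_left h6 he.le
    exact h5.trans (mul_le_mul_of_nonneg_left hW he.le)
  have hmean := (abs_le.1 ((sum_dy Q X c).trans hss))
  rw [← hWd] at hmean
  linarith [hmean.1]

/-- the mean number of primes in `n + H` -/
noncomputable def cnt (H : Finset ℕ) (n : ℕ) : ℝ := ((H.filter (fun h => (n + h).Prime)).card : ℝ)

theorem cnt_eq (H : Finset ℕ) (n : ℕ) : cnt H n = ∑ h ∈ H, (if (n + h).Prime then (1 : ℝ) else 0) := by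
  unfold cnt
  rw [card_filter]
  push_cast
  rfl

/-- the reduction: the singular series of the shifts -/
theorem reducH (k K : ℕ) (eta : ℝ) (he : 0 < eta) (he1 : eta ≤ 1) : ∃ B X0 : ℕ, ∀ X : ℕ, X0 ≤ X → ∀ Q : ℕ,
    1 ≤ Q → (Q : ℝ) ^ 2 * Real.log X ^ B ≤ X →
    ∀ c : ℕ → ℕ → ℝ, (∀ n, 0 ≤ wt Q c n) → ∑ d ∈ Icc 1 Q, ss c d ^ 2 / d ≤ Real.log X ^ K →
    X / Real.log X ^ K ≤ ∑ n ∈ Ioc X (2 * X), wt Q c n →
    ∀ H : Finset ℕ, H.card = k → (∀ h ∈ H, h ≤ X) → ∀ be : ℝ, 0 ≤ be → ∑ h ∈ H, GG Q c h ≤ be * mu Q c →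
      ∑ n ∈ Ioc X (2 * X), wt Q c n * cnt H n ≤
        ((1 + eta) ^ 2 * (be / Real.log X) + eta) * ∑ n ∈ Ioc X (2 * X), wt Q c n := by
  classical
  obtain ⟨B, X0, hsh⟩ := shift_pr K (K + 2)
  obtain ⟨X1, hdy⟩ := dyadic eta he he1
  obtain ⟨B', X3, hmean⟩ := mean_le K eta he
  obtain ⟨X2, hX2⟩ := (log_tend.eventually_ge_atTop (2 * k / eta + 1)).exists_forall_of_atTop
  refine ⟨max B B', max (max (max X0 X1) (max X2 3)) X3, ?_⟩
  intro X hX Q hQ hQX c hw hc hW H hH hHX be hbe hG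
  have hXa : max (max X0 X1) (max X2 3) ≤ X := (le_max_left _ _).trans hX
  have hX0' : X0 ≤ X := (le_max_left _ _).trans ((le_max_left _ _).trans hXa)
  have hX1' : X1 ≤ X := (le_max_right _ _).trans ((le_max_left _ _).trans hXa)
  have hX3' : 3 ≤ X := (le_max_right _ _).trans ((le_max_right _ _).trans hXa)
  have hL := hX2 X ((le_max_left _ _).trans ((le_max_right _ _).trans hXa))
  have hXr : (0 : ℝ) < X := by exact_mod_cast (by omega : 0 < X)
  have hkr : (0 : ℝ) ≤ k := Nat.cast_nonneg _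
  have hdiv : 0 ≤ 2 * k / eta := by positivity
  have hL1 : 1 ≤ Real.log X := by linarith
  have hL0 : 0 < Real.log X := by linarith
  have hmu := hmean X ((le_max_right _ _).trans hX) Q hQ (by
    refine le_trans ?_ hQX
    apply mul_le_mul_of_nonneg_left _ (by positivity)
    exact pow_le_pow_right₀ hL1 (le_max_right _ _)) c hc hW
  have hQX' : (Q : ℝ) ^ 2 * Real.log X ^ B ≤ X := by
    refine le_trans ?_ hQX
    apply mul_le_mul_of_nonneg_left _ (by positivity)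
    exact pow_le_pow_right₀ hL1 (le_max_left _ _)
  obtain ⟨L, hLd⟩ : ∃ L, L = Real.log X := ⟨_, rfl⟩
  obtain ⟨W, hWd⟩ : ∃ W, W = ∑ n ∈ Ioc X (2 * X), wt Q c n := ⟨_, rfl⟩
  rw [← hWd] at hmu ⊢
  rw [← hWd, ← hLd] at hW
  have hW0 : 0 ≤ W := by rw [hWd]; exact sum_nonneg fun n _ => hw n
  have h1 : ∑ n ∈ Ioc X (2 * X), wt Q c n * cnt H n =
      ∑ h ∈ H, ∑ n ∈ Ioc X (2 * X), wt Q c n * (if (n + h).Prime then 1 else 0) := by
    rw [sum_comm]
    apply sum_congr rfl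
    intro n _
    rw [cnt_eq, mul_sum]
  have h2 : ∀ h ∈ H, ∑ n ∈ Ioc X (2 * X), wt Q c n * (if (n + h).Prime then 1 else 0) ≤
      (1 + eta) * (X / L) * GG Q c h + 2 * (X / L ^ (K + 2)) := by
    intro h hh
    have h3 := (abs_le.1 (hsh X hX0' Q hQ hQX' c hc h (hHX h hh))).2
    have h4 := mul_le_mul_of_nonneg_right (hdy X hX1' h (hHX h hh)).2 (GG_nonneg Q h c hw)
    rw [← hLd] at h3 h4
    linarith
  rw [h1]
  refine (sum_le_sum h2).trans ?_
  rw [sum_add_distrib, ← mul_sum, sum_const, hH, nsmul_eq_mul]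
  rw [← hLd] at hL hL0 hL1 ⊢
  have h5 : (k : ℝ) * (2 * (X / L ^ (K + 2))) ≤ eta * W := by
    have h6 : (k : ℝ) * (2 * (X / L ^ (K + 2))) = (2 * k / L / L) * (X / L ^ K) := by
      rw [pow_add]
      field_simp
    rw [h6]
    have h7 : 2 * k / L / L ≤ eta := by
      have h8 : 2 * k / eta ≤ L := by linarith
      rw [div_le_iff₀ he] at h8
      rw [div_div, div_le_iff₀ (by positivity)]
      nlinarith
    apply mul_le_mul h7 hW (by positivity) he.le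
  have h6 : (1 + eta) * (X / L) * ∑ h ∈ H, GG Q c h ≤ (1 + eta) * (X / L) * (be * mu Q c) :=
    mul_le_mul_of_nonneg_left hG (by positivity)
  have h7 : (1 + eta) * (X / L) * (be * mu Q c) = (1 + eta) * (be / L) * (X * mu Q c) := by
    field_simp
  have h8 := mul_le_mul_of_nonneg_left hmu (show 0 ≤ (1 + eta) * (be / L) by positivity)
  have h9 : ((1 + eta) ^ 2 * (be / L) + eta) * W = (1 + eta) * (be / L) * ((1 + eta) * W) + eta * W := by ring
  rw [h9]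
  linarith

/-- the singular series of the shifts in `H` -/
theorem GG_le (k : ℕ) (hk : 2 ≤ k) (e e1 : ℝ) (he : 0 < e) (he1 : 0 < e1) : ∃ X0 : ℕ, ∀ X : ℕ, X0 ≤ X →
    ∀ Q R : ℕ, Q ≤ X → R ≤ X → ∀ c : ℕ → ℕ → ℝ, SqR R (wt Q c) → ∀ H : Finset ℕ, H.card = k → (∀ h ∈ H, h ≤ X) →
    ∑ h ∈ H, GG Q c h ≤ (k * Real.log k / (k - 1) + e) * max (Real.log R) (e1 * Real.log X) * mu Q c := by
  classical
  obtain ⟨Λ0, hmod⟩ := model k hk e ((k : ℝ) ^ 2 / e1) he (by positivity)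
  obtain ⟨X2, hX2⟩ := (log_tend.eventually_ge_atTop (Λ0 / e1)).exists_forall_of_atTop
  refine ⟨max X2 3, ?_⟩
  intro X hX Q R hQX hRX c hsq H hH hHX
  have hX3 : 3 ≤ X := (le_max_right _ _).trans hX
  have hL := hX2 X ((le_max_left _ _).trans hX)
  have hw := hsq.nonneg
  obtain ⟨m, v, hv, hwv⟩ := hsq
  obtain ⟨L, hLd⟩ : ∃ L, L = Real.log X := ⟨_, rfl⟩
  rw [← hLd] at hL ⊢
  rw [div_le_iff₀ he1] at hL
  obtain ⟨Λ, hΛ⟩ : ∃ Λ, Λ = max (Real.log R) (e1 * L) := ⟨_, rfl⟩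
  rw [← hΛ]
  have hΛR : Real.log R ≤ Λ := by rw [hΛ]; exact le_max_left _ _
  have hΛL : e1 * L ≤ Λ := by rw [hΛ]; exact le_max_right _ _
  have hL0 : 0 ≤ L := by rw [hLd]; exact Real.log_natCast_nonneg X
  obtain ⟨N, hN⟩ : ∃ N, N = X.factorial := ⟨_, rfl⟩
  have hN0 : 0 < N := by rw [hN]; exact Nat.factorial_pos _
  have hXN : ∀ d, 1 ≤ d → d ≤ X → d ∣ N := fun d h1 h2 => by rw [hN]; exact Nat.dvd_factorial (by omega) h2
  have hdN : ∀ d ∈ Icc 1 Q, d ∣ N := fun d hd => by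
    rw [mem_Icc] at hd
    exact hXN d hd.1 (hd.2.trans hQX)
  have hPN : ∀ p ∈ PQ Q, p ∣ N := fun p hp => by
    have := mem_PQ.1 hp
    exact hXN p this.1.one_lt.le (this.2.trans hQX)
  -- the primes dividing a difference
  obtain ⟨D, hD⟩ : ∃ D, D = ∏ z ∈ (H ×ˢ H).filter (fun z => z.1 < z.2), (z.2 - z.1) := ⟨_, rfl⟩
  have hD0 : 0 < D := by
    rw [hD]
    refine prod_pos fun z hz => ?_
    rw [mem_filter] at hz
    omega
  obtain ⟨Bd, hBd⟩ : ∃ Bd, Bd = (PQ Q).filter (fun p => p ∣ D) := ⟨_, rfl⟩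
  have hlD : Real.log D ≤ k ^ 2 * L := by
    rw [hD]
    push_cast
    rw [Real.log_prod (by
      intro z hz
      rw [mem_filter] at hz
      have : 0 < z.2 - z.1 := by omega
      exact_mod_cast this.ne')]
    have h1 : ∀ z ∈ (H ×ˢ H).filter (fun z => z.1 < z.2), Real.log ((z.2 - z.1 : ℕ) : ℝ) ≤ L := by
      intro z hz
      rw [mem_filter, mem_product] at hz
      rw [hLd]
      have h2 := hHX z.2 hz.1.2
      apply Real.log_le_log
      · exact_mod_cast (by omega : 0 < z.2 - z.1)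
      · exact_mod_cast (by omega : z.2 - z.1 ≤ X)
    refine (sum_le_sum h1).trans ?_
    rw [sum_const, nsmul_eq_mul]
    apply mul_le_mul_of_nonneg_right _ hL0
    have h2 : ((H ×ˢ H).filter (fun z => z.1 < z.2)).card ≤ k ^ 2 := by
      refine (card_filter_le _ _).trans ?_
      rw [card_product, hH, sq]
    exact_mod_cast h2
  have hBl : lg Bd ≤ (k : ℝ) ^ 2 / e1 * Λ := by
    have h1 : lg Bd ≤ lg D.primeFactors := by
      apply lg_mono
      intro p hp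
      rw [hBd, mem_filter] at hp
      exact Nat.mem_primeFactors.2 ⟨(mem_PQ.1 hp.1).1, hp.2, hD0.ne'⟩
    have h2 : (k : ℝ) ^ 2 * L ≤ (k : ℝ) ^ 2 / e1 * Λ := by
      have h3 := mul_le_mul_of_nonneg_left hΛL (show 0 ≤ (k : ℝ) ^ 2 / e1 by positivity)
      refine le_trans (le_of_eq ?_) h3
      field_simp
    exact h1.trans ((lg_pf hD0).trans (hlD.trans h2))
  have hj : ∀ j ∈ range m, _ := fun j (_ : j ∈ range m) => hmod Λ (hL.trans (by linarith)) (PQ Q)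
    (fun p hp => (mem_PQ.1 hp).1) (Icc 1 R) (fun d => d) (fun d => v j d) (fun d hd => by
      rw [mem_Icc] at hd
      refine ⟨by omega, le_trans (Real.log_le_log ?_ ?_) hΛR, hv j d⟩
      · exact_mod_cast (by omega : 0 < d)
      · exact_mod_cast hd.2) N hN0 hPN (fun d hd => by
      rw [mem_Icc] at hd
      exact hXN d hd.1 (hd.2.trans hRX)) H (fun h _ => h) Bd hH (by rw [hBd]; exact filter_subset _ _) hBl
    (fun p hp hpB n i hi j hj h1 h2 => by
      have key : ∀ a b, a ∈ H → b ∈ H → p ∣ n + a → p ∣ n + b → ¬ a < b := by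
        intro a b ha hb h3 h4 h5
        apply hpB
        rw [hBd, mem_filter]
        refine ⟨hp, ?_⟩
        have h6 : p ∣ b - a := by
          have h7 := Nat.dvd_sub h4 h3
          have e : n + b - (n + a) = b - a := by omega
          rwa [e] at h7
        refine h6.trans ?_
        rw [hD]
        exact dvd_prod_of_mem (fun z : ℕ × ℕ => z.2 - z.1) (mem_filter.2 ⟨mem_product.2 ⟨ha, hb⟩, h5⟩ : (a, b) ∈ _)
      have h3 := key i j hi hj h1 h2
      have h4 := key j i hj hi h2 h1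
      omega)
  have hsum := sum_le_sum hj
  rw [← mul_sum, ← mul_sum] at hsum
  have e2 : ∑ j ∈ range m, ∑ n ∈ range N, (∑ d ∈ Icc 1 R, v j d n) ^ 2 = N * mu Q c := by
    rw [← sum_wt Q N c hdN, sum_comm]
    exact sum_congr rfl fun n _ => (hwv n).symm
  have e3 : ∑ j ∈ range m, ∑ h ∈ H, ∑ n ∈ range N,
      (if ∀ p ∈ PQ Q, ¬ p ∣ n + h then (∑ d ∈ Icc 1 R, v j d n) ^ 2 else 0) = N * V (PQ Q) * ∑ h ∈ H, GG Q c h := by
    rw [sum_comm, mul_sum]
    refine sum_congr rfl fun h _ => ?_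
    rw [← sum_wt_free Q N h c hN0 hdN, sum_comm]
    refine sum_congr rfl fun n _ => ?_
    rw [hwv]
    by_cases h1 : ∀ p ∈ PQ Q, ¬ p ∣ n + h
    · simp only [if_pos h1, mul_one]
    · simp only [if_neg h1, mul_zero, sum_const_zero]
  rw [e2, e3] at hsum
  have hV0 : 0 < V (PQ Q) := V_pos fun p hp => (mem_PQ.1 hp).1
  have hNr : (0 : ℝ) < N := by exact_mod_cast hN0
  have hNV : 0 < (N : ℝ) * V (PQ Q) := by positivity
  have hsum2 : N * V (PQ Q) * ∑ h ∈ H, GG Q c h ≤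
      N * V (PQ Q) * ((k * Real.log k / (k - 1) + e) * Λ * mu Q c) := by
    refine hsum.trans (le_of_eq ?_)
    unfold V
    ring
  exact le_of_mul_le_mul_left hsum2 hNV

/-- **the theorem** -/
theorem main (k K : ℕ) (hk : 2 ≤ k) (ε : ℝ) (hε : 0 < ε) : ∃ B X0 : ℕ, ∀ X : ℕ, X0 ≤ X → ∀ Q R : ℕ,
    1 ≤ Q → (Q : ℝ) ^ 2 * Real.log X ^ B ≤ X → R ≤ X →
    ∀ c : ℕ → ℕ → ℝ, SqR R (wt Q c) → ∑ d ∈ Icc 1 Q, ss c d ^ 2 / d ≤ Real.log X ^ K →
    X / Real.log X ^ K ≤ ∑ n ∈ Ioc X (2 * X), wt Q c n →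
    ∀ H : Finset ℕ, H.card = k → (∀ h ∈ H, h ≤ X) →
      ∑ n ∈ Ioc X (2 * X), wt Q c n * cnt H n ≤
        (k * Real.log k / (k - 1) * (Real.log R / Real.log X) + ε) * ∑ n ∈ Ioc X (2 * X), wt Q c n := by
  have hk2 : (2 : ℝ) ≤ k := by exact_mod_cast hk
  obtain ⟨κ, hκ⟩ : ∃ κ : ℝ, κ = k * Real.log k / (k - 1) := ⟨_, rfl⟩
  have hκ0 : 0 ≤ κ := by
    rw [hκ]
    have h1 : 0 ≤ Real.log k := Real.log_nonneg (by linarith)
    have h2 : 0 < (k : ℝ) - 1 := by linarith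
    positivity
  obtain ⟨e, he⟩ : ∃ e : ℝ, e = ε / 4 := ⟨_, rfl⟩
  have he0 : 0 < e := by rw [he]; positivity
  obtain ⟨eta, heta⟩ : ∃ eta : ℝ, eta = ε / (4 * (3 * κ + 3 * e + 1) + ε) := ⟨_, rfl⟩
  have heta0 : 0 < eta := by rw [heta]; positivity
  have heta1 : eta ≤ 1 := by
    rw [heta, div_le_one (by positivity)]
    have : 0 ≤ 4 * (3 * κ + 3 * e + 1) := by positivity
    linarith
  have heta2 : eta * (3 * κ + 3 * e + 1) ≤ ε / 4 := by
    rw [heta, div_mul_eq_mul_div, div_le_div_iff₀ (by positivity) (by norm_num)]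
    nlinarith [sq_nonneg ε]
  obtain ⟨e1, he1⟩ : ∃ e1 : ℝ, e1 = ε / (4 * κ + ε) := ⟨_, rfl⟩
  have he10 : 0 < e1 := by rw [he1]; positivity
  have he11 : e1 ≤ 1 := by
    rw [he1, div_le_one (by positivity)]
    linarith
  have he12 : κ * e1 ≤ ε / 4 := by
    rw [he1, mul_div_assoc', div_le_div_iff₀ (by positivity) (by norm_num)]
    nlinarith [sq_nonneg ε]
  obtain ⟨B, X0, hred⟩ := reducH k K eta heta0 heta1
  obtain ⟨X1, hGG⟩ := GG_le k hk e e1 he0 he10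
  obtain ⟨X2, hX2⟩ := (log_tend.eventually_ge_atTop (1 : ℝ)).exists_forall_of_atTop
  refine ⟨B, max (max X0 X1) (max X2 3), ?_⟩
  intro X hX Q R hQ hQX hRX c hsq hc hW H hH hHX
  have hX0' : X0 ≤ X := (le_max_left _ _).trans ((le_max_left _ _).trans hX)
  have hX1' : X1 ≤ X := (le_max_right _ _).trans ((le_max_left _ _).trans hX)
  have hX3 : 3 ≤ X := (le_max_right _ _).trans ((le_max_right _ _).trans hX)
  have hL1 := hX2 X ((le_max_left _ _).trans ((le_max_right _ _).trans hX))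
  have hXr : (0 : ℝ) < X := by exact_mod_cast (by omega : 0 < X)
  have hQr : (1 : ℝ) ≤ Q := by exact_mod_cast hQ
  have hQleX : Q ≤ X := by
    have h1 : (1 : ℝ) ≤ Real.log X ^ B := one_le_pow₀ hL1
    have h2 : (Q : ℝ) ≤ X := by nlinarith
    exact_mod_cast h2
  have hw := hsq.nonneg
  have h1 := hGG X hX1' Q R hQleX hRX c hsq H hH hHX
  rw [← hκ] at h1 ⊢
  obtain ⟨L, hLd⟩ : ∃ L, L = Real.log X := ⟨_, rfl⟩
  obtain ⟨Λ, hΛ⟩ : ∃ Λ, Λ = max (Real.log R) (e1 * L) := ⟨_, rfl⟩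
  rw [← hLd, ← hΛ] at h1
  have hL0 : 0 < L := by rw [hLd]; linarith
  have hR0 : 0 ≤ Real.log R := Real.log_natCast_nonneg R
  have hRL : Real.log R ≤ L := by
    rw [hLd]
    rcases Nat.eq_zero_or_pos R with h2 | h2
    · rw [h2]
      simp
      linarith
    · exact Real.log_le_log (by exact_mod_cast h2) (by exact_mod_cast hRX)
  have hΛ1 : Λ ≤ L := by
    rw [hΛ]
    exact max_le hRL (by nlinarith)
  have hΛ2 : Λ ≤ Real.log R + e1 * L := by
    rw [hΛ]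
    exact max_le (by nlinarith) (by linarith)
  have hΛ0 : 0 ≤ Λ := by rw [hΛ]; exact le_max_of_le_left hR0
  have h2 := hred X hX0' Q hQ hQX c hw hc hW H hH hHX ((κ + e) * Λ) (by positivity) h1
  refine h2.trans ?_
  rw [← hLd]
  have hW0 : 0 ≤ ∑ n ∈ Ioc X (2 * X), wt Q c n := sum_nonneg fun n _ => hw n
  apply mul_le_mul_of_nonneg_right _ hW0
  obtain ⟨x, hx⟩ : ∃ x, x = Λ / L := ⟨_, rfl⟩
  have hx1 : x ≤ 1 := by rw [hx, div_le_one hL0]; exact hΛ1
  have hx0 : 0 ≤ x := by rw [hx]; positivity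
  have hx2 : x ≤ Real.log R / L + e1 := by
    rw [hx, div_le_iff₀ hL0, add_mul, div_mul_cancel₀ _ hL0.ne']
    exact hΛ2
  have e5 : (κ + e) * Λ / L = (κ + e) * x := by rw [hx]; ring
  rw [e5]
  have h3 : (1 + eta) ^ 2 ≤ 1 + 3 * eta := by nlinarith
  have h4 : (1 + eta) ^ 2 * ((κ + e) * x) ≤ (1 + 3 * eta) * ((κ + e) * x) :=
    mul_le_mul_of_nonneg_right h3 (by positivity)
  have h5 : (1 + 3 * eta) * ((κ + e) * x) = κ * x + (e + 3 * eta * (κ + e)) * x := by ring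
  have h6 : (e + 3 * eta * (κ + e)) * x ≤ e + 3 * eta * (κ + e) :=
    mul_le_of_le_one_right (by positivity) hx1
  have h7 : κ * x ≤ κ * (Real.log R / L) + κ * e1 := by
    have := mul_le_mul_of_nonneg_left hx2 hκ0
    linarith
  have h8 : 3 * eta * (κ + e) + eta ≤ ε / 4 := by
    refine le_trans (le_of_eq ?_) heta2
    ring
  linarith

end Pool.Agent.N422.MT
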