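import Pool.Agent.N422.MT5

/-! The model: squares of functions of level `exp Λ` and `k` sites. Author: helper422. -/

set_option autoImplicit false

namespace Pool.Agent.N422.MT

open Finset Filter Topology Pool.Agent.Y835.SB

theorem sum_inv_le' {P : Finset ℕ} {Y : ℕ} (hY : 2 ≤ Y) {Λ : ℝ} (hP : ∀ p ∈ P, Y < p) (h : lg P ≤ Λ) :
    ∑ p ∈ P, 1 / ((p : ℝ) - 1) ≤ Λ / (Y * Real.log Y) := by
  have hYr : (2 : ℝ) ≤ Y := by exact_mod_cast hY
  have hlY : 0 < Real.log Y := Real.log_pos (by linarith)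
  have h1 : ∀ p ∈ P, 1 / ((p : ℝ) - 1) ≤ Real.log p / (Y * Real.log Y) := by
    intro p hp
    have h2 : (Y : ℝ) + 1 ≤ p := by exact_mod_cast hP p hp
    have h3 : Real.log Y ≤ Real.log p := Real.log_le_log (by linarith) (by linarith)
    have h4 : 1 / ((p : ℝ) - 1) ≤ 1 / Y := one_div_le_one_div_of_le (by linarith) (by linarith)
    refine h4.trans ?_
    rw [div_le_div_iff₀ (by linarith) (by positivity)]
    have := mul_le_mul_of_nonneg_left h3 (by linarith : (0 : ℝ) ≤ Y)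
    linarith
  refine (sum_le_sum h1).trans ?_
  rw [← sum_div]
  exact div_le_div_of_nonneg_right h (by positivity)

theorem phi_le {T : Finset ℕ} (hT : ∀ p ∈ T, 2 ≤ p) {x : ℝ} (hx : ∑ p ∈ T, 1 / ((p : ℝ) - 1) ≤ x) :
    1 / phi T ≤ Real.exp x * (1 / ∏ p ∈ T, (p : ℝ)) := by
  have hT2 : ∀ p ∈ T, (2 : ℝ) ≤ p := fun p hp => by exact_mod_cast hT p hp
  have h1 : 0 < phi T := phi_pos hT2
  have h2 : 0 < ∏ p ∈ T, (p : ℝ) := prod_pos fun p hp => by linarith [hT2 p hp]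
  have h3 : ∏ p ∈ T, (p : ℝ) ≤ phi T * Real.exp (∑ p ∈ T, 1 / ((p : ℝ) - 1)) := by
    unfold phi
    rw [Real.exp_sum, ← prod_mul_distrib]
    refine prod_le_prod (fun p _ => Nat.cast_nonneg p) fun p hp => ?_
    have h4 := hT2 p hp
    have h5 := Real.add_one_le_exp (1 / ((p : ℝ) - 1))
    have h6 : (0 : ℝ) < (p : ℝ) - 1 := by linarith
    have h7 := mul_le_mul_of_nonneg_left h5 h6.le
    have h8 : ((p : ℝ) - 1) * (1 / ((p : ℝ) - 1) + 1) = p := by
      field_simp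
      ring
    linarith
  have h4 := Real.exp_le_exp.2 hx
  have h5 : ∏ p ∈ T, (p : ℝ) ≤ phi T * Real.exp x := h3.trans (mul_le_mul_of_nonneg_left h4 h1.le)
  rw [mul_one_div, div_le_div_iff₀ h1 h2]
  linarith

theorem one_le_V {T : Finset ℕ} (hT : ∀ p ∈ T, 2 ≤ p) {x : ℝ} (hx : ∑ p ∈ T, 1 / ((p : ℝ) - 1) ≤ x) :
    1 ≤ Real.exp x * ∏ p ∈ T, (1 - 1 / (p : ℝ)) := by
  have hT2 : ∀ p ∈ T, (2 : ℝ) ≤ p := fun p hp => by exact_mod_cast hT p hp
  have h2 : 0 ≤ ∏ p ∈ T, (1 - 1 / (p : ℝ)) := prod_nonneg fun p hp => fac_nn (hT2 p hp)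
  have h3 : 1 ≤ Real.exp (∑ p ∈ T, 1 / ((p : ℝ) - 1)) * ∏ p ∈ T, (1 - 1 / (p : ℝ)) := by
    rw [Real.exp_sum, ← prod_mul_distrib]
    have h3 : ∀ p ∈ T, 1 ≤ Real.exp (1 / ((p : ℝ) - 1)) * (1 - 1 / (p : ℝ)) := by
      intro p hp
      have h4 := hT2 p hp
      have h5 := Real.add_one_le_exp (1 / ((p : ℝ) - 1))
      have h6 : (0 : ℝ) < (p : ℝ) - 1 := by linarith
      have h7 := mul_le_mul_of_nonneg_right h5 (fac_nn h4)
      have h8 : (1 / ((p : ℝ) - 1) + 1) * (1 - 1 / (p : ℝ)) = 1 := by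
        have : (p : ℝ) ≠ 0 := by linarith
        field_simp
        ring
      linarith
    calc (1 : ℝ) = ∏ p ∈ T, 1 := by rw [prod_const_one]
      _ ≤ _ := prod_le_prod (fun _ _ => zero_le_one) h3
  exact h3.trans (mul_le_mul_of_nonneg_right (Real.exp_le_exp.2 hx) h2)

/-- the bound for the sums over `T` -/
theorem Gbound (J : ℕ) (hJ : 2 ≤ J) {A P : Finset ℕ} (hA : ∀ p ∈ A, p.Prime) (hP : ∀ p ∈ P, p.Prime)
    {Y : ℕ} (hY : 2 ≤ Y) (hAY : ∀ p ∈ A, p ≤ Y) (hPY : ∀ p ∈ P, Y < p) {Λ la k x : ℝ} (hla : Λ < la) (hk : 2 ≤ k)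
    (hx : Λ / (Y * Real.log Y) ≤ x) :
    ∀ S ⊆ P, lg S ≤ Λ → ∑ T ∈ P.powerset.filter (fun T => lg S + lg T ≤ Λ),
      1 / (phi T * (la - lg S + (k - 1) * lg T)) ≤
        (Real.exp (2 * x) * ((∏ p ∈ A, (1 - 1 / (p : ℝ))) / (1 - 2 * (1 / 2 : ℝ) ^ J)) *
          ((1 + J * lg A) / (la - Λ) + Real.log k / (k - 1))) * ∏ p ∈ S, (1 - 1 / (p : ℝ)) := by
  classical
  intro S hS hSL
  have hAP : Disjoint A P := by
    rw [disjoint_left]
    intro p h1 h2
    have := hAY p h1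
    have := hPY p h2
    omega
  have hJ1 : 0 < 1 - 2 * (1 / 2 : ℝ) ^ J := by
    have h1 : (1 / 2 : ℝ) ^ J ≤ (1 / 2 : ℝ) ^ 2 := pow_le_pow_of_le_one (by norm_num) (by norm_num) hJ
    norm_num at h1 ⊢
    linarith
  have hS0 := lg_nonneg S
  have hA0 := lg_nonneg A
  have hVA : 0 ≤ ∏ p ∈ A, (1 - 1 / (p : ℝ)) := prod_nonneg fun p hp => fac_nn (by exact_mod_cast (hA p hp).two_le)
  obtain ⟨κ, hκ⟩ : ∃ κ : ℝ, κ = (∏ p ∈ A, (1 - 1 / (p : ℝ))) / (1 - 2 * (1 / 2 : ℝ) ^ J) := ⟨_, rfl⟩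
  have hκ0 : 0 ≤ κ := by rw [hκ]; positivity
  rw [← hκ]
  have hlaS : 0 < la - lg S := by linarith
  have hk1 : 0 < k - 1 := by linarith
  obtain ⟨Ts, hTs⟩ : ∃ Ts, Ts = P.powerset.filter (fun T => lg S + lg T ≤ Λ) := ⟨_, rfl⟩
  have hTm : ∀ T ∈ Ts, T ⊆ P ∧ lg S + lg T ≤ Λ := by
    intro T hT
    rw [hTs, mem_filter, mem_powerset] at hT
    exact hT
  rw [← hTs]
  have hT2 : ∀ T ⊆ P, ∀ p ∈ T, 2 ≤ p := fun T hT p hp => (hP p (hT hp)).two_le
  have hps := psum (κ := κ) (c := 1 + J * lg A) (la := la - lg S) (m := k - 1) hlaS hk1 hκ0 (by positivity)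
    lg (fun T => 1 / (∏ p ∈ T, (p : ℝ))) Ts (fun T hT => ⟨lg_nonneg T, by positivity⟩) (by
      intro v hv
      have h1 := sumT J (by omega) hA hP hAP hv
      have h2 : ∑ T ∈ Ts.filter (fun T => lg T ≤ v), 1 / (∏ p ∈ T, (p : ℝ)) ≤
          ∑ T ∈ P.powerset.filter (fun T => lg T ≤ v), 1 / (∏ p ∈ T, (p : ℝ)) := by
        apply sum_le_sum_of_subset_of_nonneg
        · intro T hT
          rw [mem_filter] at hT ⊢
          exact ⟨mem_powerset.2 (hTm T hT.1).1, hT.2⟩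
        · intro T _ _
          positivity
      refine h2.trans ?_
      rw [hκ, div_mul_eq_mul_div, le_div_iff₀ hJ1, mul_comm]
      refine h1.trans (le_of_eq ?_)
      ring) (Λ - lg S) (by linarith) (fun T hT => by linarith [(hTm T hT).2])
  have hlog : Real.log ((la - lg S + (k - 1) * (Λ - lg S)) / (la - lg S)) ≤ Real.log k := by
    apply Real.log_le_log
    · have h0 : 0 ≤ (k - 1) * (Λ - lg S) := mul_nonneg hk1.le (by linarith)
      positivity
    · rw [div_le_iff₀ hlaS]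
      have h0 : (k - 1) * (Λ - lg S) ≤ (k - 1) * (la - lg S) := mul_le_mul_of_nonneg_left (by linarith) hk1.le
      linarith
  have hnn : 0 ≤ (κ * (Λ - lg S + (1 + J * lg A)) - ∑ T ∈ Ts, 1 / (∏ p ∈ T, (p : ℝ))) *
      (1 / (la - lg S + (k - 1) * (Λ - lg S))) := by
    apply mul_nonneg
    · have h1 := sumT J (by omega) hA hP hAP (v := Λ - lg S) (by linarith)
      have h2 : ∑ T ∈ Ts, 1 / (∏ p ∈ T, (p : ℝ)) = ∑ T ∈ P.powerset.filter (fun T => lg T ≤ Λ - lg S), 1 / (∏ p ∈ T, (p : ℝ)) := by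
        rw [hTs]
        refine sum_congr (filter_congr fun T _ => ?_) fun _ _ => rfl
        constructor <;> intro h <;> linarith
      rw [sub_nonneg, h2, hκ, div_mul_eq_mul_div, le_div_iff₀ hJ1, mul_comm]
      refine h1.trans (le_of_eq ?_)
      ring
    · have h0 : 0 ≤ (k - 1) * (Λ - lg S) := mul_nonneg hk1.le (by linarith)
      positivity
  have hmain : ∑ T ∈ Ts, 1 / (∏ p ∈ T, (p : ℝ)) * (1 / (la - lg S + (k - 1) * lg T)) ≤
      κ * ((1 + J * lg A) / (la - Λ) + Real.log k / (k - 1)) := by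
    have h1 : (1 + J * lg A) * (1 / (la - lg S)) ≤ (1 + J * lg A) / (la - Λ) := by
      rw [mul_one_div]
      apply div_le_div_of_nonneg_left (by positivity) (by linarith) (by linarith)
    have h2 : 1 / (k - 1) * Real.log ((la - lg S + (k - 1) * (Λ - lg S)) / (la - lg S)) ≤ Real.log k / (k - 1) := by
      rw [one_div_mul_eq_div]
      exact div_le_div_of_nonneg_right hlog hk1.le
    have h3 := mul_le_mul_of_nonneg_left (add_le_add h1 h2) hκ0
    linarith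
  -- pass to `phi`
  have hterm : ∀ T ∈ Ts, 1 / (phi T * (la - lg S + (k - 1) * lg T)) ≤
      Real.exp x * (1 / (∏ p ∈ T, (p : ℝ)) * (1 / (la - lg S + (k - 1) * lg T))) := by
    intro T hT
    obtain ⟨h1, h2⟩ := hTm T hT
    have h3 : ∑ p ∈ T, 1 / ((p : ℝ) - 1) ≤ x :=
      (sum_inv_le' hY (fun p hp => hPY p (h1 hp)) (by linarith)).trans hx
    have h4 := phi_le (hT2 T h1) h3
    have h5 : 0 < la - lg S + (k - 1) * lg T := by
      have := mul_nonneg hk1.le (lg_nonneg T)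
      linarith
    rw [← one_div_mul_one_div]
    have h6 := mul_le_mul_of_nonneg_right h4 (show 0 ≤ 1 / (la - lg S + (k - 1) * lg T) by positivity)
    linarith
  have hSx : ∑ p ∈ S, 1 / ((p : ℝ) - 1) ≤ x :=
    (sum_inv_le' hY (fun p hp => hPY p (hS hp)) hSL).trans hx
  have hV1 := one_le_V (hT2 S hS) hSx
  have h1 := sum_le_sum hterm
  rw [← mul_sum] at h1
  have h2 := mul_le_mul_of_nonneg_left hmain (Real.exp_pos x).le
  have h3 : 0 ≤ Real.exp x * (κ * ((1 + J * lg A) / (la - Λ) + Real.log k / (k - 1))) := by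
    have h4 : 0 ≤ Real.log k := Real.log_nonneg (by linarith)
    have h5 : 0 < la - Λ := by linarith
    positivity
  have h4 := mul_le_mul_of_nonneg_left hV1 h3
  rw [mul_one] at h4
  refine h1.trans (h2.trans (h4.trans (le_of_eq ?_)))
  have h5 : Real.exp (2 * x) = Real.exp x * Real.exp x := by rw [← Real.exp_add]; ring_nf
  rw [h5]
  ring

theorem lg_primes {A : Finset ℕ} {Y : ℕ} (hA : ∀ p ∈ A, p.Prime ∧ p ≤ Y) : lg A ≤ Y * Real.log 4 := by
  have h1 : lg A ≤ Real.log ((primorial Y : ℕ) : ℝ) := by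
    have h2 : A ⊆ (range (Y + 1)).filter Nat.Prime := by
      intro p hp
      rw [mem_filter, mem_range]
      exact ⟨by have := (hA p hp).2; omega, (hA p hp).1⟩
    refine (lg_mono h2).trans (le_of_eq ?_)
    unfold lg primorial
    push_cast
    rw [Real.log_prod]
    intro p hp
    exact_mod_cast (mem_filter.1 hp).2.ne_zero
  refine h1.trans ?_
  rw [← Real.log_pow]
  apply Real.log_le_log
  · exact_mod_cast primorial_pos Y
  · exact_mod_cast primorial_le_four_pow Y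

/-- continuity of the constant -/
theorem small (k ε : ℝ) (hε : 0 < ε) : ∃ t : ℝ, 0 < t ∧ t < 1 / 2 ∧
    Real.exp (3 * t) * (1 / (1 - t)) * (t + Real.log k / (k - 1)) * (k * (1 + 2 * t)) ≤
      k * Real.log k / (k - 1) + ε := by
  have h1 : ContinuousAt (fun t : ℝ => Real.exp (3 * t) * (1 / (1 - t)) * (t + Real.log k / (k - 1)) *
      (k * (1 + 2 * t))) 0 := by
    have : (1 : ℝ) - 0 ≠ 0 := by norm_num
    fun_prop (disch := assumption)
  have h2 : (fun t : ℝ => Real.exp (3 * t) * (1 / (1 - t)) * (t + Real.log k / (k - 1)) *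
      (k * (1 + 2 * t))) 0 < k * Real.log k / (k - 1) + ε := by
    simp
    ring_nf
    linarith
  have h3 := h1.eventually (eventually_lt_nhds h2)
  rw [Metric.eventually_nhds_iff] at h3
  obtain ⟨e, he, h4⟩ := h3
  refine ⟨min (e / 2) (1 / 4), by positivity, ?_, ?_⟩
  · have := min_le_right (e / 2) (1 / 4 : ℝ)
    linarith
  · refine (h4 ?_).le
    have h5 : 0 < min (e / 2) (1 / 4 : ℝ) := by positivity
    rw [Real.dist_eq, sub_zero, abs_of_pos h5]
    have := min_le_left (e / 2) (1 / 4 : ℝ)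
    linarith

end Pool.Agent.N422.MT
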