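import Pool.Agent.Y835.SB.Fin

/-! Local operators at a prime, for one site: mean value, the component along the indicator function of the site, the rest.
Author: helper422. -/

set_option autoImplicit false

namespace Pool.Agent.N422.MT

open Finset Pool.Agent.Y835.SB

/-- the centred indicator function of the multiples of `p` at the site `ρ` -/
noncomputable def kk (ρ : ℕ → ℕ) (p n : ℕ) : ℝ := if p ∣ n + ρ p then 1 else -(1 / ((p : ℝ) - 1))

/-- the mean value over the coordinate at `p` -/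
noncomputable def EE (M K : ℕ → ℕ) (p : ℕ) (F : ℕ → ℝ) : ℕ → ℝ := Av (M p) (K p) F

/-- the coefficient of `kk` -/
noncomputable def DD (M K ρ : ℕ → ℕ) (p : ℕ) (F : ℕ → ℝ) : ℕ → ℝ :=
  fun n => ((p : ℝ) - 1) * Av (M p) (K p) (fun n => F n * kk ρ p n) n

/-- the rest -/
noncomputable def QQ (M K ρ : ℕ → ℕ) (p : ℕ) (F : ℕ → ℝ) : ℕ → ℝ :=
  fun n => F n - EE M K p F n - DD M K ρ p F n * kk ρ p n

theorem dvd_shift {p m n r : ℕ} (h : p ∣ m) : (p ∣ n + m + r) ↔ (p ∣ n + r) := by
  have e : n + m + r = n + r + m := by ring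
  rw [e]
  exact (Nat.dvd_add_iff_left h).symm

theorem kk_per {ρ : ℕ → ℕ} {p m : ℕ} (h : p ∣ m) : Function.Periodic (kk ρ p) m := by
  intro n
  unfold kk
  exact if_congr (dvd_shift h) rfl rfl

theorem per_mul {F G : ℕ → ℝ} {m : ℕ} (hF : Function.Periodic F m) (hG : Function.Periodic G m) :
    Function.Periodic (fun n => F n * G n) m := fun n => by simp only [hF n, hG n]

section one

variable {N : ℕ} {M K : ℕ → ℕ} {P : Finset ℕ}

theorem pN (hD : Dat N M K P) {p : ℕ} (hp : p ∈ P) : p ∣ N := by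
  obtain ⟨k, hk, hK⟩ := hD.pow p hp
  rw [← hD.mul p hp, hK]
  exact (dvd_pow_self p (by omega)).mul_left _

theorem MN (hD : Dat N M K P) {p : ℕ} (hp : p ∈ P) : M p ∣ N := by
  rw [← hD.mul p hp]
  exact Dvd.intro _ rfl

theorem two (hD : Dat N M K P) {p : ℕ} (hp : p ∈ P) : (2 : ℝ) ≤ p := by
  exact_mod_cast (hD.pr p hp).two_le

theorem Av_hit (hD : Dat N M K P) {p : ℕ} (hp : p ∈ P) (r : ℕ) (a b : ℝ) (n : ℕ) :
    Av (M p) (K p) (fun n => if p ∣ n + r then a else b) n = a / p + b * (1 - 1 / p) := by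
  obtain ⟨k, hk, hK⟩ := hD.pow p hp
  have hpp := hD.pr p hp
  have hp0 : (0 : ℝ) < p := by exact_mod_cast hpp.pos
  have h1 := fib_card hpp hK hk (hD.ndvd p hp) (n + r)
  have hK0 : (0 : ℝ) < K p := by exact_mod_cast hD.Kpos hp
  unfold Av
  have h2 : ∀ t ∈ range (K p), (if p ∣ n + M p * t + r then a else b) =
      b + (a - b) * (if p ∣ n + r + M p * t then 1 else 0) := by
    intro t _
    have e : n + M p * t + r = n + r + M p * t := by ring
    rw [e]
    split_ifs <;> ring
  rw [sum_congr rfl h2, sum_add_distrib, sum_const, card_range, nsmul_eq_mul, ← mul_sum, sum_boole]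
  have h3 : ((((range (K p)).filter (fun t => p ∣ n + r + M p * t)).card : ℕ) : ℝ) * p = K p := by
    exact_mod_cast h1
  set c : ℝ := ((((range (K p)).filter (fun t => p ∣ n + r + M p * t)).card : ℕ) : ℝ) with hc
  rw [← h3]
  have hc0 : c ≠ 0 := by
    intro h
    rw [h, zero_mul] at h3
    linarith
  field_simp
  ring

theorem Av_kk (hD : Dat N M K P) (ρ : ℕ → ℕ) {p : ℕ} (hp : p ∈ P) (n : ℕ) :
    Av (M p) (K p) (kk ρ p) n = 0 := by
  have h2 := two hD hp
  have e : kk ρ p = fun n => if p ∣ n + ρ p then (1 : ℝ) else -(1 / ((p : ℝ) - 1)) := rfl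
  rw [e, Av_hit hD hp]
  have : (p : ℝ) - 1 ≠ 0 := by linarith
  have : (p : ℝ) ≠ 0 := by linarith
  field_simp
  ring

theorem Av_kk2 (hD : Dat N M K P) (ρ : ℕ → ℕ) {p : ℕ} (hp : p ∈ P) (n : ℕ) :
    Av (M p) (K p) (fun n => kk ρ p n ^ 2) n = 1 / ((p : ℝ) - 1) := by
  have h2 := two hD hp
  have e : (fun n => kk ρ p n ^ 2) = fun n => if p ∣ n + ρ p then (1 : ℝ) else (1 / ((p : ℝ) - 1)) ^ 2 := by
    funext n
    unfold kk
    split_ifs <;> ring
  rw [e, Av_hit hD hp]
  have : (p : ℝ) - 1 ≠ 0 := by linarith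
  have : (p : ℝ) ≠ 0 := by linarith
  field_simp
  ring

theorem EE_perM (hD : Dat N M K P) {p : ℕ} (hp : p ∈ P) {F : ℕ → ℝ} (hF : Function.Periodic F N) :
    Function.Periodic (EE M K p F) (M p) := Av_perM (by rw [hD.mul p hp]; exact hF)

theorem DD_perM (hD : Dat N M K P) (ρ : ℕ → ℕ) {p : ℕ} (hp : p ∈ P) {F : ℕ → ℝ} (hF : Function.Periodic F N) :
    Function.Periodic (DD M K ρ p F) (M p) := by
  intro n
  unfold DD
  rw [Av_perM (M := M p) (K := K p) (F := fun n => F n * kk ρ p n) (by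
    rw [hD.mul p hp]
    exact per_mul hF (kk_per (pN hD hp))) n]

/-- summation over the fibres -/
theorem A1 (hD : Dat N M K P) {p : ℕ} (hp : p ∈ P) {F G : ℕ → ℝ} (hF : Function.Periodic F N)
    (hG : Function.Periodic G (M p)) :
    ∑ n ∈ range N, F n * G n = ∑ n ∈ range N, Av (M p) (K p) F n * G n := by
  rw [← sum_Av (M := M p) (hD.Kpos hp) (F := fun n => F n * G n) (per_mul hF (per_of_dvd hG (MN hD hp)))]
  exact sum_congr rfl fun n _ => Av_mul hG n

theorem A3 (hD : Dat N M K P) (ρ : ℕ → ℕ) {p : ℕ} (hp : p ∈ P) {G : ℕ → ℝ}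
    (hG : Function.Periodic G (M p)) :
    ∑ n ∈ range N, kk ρ p n ^ 2 * G n = 1 / ((p : ℝ) - 1) * ∑ n ∈ range N, G n := by
  rw [A1 hD hp (F := fun n => kk ρ p n ^ 2) (fun n => by simp only [kk_per (pN hD hp) n]) hG, mul_sum]
  exact sum_congr rfl fun n _ => by rw [Av_kk2 hD ρ hp]

theorem A4 (hD : Dat N M K P) (ρ : ℕ → ℕ) {p : ℕ} (hp : p ∈ P) {G : ℕ → ℝ}
    (hG : Function.Periodic G (M p)) :
    ∑ n ∈ range N, kk ρ p n * G n = 0 := by
  rw [A1 hD hp (kk_per (pN hD hp)) hG]
  exact sum_eq_zero fun n _ => by rw [Av_kk hD ρ hp, zero_mul]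

theorem A2 (hD : Dat N M K P) (ρ : ℕ → ℕ) {p : ℕ} (hp : p ∈ P) {F G : ℕ → ℝ}
    (hF : Function.Periodic F N) (hG : Function.Periodic G (M p)) :
    ((p : ℝ) - 1) * ∑ n ∈ range N, (F n * kk ρ p n) * G n = ∑ n ∈ range N, DD M K ρ p F n * G n := by
  rw [A1 hD hp (F := fun n => F n * kk ρ p n) (per_mul hF (kk_per (pN hD hp))) hG, mul_sum]
  refine sum_congr rfl fun n _ => ?_
  unfold DD
  ring

/-- orthogonality -/
theorem par (hD : Dat N M K P) (ρ : ℕ → ℕ) {p : ℕ} (hp : p ∈ P) {F U : ℕ → ℝ}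
    (hF : Function.Periodic F N) (hU : Function.Periodic U (M p)) :
    ∑ n ∈ range N, U n * F n ^ 2 = ∑ n ∈ range N, U n * EE M K p F n ^ 2 +
      ∑ n ∈ range N, U n * QQ M K ρ p F n ^ 2 + 1 / ((p : ℝ) - 1) * ∑ n ∈ range N, U n * DD M K ρ p F n ^ 2 := by
  have h2 := two hD hp
  have h1 : (0 : ℝ) < (p : ℝ) - 1 := by linarith
  set e := EE M K p F with he
  set d := DD M K ρ p F with hd
  have hep : Function.Periodic e (M p) := EE_perM hD hp hF
  have hdp : Function.Periodic d (M p) := DD_perM hD ρ hp hF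
  have a1 := A1 hD hp hF (G := fun n => U n * e n) (per_mul hU hep)
  have a2 := A2 hD ρ hp hF (G := fun n => U n * d n) (per_mul hU hdp)
  have a3 := A3 hD ρ hp (G := fun n => U n * d n ^ 2) (fun n => by simp only [hU n, hdp n])
  have a4 := A4 hD ρ hp (G := fun n => U n * (e n * d n)) (per_mul hU (per_mul hep hdp))
  have e1 : ∑ n ∈ range N, U n * QQ M K ρ p F n ^ 2 = ∑ n ∈ range N, U n * F n ^ 2 +
      ∑ n ∈ range N, U n * e n ^ 2 + ∑ n ∈ range N, kk ρ p n ^ 2 * (U n * d n ^ 2) -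
      2 * ∑ n ∈ range N, F n * (U n * e n) - 2 * ∑ n ∈ range N, (F n * kk ρ p n) * (U n * d n) +
      2 * ∑ n ∈ range N, kk ρ p n * (U n * (e n * d n)) := by
    rw [mul_sum, mul_sum, mul_sum, ← sum_add_distrib, ← sum_add_distrib, ← sum_sub_distrib, ← sum_sub_distrib,
      ← sum_add_distrib]
    refine sum_congr rfl fun n _ => ?_
    unfold QQ
    rw [← he, ← hd]
    ring
  have e2 : ∑ n ∈ range N, F n * (U n * e n) = ∑ n ∈ range N, U n * e n ^ 2 := by
    rw [a1]
    refine sum_congr rfl fun n _ => ?_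
    have : Av (M p) (K p) F n = e n := rfl
    rw [this]
    ring
  have e3 : ∑ n ∈ range N, (F n * kk ρ p n) * (U n * d n) = 1 / ((p : ℝ) - 1) * ∑ n ∈ range N, U n * d n ^ 2 := by
    have e4 : ∑ n ∈ range N, d n * (U n * d n) = ∑ n ∈ range N, U n * d n ^ 2 :=
      sum_congr rfl fun n _ => by ring
    rw [e4] at a2
    rw [← a2]
    field_simp
  rw [e1, e2, e3, a3, a4]
  ring

/-- orthogonality to the mean value -/
theorem par0 (hD : Dat N M K P) {p : ℕ} (hp : p ∈ P) {F U : ℕ → ℝ}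
    (hF : Function.Periodic F N) (hU : Function.Periodic U (M p)) :
    ∑ n ∈ range N, U n * F n ^ 2 = ∑ n ∈ range N, U n * EE M K p F n ^ 2 +
      ∑ n ∈ range N, U n * (F n - EE M K p F n) ^ 2 := by
  set e := EE M K p F with he
  have hep : Function.Periodic e (M p) := EE_perM hD hp hF
  have a1 := A1 hD hp hF (G := fun n => U n * e n) (per_mul hU hep)
  have e1 : ∑ n ∈ range N, U n * (F n - e n) ^ 2 = ∑ n ∈ range N, U n * F n ^ 2 +
      ∑ n ∈ range N, U n * e n ^ 2 - 2 * ∑ n ∈ range N, F n * (U n * e n) := by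
    rw [mul_sum, ← sum_add_distrib, ← sum_sub_distrib]
    exact sum_congr rfl fun n _ => by ring
  have e2 : ∑ n ∈ range N, F n * (U n * e n) = ∑ n ∈ range N, U n * e n ^ 2 := by
    rw [a1]
    refine sum_congr rfl fun n _ => ?_
    have : Av (M p) (K p) F n = e n := rfl
    rw [this]
    ring
  rw [e1, e2]
  ring

/-- the sieve step -/
theorem stepU (hD : Dat N M K P) (ρ : ℕ → ℕ) {p : ℕ} (hp : p ∈ P) {F U : ℕ → ℝ}
    (hF : Function.Periodic F N) (hU : Function.Periodic U (M p)) (hU0 : ∀ n, 0 ≤ U n) :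
    ∑ n ∈ range N, U n * (if p ∣ n + ρ p then 0 else F n ^ 2) ≤
      (1 - 1 / (p : ℝ)) * ∑ n ∈ range N, U n * (EE M K p F n - 1 / ((p : ℝ) - 1) * DD M K ρ p F n) ^ 2 +
      ∑ n ∈ range N, U n * QQ M K ρ p F n ^ 2 := by
  have h2 := two hD hp
  have h1 : (0 : ℝ) < (p : ℝ) - 1 := by linarith
  have hp0 : (p : ℝ) ≠ 0 := by linarith
  set e := EE M K p F with he
  set d := DD M K ρ p F with hd
  set z : ℕ → ℝ := fun n => e n - 1 / ((p : ℝ) - 1) * d n with hz
  have hep : Function.Periodic e (M p) := EE_perM hD hp hF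
  have hdp : Function.Periodic d (M p) := DD_perM hD ρ hp hF
  have hzp : Function.Periodic z (M p) := fun n => by simp only [hz, hep n, hdp n]
  have hUz : Function.Periodic (fun n => U n * z n) (M p) := per_mul hU hzp
  -- the rest is orthogonal
  have b1 : ∑ n ∈ range N, U n * z n * QQ M K ρ p F n = 0 := by
    have c1 := A1 hD hp hF hUz
    have c2 := A4 hD ρ hp (G := fun n => U n * z n * d n) (per_mul hUz hdp)
    have e1 : ∑ n ∈ range N, U n * z n * QQ M K ρ p F n = ∑ n ∈ range N, F n * (U n * z n) -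
        ∑ n ∈ range N, Av (M p) (K p) F n * (U n * z n) - ∑ n ∈ range N, kk ρ p n * (U n * z n * d n) := by
      rw [← sum_sub_distrib, ← sum_sub_distrib]
      refine sum_congr rfl fun n _ => ?_
      unfold QQ
      rw [← hd]
      unfold EE
      ring
    rw [e1, c2, ← c1]
    ring
  have b2 : ∑ n ∈ range N, kk ρ p n * (U n * z n * QQ M K ρ p F n) = 0 := by
    have c1 := A2 hD ρ hp hF hUz
    have c2 := A3 hD ρ hp (G := fun n => U n * z n * d n) (per_mul hUz hdp)
    have c3 := A4 hD ρ hp (G := fun n => U n * z n * e n) (per_mul hUz hep)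
    have e1 : ∑ n ∈ range N, kk ρ p n * (U n * z n * QQ M K ρ p F n) = ∑ n ∈ range N, (F n * kk ρ p n) * (U n * z n) -
        ∑ n ∈ range N, kk ρ p n * (U n * z n * e n) - ∑ n ∈ range N, kk ρ p n ^ 2 * (U n * z n * d n) := by
      rw [← sum_sub_distrib, ← sum_sub_distrib]
      refine sum_congr rfl fun n _ => ?_
      unfold QQ
      rw [← hd, ← he]
      ring
    have c4 : ∑ n ∈ range N, (F n * kk ρ p n) * (U n * z n) = 1 / ((p : ℝ) - 1) * ∑ n ∈ range N, U n * z n * d n := by
      have c5 : ∑ n ∈ range N, DD M K ρ p F n * (U n * z n) = ∑ n ∈ range N, U n * z n * d n :=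
        sum_congr rfl fun n _ => by rw [← hd]; ring
      rw [← c5, ← c1]
      field_simp
    rw [e1, c2, c3, c4]
    ring
  have b3 : ∑ n ∈ range N, kk ρ p n * (U n * z n ^ 2) = 0 :=
    A4 hD ρ hp (fun n => by simp only [hU n, hzp n])
  have key : ∑ n ∈ range N, U n * (if p ∣ n + ρ p then 0 else F n ^ 2) =
      (1 - 1 / (p : ℝ)) * ∑ n ∈ range N, U n * z n ^ 2 +
      ∑ n ∈ range N, U n * (if p ∣ n + ρ p then 0 else QQ M K ρ p F n ^ 2) := by
    have e1 : ∑ n ∈ range N, U n * (if p ∣ n + ρ p then 0 else F n ^ 2) =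
      (1 - 1 / (p : ℝ)) * (∑ n ∈ range N, U n * z n ^ 2 - ∑ n ∈ range N, kk ρ p n * (U n * z n ^ 2)) +
      2 * (1 - 1 / (p : ℝ)) * (∑ n ∈ range N, U n * z n * QQ M K ρ p F n -
        ∑ n ∈ range N, kk ρ p n * (U n * z n * QQ M K ρ p F n)) +
      ∑ n ∈ range N, U n * (if p ∣ n + ρ p then 0 else QQ M K ρ p F n ^ 2) := by
      rw [← sum_sub_distrib, ← sum_sub_distrib, mul_sum, mul_sum, ← sum_add_distrib, ← sum_add_distrib]
      refine sum_congr rfl fun n _ => ?_
      have hF' : F n = e n + d n * kk ρ p n + QQ M K ρ p F n := by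
        unfold QQ
        rw [← hd, ← he]
        ring
      by_cases hdv : p ∣ n + ρ p
      · have hk : kk ρ p n = 1 := if_pos hdv
        rw [if_pos hdv, if_pos hdv, hk]
        ring
      · have hk : kk ρ p n = -(1 / ((p : ℝ) - 1)) := if_neg hdv
        rw [if_neg hdv, if_neg hdv]
        have hF2 : F n = z n + QQ M K ρ p F n := by
          rw [hF', hk]
          simp only [hz]
          ring
        have hk2 : (1 - 1 / (p : ℝ)) * (1 - kk ρ p n) = 1 := by
          rw [hk]
          field_simp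
          ring
        have e5 : (1 - 1 / (p : ℝ)) * (U n * z n ^ 2 - kk ρ p n * (U n * z n ^ 2)) +
          2 * (1 - 1 / (p : ℝ)) * (U n * z n * QQ M K ρ p F n - kk ρ p n * (U n * z n * QQ M K ρ p F n)) +
          U n * QQ M K ρ p F n ^ 2 = ((1 - 1 / (p : ℝ)) * (1 - kk ρ p n)) * (U n * z n ^ 2 + 2 * (U n * z n * QQ M K ρ p F n)) +
            U n * QQ M K ρ p F n ^ 2 := by ring
        rw [e5, hk2]
        nth_rewrite 1 [hF2]
        ring
    rw [e1, b1, b2, b3]
    ring
  rw [key]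
  have h3 : ∑ n ∈ range N, U n * (if p ∣ n + ρ p then 0 else QQ M K ρ p F n ^ 2) ≤
      ∑ n ∈ range N, U n * QQ M K ρ p F n ^ 2 := by
    refine sum_le_sum fun n _ => mul_le_mul_of_nonneg_left ?_ (hU0 n)
    split_ifs
    · exact sq_nonneg _
    · exact le_rfl
  linarith

/-- the energy of one component -/
theorem DD_le (hD : Dat N M K P) (ρ : ℕ → ℕ) {p : ℕ} (hp : p ∈ P) {F : ℕ → ℝ}
    (hF : Function.Periodic F N) :
    ∑ n ∈ range N, DD M K ρ p F n ^ 2 ≤
      (p : ℝ) * ∑ n ∈ range N, if p ∣ n + ρ p then (F n - EE M K p F n) ^ 2 else 0 := by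
  have h2 := two hD hp
  have h1 : (0 : ℝ) < (p : ℝ) - 1 := by linarith
  have hp0 : (0 : ℝ) < p := by linarith
  have hK0 : (0 : ℝ) < K p := by exact_mod_cast hD.Kpos hp
  set e := EE M K p F with he
  have hep : Function.Periodic e (M p) := EE_perM hD hp hF
  have heN : Function.Periodic e N := Av_per hF
  have hpN := pN hD hp
  have key : ∀ n, DD M K ρ p F n ^ 2 ≤
      p * Av (M p) (K p) (fun n => if p ∣ n + ρ p then (F n - e n) ^ 2 else 0) n := by
    intro n
    have c1 : DD M K ρ p F n = p * Av (M p) (K p) (fun n => (if p ∣ n + ρ p then 1 else 0) * (F n - e n)) n := by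
      -- both are sums over the fibre
      have hAt : ∀ t, e (n + M p * t) = e n := by
        intro t
        have := hep.nat_mul t n
        rwa [Nat.cast_id, mul_comm] at this
      have hF0 : Av (M p) (K p) (fun n => F n - e n) n = 0 := by
        have : (fun n => F n - e n) = F - e := rfl
        rw [this, Av_sub, Pi.sub_apply, Av_of_per (hD.Kpos hp) hep]
        exact sub_self _
      have hk0 : Av (M p) (K p) (fun n => kk ρ p n * e n) n = 0 := by
        rw [Av_mul hep, Av_kk hD ρ hp, zero_mul]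
      have e1 : Av (M p) (K p) (fun n => F n * kk ρ p n) n =
          Av (M p) (K p) (fun n => (F n - e n) * kk ρ p n) n + Av (M p) (K p) (fun n => kk ρ p n * e n) n := by
        unfold Av
        rw [← add_div, ← sum_add_distrib]
        congr 1
        exact sum_congr rfl fun t _ => by ring
      have e2 : ((p : ℝ) - 1) * Av (M p) (K p) (fun n => (F n - e n) * kk ρ p n) n =
          p * Av (M p) (K p) (fun n => (if p ∣ n + ρ p then 1 else 0) * (F n - e n)) n -
            Av (M p) (K p) (fun n => F n - e n) n := by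
        unfold Av
        rw [mul_div_assoc', mul_div_assoc', ← sub_div, mul_sum, mul_sum, ← sum_sub_distrib]
        congr 1
        refine sum_congr rfl fun t _ => ?_
        unfold kk
        beta_reduce
        split_ifs
        · ring
        · field_simp
          ring
      unfold DD
      rw [e1, hk0, add_zero, e2, hF0, sub_zero]
    have c2 : Av (M p) (K p) (fun n => (if p ∣ n + ρ p then 1 else 0) * (F n - e n)) n ^ 2 ≤
        1 / p * Av (M p) (K p) (fun n => if p ∣ n + ρ p then (F n - e n) ^ 2 else 0) n := by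
      have c3 := Av_hit hD hp (ρ p) 1 0 n
      rw [zero_mul, add_zero] at c3
      rw [← c3]
      unfold Av
      rw [div_pow, div_mul_div_comm, ← sq]
      apply div_le_div_of_nonneg_right _ (by positivity)
      have c4 := sum_mul_sq_le_sq_mul_sq (range (K p)) (fun t => if p ∣ n + M p * t + ρ p then (1 : ℝ) else 0)
        (fun t => (if p ∣ n + M p * t + ρ p then (1 : ℝ) else 0) * (F (n + M p * t) - e (n + M p * t)))
      have c5 : ∀ t, (if p ∣ n + M p * t + ρ p then (1 : ℝ) else 0) *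
          ((if p ∣ n + M p * t + ρ p then (1 : ℝ) else 0) * (F (n + M p * t) - e (n + M p * t))) =
          (if p ∣ n + M p * t + ρ p then (1 : ℝ) else 0) * (F (n + M p * t) - e (n + M p * t)) := by
        intro t
        split_ifs <;> ring
      have c6 : ∀ t, (if p ∣ n + M p * t + ρ p then (1 : ℝ) else 0) ^ 2 = (if p ∣ n + M p * t + ρ p then (1 : ℝ) else 0) := by
        intro t
        split_ifs <;> ring
      have c7 : ∀ t, ((if p ∣ n + M p * t + ρ p then (1 : ℝ) else 0) * (F (n + M p * t) - e (n + M p * t))) ^ 2 =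
          if p ∣ n + M p * t + ρ p then (F (n + M p * t) - e (n + M p * t)) ^ 2 else 0 := by
        intro t
        split_ifs <;> ring
      simp only [c5, c6, c7] at c4
      exact c4
    rw [c1, mul_pow]
    have c8 := mul_le_mul_of_nonneg_left c2 (show (0 : ℝ) ≤ (p : ℝ) ^ 2 by positivity)
    refine c8.trans (le_of_eq ?_)
    field_simp
  refine (sum_le_sum fun n _ => key n).trans (le_of_eq ?_)
  rw [← mul_sum]
  congr 1
  refine sum_Av (hD.Kpos hp) fun n => ?_
  simp only [hF n, heN n]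
  exact if_congr (dvd_shift hpN) rfl rfl

end one

end Pool.Agent.N422.MT
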