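import Pool.Agent.N422.MT1

/-! The expansion of a function along the local operators of a list of primes. Author: helper422. -/

set_option autoImplicit false

namespace Pool.Agent.N422.MT

open Finset Pool.Agent.Y835.SB

/-- operators acting on the coordinate at `q` only -/
structure Loc (M K : ℕ → ℕ) (P : Finset ℕ) (q : ℕ) (X : (ℕ → ℝ) → (ℕ → ℝ)) : Prop where
  sub : ∀ F G : ℕ → ℝ, X (fun n => F n - G n) = fun n => X F n - X G n
  mul : ∀ F G : ℕ → ℝ, Function.Periodic G (M q) → X (fun n => F n * G n) = fun n => X F n * G n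
  av : ∀ p ∈ P, p ≠ q → ∀ F, X (Av (M p) (K p) F) = Av (M p) (K p) (X F)
  per : ∀ F m, q ∣ m → Function.Periodic F m → Function.Periodic (X F) m

theorem Av_cmul (M K : ℕ) (c : ℝ) (F : ℕ → ℝ) : Av M K (fun n => c * F n) = fun n => c * Av M K F n := by
  funext n
  unfold Av
  rw [← mul_sum, mul_div_assoc]

theorem Av_sub' (M K : ℕ) (F G : ℕ → ℝ) : Av M K (fun n => F n - G n) = fun n => Av M K F n - Av M K G n :=
  Av_sub M K F G

section one

variable {N : ℕ} {M K : ℕ → ℕ} {P : Finset ℕ}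

theorem Loc.zero {q : ℕ} {X : (ℕ → ℝ) → (ℕ → ℝ)} (h : Loc M K P q X) : X (fun _ => 0) = fun _ => 0 := by
  have h1 := h.sub (fun _ => 0) (fun _ => 0)
  simp only [sub_self] at h1
  exact h1

theorem Loc.add {q : ℕ} {X : (ℕ → ℝ) → (ℕ → ℝ)} (h : Loc M K P q X) (F G : ℕ → ℝ) :
    X (fun n => F n + G n) = fun n => X F n + X G n := by
  have h1 := h.sub (fun _ => 0) G
  have h2 := h.sub F (fun n => 0 - G n)
  rw [h1, h.zero] at h2
  have e1 : (fun n => F n - (fun n => 0 - G n) n) = fun n => F n + G n := by funext n; ring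
  rw [e1] at h2
  rw [h2]
  funext n
  ring

theorem Loc.smul {q : ℕ} {X : (ℕ → ℝ) → (ℕ → ℝ)} (h : Loc M K P q X) (F : ℕ → ℝ) (c : ℝ) :
    X (fun n => F n * c) = fun n => X F n * c := h.mul F (fun _ => c) (fun _ => rfl)

theorem EE_loc (M K : ℕ → ℕ) (P : Finset ℕ) (q : ℕ) : Loc M K P q (EE M K q) := by
  refine ⟨fun F G => Av_sub' _ _ F G, fun F G hG => ?_, fun p _ _ F => Av_comm _ _ _ _ F, fun F m _ hF => Av_per hF⟩
  funext n
  exact Av_mul hG n

theorem kk_perM (hD : Dat N M K P) (ρ : ℕ → ℕ) {p q : ℕ} (hp : p ∈ P) (hq : q ∈ P) (h : p ≠ q) :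
    Function.Periodic (kk ρ q) (M p) := kk_per (hD.dvd p hp q hq h.symm)

theorem DD_loc (hD : Dat N M K P) (ρ : ℕ → ℕ) {q : ℕ} (hq : q ∈ P) : Loc M K P q (DD M K ρ q) := by
  refine ⟨fun F G => ?_, fun F G hG => ?_, fun p hp hpq F => ?_, fun F m hm hF => ?_⟩
  · funext n
    unfold DD
    have e : (fun n => (F n - G n) * kk ρ q n) = fun n => (fun n => F n * kk ρ q n) n - (fun n => G n * kk ρ q n) n := by
      funext n; ring
    rw [e, Av_sub']
    ring
  · funext n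
    unfold DD
    have e : (fun n => F n * G n * kk ρ q n) = fun n => (fun n => F n * kk ρ q n) n * G n := by
      funext n; ring
    rw [e, Av_mul hG]
    ring
  · have e1 : (fun n => Av (M p) (K p) F n * kk ρ q n) = Av (M p) (K p) (fun n => F n * kk ρ q n) := by
      funext n
      exact (Av_mul (kk_perM hD ρ hp hq hpq) n).symm
    unfold DD
    rw [Av_cmul]
    funext n
    rw [e1, Av_comm]
  · intro n
    unfold DD
    rw [Av_per (per_mul hF (kk_per hm)) n]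

theorem QQ_loc (hD : Dat N M K P) (ρ : ℕ → ℕ) {q : ℕ} (hq : q ∈ P) : Loc M K P q (QQ M K ρ q) := by
  have hE := EE_loc M K P q
  have hDD := DD_loc hD ρ hq
  refine ⟨fun F G => ?_, fun F G hG => ?_, fun p hp hpq F => ?_, fun F m hm hF => ?_⟩
  · funext n
    unfold QQ
    rw [hE.sub, hDD.sub]
    ring
  · funext n
    unfold QQ
    rw [hE.mul F G hG, hDD.mul F G hG]
    ring
  · have e1 : QQ M K ρ q F = fun n => (fun n => F n - EE M K q F n) n - (fun n => DD M K ρ q F n * kk ρ q n) n := rfl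
    rw [e1, Av_sub', Av_sub']
    funext n
    rw [Av_mul (kk_perM hD ρ hp hq hpq)]
    unfold QQ
    rw [hE.av p hp hpq, hDD.av p hp hpq]
  · intro n
    unfold QQ
    rw [hF n, hE.per F m hm hF n, hDD.per F m hm hF n, kk_per hm n]

theorem Loc.cE {q p : ℕ} (hp : p ∈ P) (hpq : p ≠ q) {X : (ℕ → ℝ) → (ℕ → ℝ)}
    (h : Loc M K P q X) (F : ℕ → ℝ) : X (EE M K p F) = EE M K p (X F) := h.av p hp hpq F

theorem Loc.cD (hD : Dat N M K P) (ρ : ℕ → ℕ) {q p : ℕ} (hq : q ∈ P) (hp : p ∈ P) (hpq : p ≠ q)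
    {X : (ℕ → ℝ) → (ℕ → ℝ)} (h : Loc M K P q X) (F : ℕ → ℝ) : X (DD M K ρ p F) = DD M K ρ p (X F) := by
  have e1 : DD M K ρ p F = fun n => Av (M p) (K p) (fun n => F n * kk ρ p n) n * ((p : ℝ) - 1) := by
    funext n
    unfold DD
    ring
  rw [e1, h.smul]
  have e2 := h.av p hp hpq (fun n => F n * kk ρ p n)
  rw [h.mul F (kk ρ p) (kk_perM hD ρ hq hp hpq.symm)] at e2
  funext n
  have e3 := congrFun e2 n
  unfold DD
  rw [mul_comm, ← e3]

theorem Loc.cQ (hD : Dat N M K P) (ρ : ℕ → ℕ) {q p : ℕ} (hq : q ∈ P) (hp : p ∈ P) (hpq : p ≠ q)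
    {X : (ℕ → ℝ) → (ℕ → ℝ)} (h : Loc M K P q X) (F : ℕ → ℝ) : X (QQ M K ρ p F) = QQ M K ρ p (X F) := by
  have e1 : QQ M K ρ p F = fun n => (fun n => F n - EE M K p F n) n - (fun n => DD M K ρ p F n * kk ρ p n) n := rfl
  rw [e1, h.sub, h.sub, h.mul (DD M K ρ p F) (kk ρ p) (kk_perM hD ρ hq hp hpq.symm), h.cE hp hpq,
    h.cD hD ρ hq hp hpq]
  rfl

/-- orthogonality after a local operator -/
theorem parX (hD : Dat N M K P) (ρ : ℕ → ℕ) {q p : ℕ} (hq : q ∈ P) (hp : p ∈ P) (hpq : p ≠ q)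
    {X : (ℕ → ℝ) → (ℕ → ℝ)} (h : Loc M K P q X) {F U : ℕ → ℝ}
    (hF : Function.Periodic F N) (hU : Function.Periodic U (M p)) :
    ∑ n ∈ range N, U n * X F n ^ 2 = ∑ n ∈ range N, U n * X (EE M K p F) n ^ 2 +
      ∑ n ∈ range N, U n * X (QQ M K ρ p F) n ^ 2 + 1 / ((p : ℝ) - 1) * ∑ n ∈ range N, U n * X (DD M K ρ p F) n ^ 2 := by
  rw [h.cE hp hpq, h.cD hD ρ hq hp hpq, h.cQ hD ρ hq hp hpq]
  exact par hD ρ hp (h.per F N (pN hD hq) hF) hU

/-- the components -/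
noncomputable def bb (M K ρ : ℕ → ℕ) : List ℕ → (ℕ → ℝ) → Finset ℕ → Finset ℕ → (ℕ → ℝ)
  | [], F, S, T => if S = ∅ ∧ T = ∅ then F else fun _ => 0
  | p :: l, F, S, T => if p ∈ T then bb M K ρ l (DD M K ρ p F) S (T.erase p)
      else if p ∈ S then bb M K ρ l (QQ M K ρ p F) (S.erase p) T
      else bb M K ρ l (EE M K p F) S T

theorem bb_notin (ρ : ℕ → ℕ) {p : ℕ} (l : List ℕ) : ∀ (F : ℕ → ℝ) (S T : Finset ℕ), p ∉ l → (p ∈ S ∨ p ∈ T) →
    bb M K ρ l F S T = fun _ => 0 := by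
  induction l with
  | nil =>
    intro F S T _ h
    unfold bb
    rw [if_neg]
    rintro ⟨rfl, rfl⟩
    rcases h with h | h <;> exact absurd h (notMem_empty p)
  | cons q l ih =>
    intro F S T hp h
    rw [List.mem_cons, not_or] at hp
    unfold bb
    split_ifs with h1 h2
    · refine ih _ _ _ hp.2 (h.imp id fun h3 => mem_erase.2 ⟨hp.1, h3⟩)
    · refine ih _ _ _ hp.2 (h.imp (fun h3 => mem_erase.2 ⟨hp.1, h3⟩) id)
    · exact ih _ _ _ hp.2 h

theorem bb_E (ρ : ℕ → ℕ) {p : ℕ} {l : List ℕ} (F : ℕ → ℝ) {S T : Finset ℕ} (hS : p ∉ S) (hT : p ∉ T) :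
    bb M K ρ (p :: l) F S T = bb M K ρ l (EE M K p F) S T := by
  rw [bb, if_neg hT, if_neg hS]

theorem bb_D (ρ : ℕ → ℕ) {p : ℕ} {l : List ℕ} (F : ℕ → ℝ) {S T : Finset ℕ} (hT : p ∉ T) :
    bb M K ρ (p :: l) F S (insert p T) = bb M K ρ l (DD M K ρ p F) S T := by
  rw [bb, if_pos (mem_insert_self p T), erase_insert hT]

theorem bb_Q (ρ : ℕ → ℕ) {p : ℕ} {l : List ℕ} (F : ℕ → ℝ) {S T : Finset ℕ} (hS : p ∉ S) (hT : p ∉ T) :
    bb M K ρ (p :: l) F (insert p S) T = bb M K ρ l (QQ M K ρ p F) S T := by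
  rw [bb, if_neg hT, if_pos (mem_insert_self p S), erase_insert hS]

theorem bb_QD (ρ : ℕ → ℕ) {p : ℕ} {l : List ℕ} (hl : p ∉ l) (F : ℕ → ℝ) {S T : Finset ℕ} (hT : p ∉ T) :
    bb M K ρ (p :: l) F (insert p S) (insert p T) = fun _ => 0 := by
  rw [bb_D ρ F hT]
  exact bb_notin ρ l _ _ _ hl (Or.inl (mem_insert_self p S))

theorem bb_add (hD : Dat N M K P) (ρ : ℕ → ℕ) (l : List ℕ) : (∀ p ∈ l, p ∈ P) → ∀ (F G : ℕ → ℝ) (S T : Finset ℕ),
    bb M K ρ l (fun n => F n + G n) S T = fun n => bb M K ρ l F S T n + bb M K ρ l G S T n := by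
  induction l with
  | nil =>
    intro _ F G S T
    unfold bb
    split_ifs
    · rfl
    · funext n; ring
  | cons p l ih =>
    intro hl F G S T
    have hl' : ∀ q ∈ l, q ∈ P := fun q hq => hl q (List.mem_cons_of_mem _ hq)
    have hp : p ∈ P := hl p List.mem_cons_self
    unfold bb
    split_ifs with h1 h2
    · rw [(DD_loc hD ρ hp).add, ih hl']
    · rw [(QQ_loc hD ρ hp).add, ih hl']
    · rw [(EE_loc M K P p).add, ih hl']

theorem bb_smul (hD : Dat N M K P) (ρ : ℕ → ℕ) (l : List ℕ) : (∀ p ∈ l, p ∈ P) → ∀ (F : ℕ → ℝ) (c : ℝ) (S T : Finset ℕ),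
    bb M K ρ l (fun n => F n * c) S T = fun n => bb M K ρ l F S T n * c := by
  induction l with
  | nil =>
    intro _ F c S T
    unfold bb
    split_ifs
    · rfl
    · funext n; ring
  | cons p l ih =>
    intro hl F c S T
    have hl' : ∀ q ∈ l, q ∈ P := fun q hq => hl q (List.mem_cons_of_mem _ hq)
    have hp : p ∈ P := hl p List.mem_cons_self
    unfold bb
    split_ifs with h1 h2
    · rw [(DD_loc hD ρ hp).smul, ih hl']
    · rw [(QQ_loc hD ρ hp).smul, ih hl']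
    · rw [(EE_loc M K P p).smul, ih hl']

theorem bb_zero (hD : Dat N M K P) (ρ : ℕ → ℕ) (l : List ℕ) (hl : ∀ p ∈ l, p ∈ P) (S T : Finset ℕ) :
    bb M K ρ l (fun _ => 0) S T = fun _ => 0 := by
  have h1 := bb_smul hD ρ l hl (fun _ => 0) 0 S T
  simp only [mul_zero] at h1
  exact h1

theorem bb_sum (hD : Dat N M K P) (ρ : ℕ → ℕ) (l : List ℕ) (hl : ∀ p ∈ l, p ∈ P) {ι : Type} (s : Finset ι)
    (f : ι → ℕ → ℝ) (S T : Finset ℕ) :
    bb M K ρ l (fun n => ∑ i ∈ s, f i n) S T = fun n => ∑ i ∈ s, bb M K ρ l (f i) S T n := by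
  classical
  induction s using Finset.induction_on with
  | empty =>
    simp only [sum_empty]
    exact bb_zero hD ρ l hl S T
  | insert i s hi ih =>
    simp only [sum_insert hi]
    rw [bb_add hD ρ l hl (f i) (fun n => ∑ j ∈ s, f j n), ih]

theorem DD_zero (hD : Dat N M K P) (ρ : ℕ → ℕ) {p : ℕ} (hp : p ∈ P) {F : ℕ → ℝ} (hF : Function.Periodic F (M p)) :
    DD M K ρ p F = fun _ => 0 := by
  funext n
  unfold DD
  have e : (fun n => F n * kk ρ p n) = fun n => kk ρ p n * F n := by funext n; ring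
  rw [e, Av_mul hF, Av_kk hD ρ hp]
  ring

theorem QQ_zero (hD : Dat N M K P) (ρ : ℕ → ℕ) {p : ℕ} (hp : p ∈ P) {F : ℕ → ℝ} (hF : Function.Periodic F (M p)) :
    QQ M K ρ p F = fun _ => 0 := by
  funext n
  unfold QQ EE
  rw [DD_zero hD ρ hp hF, Av_of_per (hD.Kpos hp) hF]
  ring

theorem bb_per (hD : Dat N M K P) (ρ : ℕ → ℕ) {p : ℕ} (hp : p ∈ P) (l : List ℕ) : (∀ q ∈ l, q ∈ P) →
    ∀ (F : ℕ → ℝ) (S T : Finset ℕ), Function.Periodic F (M p) → (p ∈ S ∨ p ∈ T) →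
    bb M K ρ l F S T = fun _ => 0 := by
  induction l with
  | nil =>
    intro _ F S T _ h
    unfold bb
    rw [if_neg]
    rintro ⟨rfl, rfl⟩
    rcases h with h | h <;> exact absurd h (notMem_empty p)
  | cons q l ih =>
    intro hl F S T hF h
    have hl' : ∀ r ∈ l, r ∈ P := fun r hr => hl r (List.mem_cons_of_mem _ hr)
    have hq : q ∈ P := hl q List.mem_cons_self
    by_cases hpq : q = p
    · subst hpq
      unfold bb
      split_ifs with h1 h2
      · rw [DD_zero hD ρ hq hF]; exact bb_zero hD ρ l hl' _ _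
      · rw [QQ_zero hD ρ hq hF]; exact bb_zero hD ρ l hl' _ _
      · rcases h with h | h
        · exact absurd h h2
        · exact absurd h h1
    · have hqM : q ∣ M p := hD.dvd p hp q hq hpq
      unfold bb
      split_ifs with h1 h2
      · refine ih hl' _ _ _ ((DD_loc hD ρ hq).per F _ hqM hF) (h.imp id fun h3 => mem_erase.2 ⟨Ne.symm hpq, h3⟩)
      · refine ih hl' _ _ _ ((QQ_loc hD ρ hq).per F _ hqM hF) (h.imp (fun h3 => mem_erase.2 ⟨Ne.symm hpq, h3⟩) id)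
      · exact ih hl' _ _ _ ((EE_loc M K P q).per F _ hqM hF) h

theorem bb_disj (ρ : ℕ → ℕ) {p : ℕ} (l : List ℕ) : l.Nodup →
    ∀ (F : ℕ → ℝ) (S T : Finset ℕ), p ∈ S → p ∈ T → bb M K ρ l F S T = fun _ => 0 := by
  induction l with
  | nil =>
    intro _ F S T h _
    unfold bb
    rw [if_neg]
    rintro ⟨rfl, rfl⟩
    exact absurd h (notMem_empty p)
  | cons q l ih =>
    intro hl F S T hS hT
    rw [List.nodup_cons] at hl
    by_cases hpq : q = p
    · subst hpq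
      unfold bb
      rw [if_pos hT]
      exact bb_notin ρ l _ _ _ hl.1 (Or.inl hS)
    · unfold bb
      split_ifs with h1 h2
      · exact ih hl.2 _ _ _ hS (mem_erase.2 ⟨Ne.symm hpq, hT⟩)
      · exact ih hl.2 _ _ _ (mem_erase.2 ⟨Ne.symm hpq, hS⟩) hT
      · exact ih hl.2 _ _ _ hS hT

/-- the logarithm of the product -/
noncomputable def lg (S : Finset ℕ) : ℝ := ∑ p ∈ S, Real.log p

theorem lg_nonneg (S : Finset ℕ) : 0 ≤ lg S := sum_nonneg fun p _ => Real.log_natCast_nonneg p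

theorem lg_mono {S T : Finset ℕ} (h : S ⊆ T) : lg S ≤ lg T :=
  sum_le_sum_of_subset_of_nonneg h fun p _ _ => Real.log_natCast_nonneg p

/-- the components beyond the level vanish -/
theorem bb_level (hD : Dat N M K P) (ρ : ℕ → ℕ) {l : List ℕ} (hnd : l.Nodup) (hl : ∀ q ∈ l, q ∈ P)
    {ι : Type} (s : Finset ι) (f : ι → ℕ → ℝ) (A : ι → Finset ℕ) {Λ : ℝ}
    (hf : ∀ i ∈ s, (∀ p ∈ P, p ∉ A i → Function.Periodic (f i) (M p)) ∧ lg (P.filter (fun p => p ∈ A i)) ≤ Λ)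
    {S T : Finset ℕ} (hS : S ⊆ P) (hT : T ⊆ P) (h : Λ < lg S + lg T) :
    bb M K ρ l (fun n => ∑ i ∈ s, f i n) S T = fun _ => 0 := by
  by_cases hdj : Disjoint S T
  · rw [bb_sum hD ρ l hl]
    funext n
    refine sum_eq_zero fun i hi => ?_
    obtain ⟨h1, h2⟩ := hf i hi
    have h3 : ¬ (S ∪ T ⊆ P.filter (fun p => p ∈ A i)) := by
      intro h4
      have h5 := lg_mono h4
      have h6 : lg (S ∪ T) = lg S + lg T := sum_union hdj
      linarith
    rw [not_subset] at h3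
    obtain ⟨p, hp, hpA⟩ := h3
    rw [mem_union] at hp
    have hpP : p ∈ P := by
      rcases hp with hp | hp
      · exact hS hp
      · exact hT hp
    have h7 : p ∉ A i := fun h8 => hpA (mem_filter.2 ⟨hpP, h8⟩)
    rw [bb_per hD ρ hpP l hl (f i) S T (h1 p hpP h7) hp]
  · rw [not_disjoint_iff] at hdj
    obtain ⟨p, h1, h2⟩ := hdj
    exact bb_disj ρ l hnd _ _ _ h1 h2

end one

end Pool.Agent.N422.MT
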