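import Pool.Agent.N422.MT2

/-! The energy identity, and the sieve inequality at one site. Author: helper422. -/

set_option autoImplicit false

namespace Pool.Agent.N422.MT

open Finset Pool.Agent.Y835.SB

/-- `φ` of the product -/
noncomputable def phi (T : Finset ℕ) : ℝ := ∏ p ∈ T, ((p : ℝ) - 1)

theorem phi_pos {T : Finset ℕ} (h : ∀ p ∈ T, (2 : ℝ) ≤ p) : 0 < phi T :=
  prod_pos fun p hp => by linarith [h p hp]

section one

variable {N : ℕ} {M K : ℕ → ℕ} {P : Finset ℕ}

theorem sum2_insert {p : ℕ} {A : Finset ℕ} (hp : p ∉ A) (f : Finset ℕ → Finset ℕ → ℝ) :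
    ∑ S ∈ (insert p A).powerset, ∑ T ∈ (insert p A).powerset, f S T =
      ∑ S ∈ A.powerset, ∑ T ∈ A.powerset,
        (f S T + f S (insert p T) + (f (insert p S) T + f (insert p S) (insert p T))) := by
  rw [sum_powerset_insert hp, ← sum_add_distrib]
  refine sum_congr rfl fun S _ => ?_
  rw [sum_powerset_insert hp, sum_powerset_insert hp, ← sum_add_distrib, ← sum_add_distrib, ← sum_add_distrib]

/-- the energy of the component -/
noncomputable def en (N : ℕ) (M K ρ : ℕ → ℕ) (U : ℕ → ℝ) (l : List ℕ) (F : ℕ → ℝ) (S T : Finset ℕ) : ℝ :=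
  1 / phi T * ∑ n ∈ range N, U n * bb M K ρ l F S T n ^ 2

/-- the identity -/
theorem ident (hD : Dat N M K P) (ρ : ℕ → ℕ) {U : ℕ → ℝ} (al be : ℝ) (l : List ℕ) : l.Nodup →
    (∀ p ∈ l, p ∈ P ∧ Function.Periodic U (M p)) → ∀ (F : ℕ → ℝ), Function.Periodic F N → ∀ la : ℝ,
    ∑ S ∈ l.toFinset.powerset, ∑ T ∈ l.toFinset.powerset,
      (la + al * lg S + be * lg T) * en N M K ρ U l F S T =
    la * ∑ n ∈ range N, U n * F n ^ 2 + ∑ q ∈ l.toFinset, Real.log q *
      (al * ∑ n ∈ range N, U n * QQ M K ρ q F n ^ 2 + be * (1 / ((q : ℝ) - 1) *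
        ∑ n ∈ range N, U n * DD M K ρ q F n ^ 2)) := by
  induction l with
  | nil =>
    intro _ _ F _ la
    simp [en, bb, phi, lg]
  | cons p l ih =>
    intro hnd hl F hF la
    have hpl : p ∉ l := (List.nodup_cons.1 hnd).1
    have hnd' := (List.nodup_cons.1 hnd).2
    have hl' : ∀ q ∈ l, q ∈ P ∧ Function.Periodic U (M q) := fun q hq => hl q (List.mem_cons_of_mem _ hq)
    obtain ⟨hp, hU⟩ := hl p List.mem_cons_self
    have hpA : p ∉ l.toFinset := fun h => hpl (List.mem_toFinset.1 h)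
    have hpN := pN hD hp
    have hp1 : (0 : ℝ) < (p : ℝ) - 1 := by linarith [two hD hp]
    rw [List.toFinset_cons, sum2_insert hpA]
    have i1 := ih hnd' hl' (EE M K p F) ((EE_loc M K P p).per F N hpN hF) la
    have i2 := ih hnd' hl' (DD M K ρ p F) ((DD_loc hD ρ hp).per F N hpN hF) (la + be * Real.log p)
    have i3 := ih hnd' hl' (QQ M K ρ p F) ((QQ_loc hD ρ hp).per F N hpN hF) (la + al * Real.log p)
    have hsum : ∑ S ∈ l.toFinset.powerset, ∑ T ∈ l.toFinset.powerset,
        ((la + al * lg S + be * lg T) * en N M K ρ U (p :: l) F S T +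
          (la + al * lg S + be * lg (insert p T)) * en N M K ρ U (p :: l) F S (insert p T) +
          ((la + al * lg (insert p S) + be * lg T) * en N M K ρ U (p :: l) F (insert p S) T +
          (la + al * lg (insert p S) + be * lg (insert p T)) * en N M K ρ U (p :: l) F (insert p S) (insert p T))) =
        ∑ S ∈ l.toFinset.powerset, ∑ T ∈ l.toFinset.powerset, (la + al * lg S + be * lg T) *
          en N M K ρ U l (EE M K p F) S T +
        1 / ((p : ℝ) - 1) * ∑ S ∈ l.toFinset.powerset, ∑ T ∈ l.toFinset.powerset,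
          (la + be * Real.log p + al * lg S + be * lg T) * en N M K ρ U l (DD M K ρ p F) S T +
        ∑ S ∈ l.toFinset.powerset, ∑ T ∈ l.toFinset.powerset,
          (la + al * Real.log p + al * lg S + be * lg T) * en N M K ρ U l (QQ M K ρ p F) S T := by
      rw [mul_sum, ← sum_add_distrib, ← sum_add_distrib]
      refine sum_congr rfl fun S hS => ?_
      rw [mul_sum, ← sum_add_distrib, ← sum_add_distrib]
      refine sum_congr rfl fun T hT => ?_
      have hpS : p ∉ S := fun h => hpA (mem_powerset.1 hS h)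
      have hpT : p ∉ T := fun h => hpA (mem_powerset.1 hT h)
      have g1 : lg (insert p S) = Real.log p + lg S := sum_insert hpS
      have g2 : lg (insert p T) = Real.log p + lg T := sum_insert hpT
      have g3 : phi (insert p T) = ((p : ℝ) - 1) * phi T := prod_insert hpT
      unfold en
      rw [bb_E ρ F hpS hpT, bb_D ρ F hpT, bb_Q ρ F hpS hpT, bb_QD ρ hpl F hpT, g1, g2, g3]
      simp only [ne_eq, OfNat.ofNat_ne_zero, not_false_eq_true, zero_pow, mul_zero, sum_const_zero, add_zero]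
      rw [← one_div_mul_one_div]
      ring
    rw [hsum, i1, i2, i3, sum_insert hpA]
    have h0 := par hD ρ hp hF hU
    have hq : ∀ q ∈ l.toFinset, q ∈ P ∧ p ≠ q := fun q hq =>
      ⟨(hl' q (List.mem_toFinset.1 hq)).1, fun h => hpA (h ▸ hq)⟩
    have hrest : ∑ q ∈ l.toFinset, Real.log q *
      (al * ∑ n ∈ range N, U n * QQ M K ρ q F n ^ 2 + be * (1 / ((q : ℝ) - 1) *
        ∑ n ∈ range N, U n * DD M K ρ q F n ^ 2)) =
      ∑ q ∈ l.toFinset, Real.log q *
        (al * ∑ n ∈ range N, U n * QQ M K ρ q (EE M K p F) n ^ 2 + be * (1 / ((q : ℝ) - 1) *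
          ∑ n ∈ range N, U n * DD M K ρ q (EE M K p F) n ^ 2)) +
      1 / ((p : ℝ) - 1) * ∑ q ∈ l.toFinset, Real.log q *
        (al * ∑ n ∈ range N, U n * QQ M K ρ q (DD M K ρ p F) n ^ 2 + be * (1 / ((q : ℝ) - 1) *
          ∑ n ∈ range N, U n * DD M K ρ q (DD M K ρ p F) n ^ 2)) +
      ∑ q ∈ l.toFinset, Real.log q *
        (al * ∑ n ∈ range N, U n * QQ M K ρ q (QQ M K ρ p F) n ^ 2 + be * (1 / ((q : ℝ) - 1) *
          ∑ n ∈ range N, U n * DD M K ρ q (QQ M K ρ p F) n ^ 2)) := by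
      rw [mul_sum, ← sum_add_distrib, ← sum_add_distrib]
      refine sum_congr rfl fun q hq' => ?_
      obtain ⟨hqP, hpq⟩ := hq q hq'
      rw [parX hD ρ hqP hp hpq (QQ_loc hD ρ hqP) hF hU, parX hD ρ hqP hp hpq (DD_loc hD ρ hqP) hF hU]
      ring
    rw [hrest, h0]
    ring

/-- the coefficient of the value on the unhit points -/
noncomputable def cf (T : Finset ℕ) : ℝ := ∏ p ∈ T, (-(1 / ((p : ℝ) - 1)))

/-- the component of the value on the unhit points -/
noncomputable def zz (M K ρ : ℕ → ℕ) (l : List ℕ) (F : ℕ → ℝ) (S : Finset ℕ) (n : ℕ) : ℝ :=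
  ∑ T ∈ l.toFinset.powerset, cf T * bb M K ρ l F S T n

theorem zz_E (hD : Dat N M K P) (ρ : ℕ → ℕ) {p : ℕ} {l : List ℕ} (hpl : p ∉ l) (hl : ∀ q ∈ l, q ∈ P) (F : ℕ → ℝ)
    {S : Finset ℕ} (hS : p ∉ S) (n : ℕ) : zz M K ρ (p :: l) F S n =
      zz M K ρ l (fun n => EE M K p F n - 1 / ((p : ℝ) - 1) * DD M K ρ p F n) S n := by
  have hpA : p ∉ l.toFinset := fun h => hpl (List.mem_toFinset.1 h)
  unfold zz
  rw [List.toFinset_cons, sum_powerset_insert hpA, ← sum_add_distrib]
  refine sum_congr rfl fun T hT => ?_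
  have hpT : p ∉ T := fun h => hpA (mem_powerset.1 hT h)
  have e1 : (fun n => EE M K p F n - 1 / ((p : ℝ) - 1) * DD M K ρ p F n) =
      fun n => EE M K p F n + (fun n => DD M K ρ p F n * (-(1 / ((p : ℝ) - 1)))) n := by
    funext n
    ring
  have g : cf (insert p T) = -(1 / ((p : ℝ) - 1)) * cf T := prod_insert hpT
  rw [bb_E ρ F hS hpT, bb_D ρ F hpT, e1, bb_add hD ρ l hl, bb_smul hD ρ l hl, g]
  ring

theorem zz_Q (ρ : ℕ → ℕ) {p : ℕ} {l : List ℕ} (hpl : p ∉ l) (F : ℕ → ℝ)
    {S : Finset ℕ} (hS : p ∉ S) (n : ℕ) : zz M K ρ (p :: l) F (insert p S) n = zz M K ρ l (QQ M K ρ p F) S n := by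
  have hpA : p ∉ l.toFinset := fun h => hpl (List.mem_toFinset.1 h)
  unfold zz
  rw [List.toFinset_cons, sum_powerset_insert hpA, ← sum_add_distrib]
  refine sum_congr rfl fun T hT => ?_
  have hpT : p ∉ T := fun h => hpA (mem_powerset.1 hT h)
  rw [bb_Q ρ F hS hpT, bb_QD ρ hpl F hpT]
  ring

theorem fac_nn {p : ℕ} (h : (2 : ℝ) ≤ p) : 0 ≤ 1 - 1 / (p : ℝ) := by
  rw [sub_nonneg, div_le_one (by linarith)]; linarith

/-- the sieve inequality -/
theorem sieve (hD : Dat N M K P) (ρ : ℕ → ℕ) {U : ℕ → ℝ} (hU0 : ∀ n, 0 ≤ U n) (l : List ℕ) : l.Nodup →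
    (∀ p ∈ l, p ∈ P ∧ Function.Periodic U (M p)) → ∀ (F : ℕ → ℝ), Function.Periodic F N →
    ∑ n ∈ range N, U n * (if ∀ p ∈ l, ¬ p ∣ n + ρ p then F n ^ 2 else 0) ≤
      ∑ S ∈ l.toFinset.powerset, (∏ p ∈ l.toFinset \ S, (1 - 1 / (p : ℝ))) *
        ∑ n ∈ range N, U n * zz M K ρ l F S n ^ 2 := by
  classical
  induction l with
  | nil =>
    intro _ _ F _
    simp [zz, bb, cf]
  | cons p l ih =>
    intro hnd hl F hF
    have hpl : p ∉ l := (List.nodup_cons.1 hnd).1
    have hnd' := (List.nodup_cons.1 hnd).2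
    have hl' : ∀ q ∈ l, q ∈ P ∧ Function.Periodic U (M q) := fun q hq => hl q (List.mem_cons_of_mem _ hq)
    obtain ⟨hp, hU⟩ := hl p List.mem_cons_self
    have hpA : p ∉ l.toFinset := fun h => hpl (List.mem_toFinset.1 h)
    have hpN := pN hD hp
    have hEp := (EE_loc M K P p).per F N hpN hF
    have hDp := (DD_loc hD ρ hp).per F N hpN hF
    have hQp := (QQ_loc hD ρ hp).per F N hpN hF
    have hp2 := two hD hp
    -- the weight with the other primes
    obtain ⟨V, hV⟩ : ∃ V : ℕ → ℝ, V = fun n => if ∀ q ∈ l, ¬ q ∣ n + ρ q then U n else 0 := ⟨_, rfl⟩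
    have hVper : Function.Periodic V (M p) := by
      intro n
      rw [hV]
      have h1 : (∀ q ∈ l, ¬ q ∣ n + M p + ρ q) ↔ (∀ q ∈ l, ¬ q ∣ n + ρ q) := by
        refine forall₂_congr fun q hq => not_congr ?_
        exact dvd_shift (hD.dvd p hp q (hl' q hq).1 (fun h => hpl (h ▸ hq)))
      show (if ∀ q ∈ l, ¬ q ∣ n + M p + ρ q then U (n + M p) else 0) = if ∀ q ∈ l, ¬ q ∣ n + ρ q then U n else 0
      rw [hU n]
      exact if_congr h1 rfl rfl
    have hV0 : ∀ n, 0 ≤ V n := by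
      intro n
      rw [hV]
      show 0 ≤ if ∀ q ∈ l, ¬ q ∣ n + ρ q then U n else 0
      split_ifs
      · exact hU0 n
      · exact le_rfl
    have hstep := stepU hD ρ hp hF hVper hV0
    have hVf : ∀ G : ℕ → ℝ, ∑ n ∈ range N, V n * G n ^ 2 =
        ∑ n ∈ range N, U n * (if ∀ q ∈ l, ¬ q ∣ n + ρ q then G n ^ 2 else 0) := by
      intro G
      refine sum_congr rfl fun n _ => ?_
      rw [hV]
      show (if ∀ q ∈ l, ¬ q ∣ n + ρ q then U n else 0) * G n ^ 2 = _
      split_ifs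
      · rfl
      · ring
    have hleft : ∑ n ∈ range N, U n * (if ∀ q ∈ p :: l, ¬ q ∣ n + ρ q then F n ^ 2 else 0) =
        ∑ n ∈ range N, V n * (if p ∣ n + ρ p then 0 else F n ^ 2) := by
      refine sum_congr rfl fun n _ => ?_
      rw [hV]
      show _ = (if ∀ q ∈ l, ¬ q ∣ n + ρ q then U n else 0) * (if p ∣ n + ρ p then 0 else F n ^ 2)
      by_cases h1 : p ∣ n + ρ p
      · rw [if_pos h1, if_neg (fun h => h p List.mem_cons_self h1), mul_zero, mul_zero]
      · rw [if_neg h1]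
        by_cases h2 : ∀ q ∈ l, ¬ q ∣ n + ρ q
        · rw [if_pos h2, if_pos]
          intro q hq
          rcases List.mem_cons.1 hq with h3 | h3
          · rw [h3]; exact h1
          · exact h2 q h3
        · rw [if_neg h2, if_neg (fun h => h2 fun q hq => h q (List.mem_cons_of_mem _ hq))]
          ring
    rw [hleft]
    refine hstep.trans ?_
    rw [hVf (fun n => EE M K p F n - 1 / ((p : ℝ) - 1) * DD M K ρ p F n), hVf (QQ M K ρ p F)]
    have i1 := ih hnd' hl' (fun n => EE M K p F n - 1 / ((p : ℝ) - 1) * DD M K ρ p F n)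
      (fun n => by simp only [hEp n, hDp n])
    have i2 := ih hnd' hl' (QQ M K ρ p F) hQp
    have i3 := mul_le_mul_of_nonneg_left i1 (fac_nn hp2)
    refine (add_le_add i3 i2).trans (le_of_eq ?_)
    rw [List.toFinset_cons, sum_powerset_insert hpA, mul_sum]
    congr 1
    · refine sum_congr rfl fun S hS => ?_
      have hpS : p ∉ S := fun h => hpA (mem_powerset.1 hS h)
      rw [insert_sdiff_of_notMem _ hpS, prod_insert (fun h => hpA (mem_sdiff.1 h).1)]
      simp only [zz_E hD ρ hpl (fun q hq => (hl' q hq).1) F hpS]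
      ring
    · refine sum_congr rfl fun S hS => ?_
      have hpS : p ∉ S := fun h => hpA (mem_powerset.1 hS h)
      have e : insert p l.toFinset \ insert p S = l.toFinset \ S := by
        ext q
        simp only [mem_sdiff, mem_insert, not_or]
        constructor
        · rintro ⟨h1, h2, h3⟩
          exact ⟨h1.resolve_left h2, h3⟩
        · rintro ⟨h1, h3⟩
          exact ⟨Or.inr h1, fun h => hpA (h ▸ h1), h3⟩
      rw [e]
      simp only [zz_Q ρ hpl F hpS]

end one

end Pool.Agent.N422.MT
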