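import Pool.Agent.N422.MT3

/-! The inequality at one site, and the sum over the sites. Author: helper422. -/

set_option autoImplicit false

namespace Pool.Agent.N422.MT

open Finset Pool.Agent.Y835.SB

section one

variable {N : ℕ} {M K : ℕ → ℕ} {P : Finset ℕ}

theorem en_nonneg (hD : Dat N M K P) (ρ : ℕ → ℕ) {U : ℕ → ℝ} (hU0 : ∀ n, 0 ≤ U n) (l : List ℕ) (F : ℕ → ℝ)
    (S : Finset ℕ) {T : Finset ℕ} (hT : T ⊆ P) : 0 ≤ en N M K ρ U l F S T := by
  unfold en
  have h1 : 0 < phi T := phi_pos fun p hp => two hD (hT hp)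
  refine mul_nonneg (by positivity) (sum_nonneg fun n _ => mul_nonneg (hU0 n) (sq_nonneg _))

/-- the two energies -/
theorem split (hD : Dat N M K P) (ρ : ℕ → ℕ) {p : ℕ} (hp : p ∈ P) {F U : ℕ → ℝ}
    (hF : Function.Periodic F N) (hU : Function.Periodic U (M p)) :
    ∑ n ∈ range N, U n * (F n - EE M K p F n) ^ 2 = ∑ n ∈ range N, U n * QQ M K ρ p F n ^ 2 +
      1 / ((p : ℝ) - 1) * ∑ n ∈ range N, U n * DD M K ρ p F n ^ 2 := by
  have h1 := par hD ρ hp hF hU
  have h2 := par0 hD hp hF hU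
  linarith

/-- the level inequality with a weight -/
theorem levU (hD : Dat N M K P) {U : ℕ → ℝ} (hU0 : ∀ n, 0 ≤ U n) (hU : ∀ p ∈ P, Function.Periodic U (M p))
    {ι : Type} (s : Finset ι) (f : ι → ℕ → ℝ) (A : ι → Finset ℕ) {Λ : ℝ}
    (hf : ∀ i ∈ s, (∀ p ∈ P, p ∉ A i → Function.Periodic (f i) (M p)) ∧ lg (P.filter (fun p => p ∈ A i)) ≤ Λ)
    {F : ℕ → ℝ} (hF : F = fun n => ∑ i ∈ s, f i n) (hFN : Function.Periodic F N) :
    ∑ q ∈ P, Real.log q * ∑ n ∈ range N, U n * (F n - EE M K q F n) ^ 2 ≤ Λ * ∑ n ∈ range N, U n * F n ^ 2 := by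
  have h1 := ident hD (fun _ => 0) (U := U) (-1) (-1) P.toList P.nodup_toList
    (fun p hp => ⟨mem_toList.1 hp, hU p (mem_toList.1 hp)⟩) F hFN Λ
  rw [toList_toFinset] at h1
  have h2 : 0 ≤ ∑ S ∈ P.powerset, ∑ T ∈ P.powerset,
      (Λ + -1 * lg S + -1 * lg T) * en N M K (fun _ => 0) U P.toList F S T := by
    refine sum_nonneg fun S hS => sum_nonneg fun T hT => ?_
    rw [mem_powerset] at hS hT
    rcases le_or_gt (lg S + lg T) Λ with h3 | h3
    · exact mul_nonneg (by linarith) (en_nonneg hD _ hU0 _ _ _ hT)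
    · have h4 := bb_level hD (fun _ => 0) P.nodup_toList (fun q hq => mem_toList.1 hq) s f A hf hS hT h3
      rw [← hF] at h4
      unfold en
      simp [h4]
  rw [h1] at h2
  have h3 : ∑ q ∈ P, Real.log q * (-1 * ∑ n ∈ range N, U n * QQ M K (fun _ => 0) q F n ^ 2 +
      -1 * (1 / ((q : ℝ) - 1) * ∑ n ∈ range N, U n * DD M K (fun _ => 0) q F n ^ 2)) =
      -∑ q ∈ P, Real.log q * ∑ n ∈ range N, U n * (F n - EE M K q F n) ^ 2 := by
    rw [← sum_neg_distrib]
    refine sum_congr rfl fun q hq => ?_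
    rw [split hD (fun _ => 0) hq hFN (hU q hq)]
    ring
  rw [h3] at h2
  linarith

/-- **one site** -/
theorem site1 (hD : Dat N M K P) (ρ : ℕ → ℕ) {U : ℕ → ℝ} (hU0 : ∀ n, 0 ≤ U n)
    (hU : ∀ p ∈ P, Function.Periodic U (M p))
    {ι : Type} (s : Finset ι) (f : ι → ℕ → ℝ) (A : ι → Finset ℕ) {Λ : ℝ}
    (hf : ∀ i ∈ s, (∀ p ∈ P, p ∉ A i → Function.Periodic (f i) (M p)) ∧ lg (P.filter (fun p => p ∈ A i)) ≤ Λ)
    {F : ℕ → ℝ} (hF : F = fun n => ∑ i ∈ s, f i n) (hFN : Function.Periodic F N)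
    {la k Cm : ℝ} (hla : Λ < la) (hk : 1 ≤ k)
    (hG : ∀ S ⊆ P, lg S ≤ Λ → ∑ T ∈ P.powerset.filter (fun T => lg S + lg T ≤ Λ),
      1 / (phi T * (la - lg S + (k - 1) * lg T)) ≤ Cm * ∏ p ∈ S, (1 - 1 / (p : ℝ))) :
    ∑ n ∈ range N, U n * (if ∀ p ∈ P, ¬ p ∣ n + ρ p then F n ^ 2 else 0) ≤
      (∏ p ∈ P, (1 - 1 / (p : ℝ))) * Cm * (la * ∑ n ∈ range N, U n * F n ^ 2 -
        ∑ q ∈ P, Real.log q * ∑ n ∈ range N, U n * (F n - EE M K q F n) ^ 2 +
        k * ∑ q ∈ P, Real.log q * (1 / ((q : ℝ) - 1) * ∑ n ∈ range N, U n * DD M K ρ q F n ^ 2)) := by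
  classical
  have h1 := sieve hD ρ hU0 P.toList P.nodup_toList
    (fun p hp => ⟨mem_toList.1 hp, hU p (mem_toList.1 hp)⟩) F hFN
  have h2 := ident hD ρ (U := U) (-1) (k - 1) P.toList P.nodup_toList
    (fun p hp => ⟨mem_toList.1 hp, hU p (mem_toList.1 hp)⟩) F hFN la
  rw [toList_toFinset] at h1 h2
  simp only [mem_toList] at h1
  have hbb : ∀ S ⊆ P, ∀ T ⊆ P, Λ < lg S + lg T → bb M K ρ P.toList F S T = fun _ => 0 := by
    intro S hS T hT h3
    rw [hF]
    exact bb_level hD ρ P.nodup_toList (fun q hq => mem_toList.1 hq) s f A hf hS hT h3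
  have hfac : ∀ S ⊆ P, 0 ≤ ∏ p ∈ S, (1 - 1 / (p : ℝ)) := fun S hS =>
    prod_nonneg fun p hp => fac_nn (two hD (hS hp))
  have hkey : ∀ S ∈ P.powerset, (∏ p ∈ P \ S, (1 - 1 / (p : ℝ))) *
      ∑ n ∈ range N, U n * zz M K ρ P.toList F S n ^ 2 ≤
      (∏ p ∈ P, (1 - 1 / (p : ℝ))) * Cm * ∑ T ∈ P.powerset,
        (la + -1 * lg S + (k - 1) * lg T) * en N M K ρ U P.toList F S T := by
    intro S hS
    rw [mem_powerset] at hS
    rcases le_or_gt (lg S) Λ with hSL | hSL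
    · have hG1 := hG S hS hSL
      obtain ⟨Ts, hTs⟩ : ∃ Ts, Ts = P.powerset.filter (fun T => lg S + lg T ≤ Λ) := ⟨_, rfl⟩
      rw [← hTs] at hG1
      have hTm : ∀ T ∈ Ts, T ⊆ P ∧ lg S + lg T ≤ Λ := by
        intro T hT
        rw [hTs, mem_filter, mem_powerset] at hT
        exact hT
      have hom : ∀ T ∈ Ts, 0 < la - lg S + (k - 1) * lg T := by
        intro T hT
        have h3 : 0 ≤ (k - 1) * lg T := mul_nonneg (by linarith) (lg_nonneg T)
        linarith
      have hph : ∀ T ∈ Ts, 0 < phi T := fun T hT => phi_pos fun p hp => two hD ((hTm T hT).1 hp)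
      obtain ⟨G, hGd⟩ : ∃ G, G = ∑ T ∈ Ts, 1 / (phi T * (la - lg S + (k - 1) * lg T)) := ⟨_, rfl⟩
      rw [← hGd] at hG1
      have hG0 : 0 ≤ G := by
        rw [hGd]
        refine sum_nonneg fun T hT => ?_
        have := hom T hT
        have := hph T hT
        positivity
      -- pointwise
      have hpt : ∀ n, zz M K ρ P.toList F S n ^ 2 ≤ G * ∑ T ∈ Ts,
          (la - lg S + (k - 1) * lg T) * (1 / phi T * bb M K ρ P.toList F S T n ^ 2) := by
        intro n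
        have e1 : zz M K ρ P.toList F S n = ∑ T ∈ Ts, cf T * bb M K ρ P.toList F S T n := by
          unfold zz
          rw [toList_toFinset, hTs, sum_filter]
          refine sum_congr rfl fun T hT => ?_
          split_ifs with h3
          · rfl
          · rw [hbb S hS T (mem_powerset.1 hT) (not_le.1 h3), mul_zero]
        rw [e1, hGd]
        apply sum_sq_le_sum_mul_sum_of_sq_le_mul
        · intro T hT
          have := hom T hT
          have := hph T hT
          positivity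
        · intro T hT
          have := hom T hT
          have := hph T hT
          positivity
        · intro T hT
          have h3 := hom T hT
          have h4 := hph T hT
          have h5 : cf T ^ 2 = (1 / phi T) ^ 2 := by
            unfold cf phi
            rw [← prod_pow, one_div, ← prod_inv_distrib, ← prod_pow]
            refine prod_congr rfl fun p _ => ?_
            rw [neg_sq, one_div]
          rw [mul_pow, h5]
          refine le_of_eq ?_
          field_simp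
      have hsum : ∑ n ∈ range N, U n * zz M K ρ P.toList F S n ^ 2 ≤ G * ∑ T ∈ Ts,
          (la - lg S + (k - 1) * lg T) * en N M K ρ U P.toList F S T := by
        have e2 : G * ∑ T ∈ Ts, (la - lg S + (k - 1) * lg T) * en N M K ρ U P.toList F S T =
            ∑ n ∈ range N, U n * (G * ∑ T ∈ Ts,
              (la - lg S + (k - 1) * lg T) * (1 / phi T * bb M K ρ P.toList F S T n ^ 2)) := by
          unfold en
          simp only [mul_sum]
          rw [sum_comm]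
          refine sum_congr rfl fun n _ => sum_congr rfl fun T _ => ?_
          ring
        rw [e2]
        exact sum_le_sum fun n _ => mul_le_mul_of_nonneg_left (hpt n) (hU0 n)
      have hTsum : ∑ T ∈ Ts, (la - lg S + (k - 1) * lg T) * en N M K ρ U P.toList F S T =
          ∑ T ∈ P.powerset, (la + -1 * lg S + (k - 1) * lg T) * en N M K ρ U P.toList F S T := by
        rw [hTs, sum_filter]
        refine sum_congr rfl fun T hT => ?_
        split_ifs with h3
        · ring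
        · unfold en
          simp [hbb S hS T (mem_powerset.1 hT) (not_le.1 h3)]
      have hW0 : 0 ≤ ∑ T ∈ Ts, (la - lg S + (k - 1) * lg T) * en N M K ρ U P.toList F S T :=
        sum_nonneg fun T hT => mul_nonneg (hom T hT).le (en_nonneg hD ρ hU0 _ _ _ (hTm T hT).1)
      rw [hTsum] at hsum hW0
      have h3 := mul_le_mul_of_nonneg_left hsum (hfac (P \ S) sdiff_subset)
      have h4 := mul_le_mul_of_nonneg_right hG1 hW0
      have h5 := mul_le_mul_of_nonneg_left h4 (hfac (P \ S) sdiff_subset)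
      refine h3.trans (h5.trans (le_of_eq ?_))
      rw [← prod_sdiff hS]
      ring
    · have h3 : ∑ n ∈ range N, U n * zz M K ρ P.toList F S n ^ 2 = 0 := by
        refine sum_eq_zero fun n _ => ?_
        have h4 : zz M K ρ P.toList F S n = 0 := by
          unfold zz
          rw [toList_toFinset]
          refine sum_eq_zero fun T hT => ?_
          rw [hbb S hS T (mem_powerset.1 hT) (by linarith [lg_nonneg T]), mul_zero]
        rw [h4]
        ring
      have h4 : ∑ T ∈ P.powerset, (la + -1 * lg S + (k - 1) * lg T) * en N M K ρ U P.toList F S T = 0 := by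
        refine sum_eq_zero fun T hT => ?_
        unfold en
        simp [hbb S hS T (mem_powerset.1 hT) (by linarith [lg_nonneg T])]
      rw [h3, h4]
      simp
  refine h1.trans ((sum_le_sum hkey).trans (le_of_eq ?_))
  have e3 : ∑ q ∈ P, Real.log q * (-1 * ∑ n ∈ range N, U n * QQ M K ρ q F n ^ 2 +
      (k - 1) * (1 / ((q : ℝ) - 1) * ∑ n ∈ range N, U n * DD M K ρ q F n ^ 2)) =
      -∑ q ∈ P, Real.log q * ∑ n ∈ range N, U n * (F n - EE M K q F n) ^ 2 +
      k * ∑ q ∈ P, Real.log q * (1 / ((q : ℝ) - 1) * ∑ n ∈ range N, U n * DD M K ρ q F n ^ 2) := by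
    rw [mul_sum, ← sum_neg_distrib, ← sum_add_distrib]
    refine sum_congr rfl fun q hq => ?_
    rw [split hD ρ hq hFN (hU q hq)]
    ring
  rw [← mul_sum, h2, e3]
  ring

/-- **all sites** -/
theorem sites (hD : Dat N M K P) {ι' : Type} (J : Finset ι') (ρ : ι' → ℕ → ℕ) {U : ι' → ℕ → ℝ}
    (hU0 : ∀ j n, 0 ≤ U j n) (hU1 : ∀ j n, U j n ≤ 1)
    (hU : ∀ j, ∀ p ∈ P, Function.Periodic (U j) (M p))
    (hρ : ∀ p ∈ P, ∀ n, ∀ i ∈ J, ∀ j ∈ J, p ∣ n + ρ i p → p ∣ n + ρ j p → i = j)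
    {ι : Type} (s : Finset ι) (f : ι → ℕ → ℝ) (A : ι → Finset ℕ) {Λ : ℝ}
    (hf : ∀ i ∈ s, (∀ p ∈ P, p ∉ A i → Function.Periodic (f i) (M p)) ∧ lg (P.filter (fun p => p ∈ A i)) ≤ Λ)
    {F : ℕ → ℝ} (hF : F = fun n => ∑ i ∈ s, f i n) (hFN : Function.Periodic F N)
    {la Cm Y : ℝ} (hla : Λ < la) (hJ : 1 ≤ J.card) (hCm : 0 ≤ Cm) (hY : 0 < Y) (hYP : ∀ p ∈ P, Y ≤ (p : ℝ) - 1)
    (hG : ∀ S ⊆ P, lg S ≤ Λ → ∑ T ∈ P.powerset.filter (fun T => lg S + lg T ≤ Λ),
      1 / (phi T * (la - lg S + ((J.card : ℝ) - 1) * lg T)) ≤ Cm * ∏ p ∈ S, (1 - 1 / (p : ℝ))) :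
    ∑ j ∈ J, ∑ n ∈ range N, U j n * (if ∀ p ∈ P, ¬ p ∣ n + ρ j p then F n ^ 2 else 0) ≤
      (∏ p ∈ P, (1 - 1 / (p : ℝ))) * Cm * (J.card * (la + Λ / Y) * ∑ n ∈ range N, F n ^ 2) := by
  classical
  obtain ⟨k, hk⟩ : ∃ k : ℝ, k = (J.card : ℝ) := ⟨_, rfl⟩
  have hk1 : 1 ≤ k := by rw [hk]; exact_mod_cast hJ
  rw [← hk] at hG ⊢
  have h1 : ∀ j ∈ J, _ := fun j (_ : j ∈ J) => site1 hD (ρ j) (hU0 j) (hU j) s f A hf hF hFN hla hk1 hG
  refine (sum_le_sum h1).trans ?_
  rw [← mul_sum]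
  have hV : 0 ≤ (∏ p ∈ P, (1 - 1 / (p : ℝ))) * Cm :=
    mul_nonneg (prod_nonneg fun p hp => fac_nn (two hD hp)) hCm
  refine mul_le_mul_of_nonneg_left ?_ hV
  have hper1 : ∀ p ∈ P, Function.Periodic (fun _ : ℕ => (1 : ℝ)) (M p) := fun _ _ _ => rfl
  have hΛ := levU hD (U := fun _ => 1) (fun _ => zero_le_one) hper1 s f A hf hF hFN
  simp only [one_mul] at hΛ
  -- the two parts
  have hphi : ∀ j ∈ J, la * ∑ n ∈ range N, U j n * F n ^ 2 -
      ∑ q ∈ P, Real.log q * ∑ n ∈ range N, U j n * (F n - EE M K q F n) ^ 2 ≤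
      la * ∑ n ∈ range N, F n ^ 2 - ∑ q ∈ P, Real.log q * ∑ n ∈ range N, (F n - EE M K q F n) ^ 2 := by
    intro j _
    have h2 := levU hD (U := fun n => 1 - U j n) (fun n => by linarith [hU1 j n])
      (fun p hp n => by simp only [hU j p hp n]) s f A hf hF hFN
    have e1 : ∀ G : ℕ → ℝ, ∑ n ∈ range N, (1 - U j n) * G n ^ 2 =
        ∑ n ∈ range N, G n ^ 2 - ∑ n ∈ range N, U j n * G n ^ 2 := by
      intro G
      rw [← sum_sub_distrib]
      exact sum_congr rfl fun n _ => by ring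
    have e2 : ∑ q ∈ P, Real.log q * ∑ n ∈ range N, (1 - U j n) * (F n - EE M K q F n) ^ 2 =
        ∑ q ∈ P, Real.log q * ∑ n ∈ range N, (F n - EE M K q F n) ^ 2 -
        ∑ q ∈ P, Real.log q * ∑ n ∈ range N, U j n * (F n - EE M K q F n) ^ 2 := by
      rw [← sum_sub_distrib]
      refine sum_congr rfl fun q _ => ?_
      rw [e1 (fun n => F n - EE M K q F n)]
      ring
    rw [e2, e1 F] at h2
    have h3 : 0 ≤ ∑ n ∈ range N, F n ^ 2 - ∑ n ∈ range N, U j n * F n ^ 2 := by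
      rw [← e1 F]
      exact sum_nonneg fun n _ => mul_nonneg (by linarith [hU1 j n]) (sq_nonneg _)
    have h4 := mul_le_mul_of_nonneg_right hla.le h3
    linarith
  have hDD : ∀ q ∈ P, ∑ j ∈ J, ∑ n ∈ range N, U j n * DD M K (ρ j) q F n ^ 2 ≤
      q * ∑ n ∈ range N, (F n - EE M K q F n) ^ 2 := by
    intro q hq
    have h2 : ∀ j ∈ J, ∑ n ∈ range N, U j n * DD M K (ρ j) q F n ^ 2 ≤
        (q : ℝ) * ∑ n ∈ range N, if q ∣ n + ρ j q then (F n - EE M K q F n) ^ 2 else 0 := by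
      intro j _
      refine le_trans (sum_le_sum fun n _ => ?_) (DD_le hD (ρ j) hq hFN)
      exact mul_le_of_le_one_left (sq_nonneg _) (hU1 j n)
    refine (sum_le_sum h2).trans ?_
    rw [← mul_sum, sum_comm]
    refine mul_le_mul_of_nonneg_left (sum_le_sum fun n _ => ?_) (Nat.cast_nonneg q)
    rw [← sum_filter, sum_const, nsmul_eq_mul]
    have h3 : (J.filter (fun j => q ∣ n + ρ j q)).card ≤ 1 := by
      rw [card_le_one]
      intro i hi j hj
      rw [mem_filter] at hi hj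
      exact hρ q hq n i hi.1 j hj.1 hi.2 hj.2
    have h4 : ((J.filter (fun j => q ∣ n + ρ j q)).card : ℝ) ≤ 1 := by exact_mod_cast h3
    exact mul_le_of_le_one_left (sq_nonneg _) h4
  rw [sum_add_distrib, ← mul_sum]
  have h5 := sum_le_sum hphi
  rw [sum_const, nsmul_eq_mul, ← hk] at h5
  have h6 : ∑ j ∈ J, ∑ q ∈ P, Real.log q * (1 / ((q : ℝ) - 1) * ∑ n ∈ range N, U j n * DD M K (ρ j) q F n ^ 2) ≤
      ∑ q ∈ P, Real.log q * ∑ n ∈ range N, (F n - EE M K q F n) ^ 2 +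
      1 / Y * ∑ q ∈ P, Real.log q * ∑ n ∈ range N, (F n - EE M K q F n) ^ 2 := by
    rw [sum_comm, mul_sum, ← sum_add_distrib]
    refine sum_le_sum fun q hq => ?_
    rw [← mul_sum, ← mul_sum]
    have h7 := hDD q hq
    have h8 := hYP q hq
    have hq1 : (0 : ℝ) < (q : ℝ) - 1 := by linarith
    have h9 : 0 ≤ ∑ n ∈ range N, (F n - EE M K q F n) ^ 2 := sum_nonneg fun _ _ => sq_nonneg _
    have h10 : 1 / ((q : ℝ) - 1) * ∑ j ∈ J, ∑ n ∈ range N, U j n * DD M K (ρ j) q F n ^ 2 ≤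
        (1 + 1 / Y) * ∑ n ∈ range N, (F n - EE M K q F n) ^ 2 := by
      have h11 := mul_le_mul_of_nonneg_left h7 (show 0 ≤ 1 / ((q : ℝ) - 1) by positivity)
      refine h11.trans ?_
      rw [← mul_assoc]
      refine mul_le_mul_of_nonneg_right ?_ h9
      have h12 : 1 / ((q : ℝ) - 1) * q = 1 + 1 / ((q : ℝ) - 1) := by
        field_simp
        ring
      rw [h12]
      have := one_div_le_one_div_of_le hY h8
      linarith
    have h13 := mul_le_mul_of_nonneg_left h10 (Real.log_natCast_nonneg q)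
    refine h13.trans (le_of_eq ?_)
    ring
  have h7 := mul_le_mul_of_nonneg_left h6 (by linarith : (0 : ℝ) ≤ k)
  have h8 : 1 / Y * ∑ q ∈ P, Real.log q * ∑ n ∈ range N, (F n - EE M K q F n) ^ 2 ≤
      Λ / Y * ∑ n ∈ range N, F n ^ 2 := by
    have h9 := mul_le_mul_of_nonneg_left hΛ (show 0 ≤ 1 / Y by positivity)
    refine h9.trans (le_of_eq ?_)
    ring
  have h9 := mul_le_mul_of_nonneg_left h8 (by linarith : (0 : ℝ) ≤ k)
  linarith

end one

end Pool.Agent.N422.MT
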