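import Pool.Agent.N422.MT4
import Pool.Agent.Y835.SB.Mert

/-! Sums over sets of large primes: bounds with the right constant, and partial summation. Author: helper422. -/

set_option autoImplicit false

namespace Pool.Agent.N422.MT

open Finset Pool.Agent.Y835.SB

theorem harm_le {B : Finset ℕ} {x : ℝ} (hx : 1 ≤ x) (hB : ∀ n ∈ B, 0 < n ∧ (n : ℝ) ≤ x) :
    ∑ n ∈ B, 1 / (n : ℝ) ≤ 1 + Real.log x := by
  have h1 : B ⊆ Icc 1 ⌊x⌋₊ := by
    intro n hn
    rw [mem_Icc]
    exact ⟨(hB n hn).1, Nat.le_floor (hB n hn).2⟩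
  have h2 : ∑ n ∈ B, 1 / (n : ℝ) ≤ ∑ n ∈ Icc 1 ⌊x⌋₊, 1 / (n : ℝ) :=
    sum_le_sum_of_subset_of_nonneg h1 fun _ _ _ => by positivity
  have h3 := harmonic_floor_le_one_add_log x hx
  rw [harmonic_eq_sum_Icc] at h3
  push_cast at h3
  simp only [one_div] at h2 ⊢
  exact h2.trans h3

theorem pow_inj {p a b n m : ℕ} (hp : p.Prime) (hn : ¬ p ∣ n) (hm : ¬ p ∣ m) (h : p ^ a * n = p ^ b * m) :
    a = b ∧ n = m := by
  have key : ∀ a b n m : ℕ, ¬ p ∣ n → p ^ a * n = p ^ b * m → b ≤ a := by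
    intro a b n m hn h
    by_contra hab
    push Not at hab
    obtain ⟨c, hc⟩ := Nat.exists_eq_add_of_lt hab
    have h1 : p ^ a * n = p ^ a * (p ^ (c + 1) * m) := by
      rw [h, hc]
      ring
    have h2 := Nat.eq_of_mul_eq_mul_left (pow_pos hp.pos a) h1
    apply hn
    rw [h2, pow_succ]
    exact ⟨p ^ c * m, by ring⟩
  have h1 := key a b n m hn h
  have h2 := key b a m n hm h.symm
  have h3 : a = b := le_antisymm h2 h1
  subst h3
  exact ⟨rfl, Nat.eq_of_mul_eq_mul_left (pow_pos hp.pos a) h⟩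

/-- products of truncated geometric series -/
theorem geo (J : ℕ) (A : Finset ℕ) : (∀ p ∈ A, p.Prime) → ∀ (B : Finset ℕ) (x : ℝ), 1 ≤ x →
    (∀ n ∈ B, 0 < n ∧ (n : ℝ) ≤ x ∧ ∀ p ∈ A, ¬ p ∣ n) →
    (∏ p ∈ A, ∑ a ∈ range (J + 1), (1 / (p : ℝ)) ^ a) * ∑ n ∈ B, 1 / (n : ℝ) ≤ 1 + J * lg A + Real.log x := by
  classical
  induction A using Finset.induction_on with
  | empty =>
    intro _ B x hx hB
    have := harm_le hx (fun n hn => ⟨(hB n hn).1, (hB n hn).2.1⟩)
    simpa [lg] using this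
  | insert p A hpA ih =>
    intro hA B x hx hB
    have hp := hA p (mem_insert_self p A)
    have hA' : ∀ q ∈ A, q.Prime := fun q hq => hA q (mem_insert_of_mem hq)
    have hpr : (1 : ℝ) ≤ p := by exact_mod_cast hp.one_lt.le
    have hp0 : (0 : ℝ) < p := by linarith
    obtain ⟨B', hB'⟩ : ∃ B', B' = (range (J + 1) ×ˢ B).image (fun z : ℕ × ℕ => p ^ z.1 * z.2) := ⟨_, rfl⟩
    have hinj : Set.InjOn (fun z : ℕ × ℕ => p ^ z.1 * z.2) (range (J + 1) ×ˢ B : Finset (ℕ × ℕ)) := by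
      rintro ⟨a, n⟩ h1 ⟨b, m⟩ h2 h3
      rw [mem_coe, mem_product] at h1 h2
      have hn := (hB n h1.2).2.2 p (mem_insert_self p A)
      have hm := (hB m h2.2).2.2 p (mem_insert_self p A)
      have h4 : a = b ∧ n = m := pow_inj hp hn hm h3
      rw [h4.1, h4.2]
    have hsum : ∑ m ∈ B', 1 / (m : ℝ) = (∑ a ∈ range (J + 1), (1 / (p : ℝ)) ^ a) * ∑ n ∈ B, 1 / (n : ℝ) := by
      rw [hB', sum_image hinj, sum_mul_sum, sum_product]
      refine sum_congr rfl fun a _ => sum_congr rfl fun n _ => ?_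
      push_cast
      rw [one_div_pow, one_div_mul_one_div]
    have hx' : 1 ≤ (p : ℝ) ^ J * x := one_le_mul_of_one_le_of_one_le (one_le_pow₀ hpr) hx
    have h1 := ih hA' B' ((p : ℝ) ^ J * x) hx' (by
      intro m hm
      rw [hB', mem_image] at hm
      obtain ⟨⟨a, n⟩, h2, rfl⟩ := hm
      rw [mem_product, mem_range] at h2
      obtain ⟨h3, h4, h5⟩ := hB n h2.2
      dsimp only at h2 ⊢
      refine ⟨Nat.mul_pos (pow_pos hp.pos a) h3, ?_, ?_⟩
      · push_cast
        exact mul_le_mul (pow_le_pow_right₀ hpr (by omega)) h4 (Nat.cast_nonneg _) (by positivity)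
      · intro q hq hd
        rcases (hA' q hq).dvd_mul.1 hd with h6 | h6
        · have h7 := (Nat.prime_dvd_prime_iff_eq (hA' q hq) hp).1 ((hA' q hq).dvd_of_dvd_pow h6)
          exact hpA (h7 ▸ hq)
        · exact h5 q (mem_insert_of_mem hq) h6)
    rw [prod_insert hpA]
    rw [hsum] at h1
    have e1 : lg (insert p A) = Real.log p + lg A := sum_insert hpA
    have e2 : Real.log ((p : ℝ) ^ J * x) = J * Real.log p + Real.log x := by
      rw [Real.log_mul (by positivity) (by positivity), Real.log_pow]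
    rw [e2] at h1
    rw [e1]
    calc _ = _ := ?_
      _ ≤ _ := h1
      _ = _ := ?_
    · ring
    · ring

theorem prod_one_sub (A : Finset ℕ) (e : ℕ → ℝ) (he : ∀ p ∈ A, 0 ≤ e p ∧ e p ≤ 1) :
    1 - ∑ p ∈ A, e p ≤ ∏ p ∈ A, (1 - e p) := by
  classical
  induction A using Finset.induction_on with
  | empty => simp
  | insert p A hp ih =>
    rw [sum_insert hp, prod_insert hp]
    have h1 := ih fun q hq => he q (mem_insert_of_mem hq)
    obtain ⟨h2, h3⟩ := he p (mem_insert_self p A)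
    have h4 : ∏ q ∈ A, (1 - e q) ≤ 1 := prod_le_one (fun q hq => by linarith [(he q (mem_insert_of_mem hq)).2])
      (fun q hq => by linarith [(he q (mem_insert_of_mem hq)).1])
    have h5 := mul_le_mul_of_nonneg_left h4 h2
    linarith

theorem geo_low (J : ℕ) (hJ : 1 ≤ J) {A : Finset ℕ} (hA : ∀ p ∈ A, p.Prime) :
    1 - 2 * (1 / 2 : ℝ) ^ J ≤ (∏ p ∈ A, (1 - 1 / (p : ℝ))) * ∏ p ∈ A, ∑ a ∈ range (J + 1), (1 / (p : ℝ)) ^ a := by
  have hp2 : ∀ p ∈ A, (2 : ℝ) ≤ p := fun p hp => by exact_mod_cast (hA p hp).two_le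
  rw [← prod_mul_distrib]
  have h1 : ∀ p ∈ A, (1 - 1 / (p : ℝ)) * ∑ a ∈ range (J + 1), (1 / (p : ℝ)) ^ a = 1 - (1 / (p : ℝ)) ^ (J + 1) := by
    intro p _
    exact mul_neg_geom_sum _ _
  rw [prod_congr rfl h1]
  refine le_trans ?_ (prod_one_sub A (fun p => (1 / (p : ℝ)) ^ (J + 1)) fun p hp => ?_)
  · have h2 := sum_tele A fun p hp => (hA p hp).two_le
    have h3 : ∑ p ∈ A, (1 / (p : ℝ)) ^ (J + 1) ≤ 2 * (1 / 2 : ℝ) ^ J * ∑ p ∈ A, 1 / ((p : ℝ) * (p - 1)) := by
      rw [mul_sum]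
      refine sum_le_sum fun p hp => ?_
      have h4 := hp2 p hp
      have h5 : (1 / (p : ℝ)) ^ (J + 1) = (1 / (p : ℝ)) ^ (J - 1) * (1 / (p : ℝ)) ^ 2 := by
        rw [← pow_add]
        congr 1
        omega
      have h6 : (1 / (p : ℝ)) ^ (J - 1) ≤ (1 / 2 : ℝ) ^ (J - 1) :=
        pow_le_pow_left₀ (by positivity) (one_div_le_one_div_of_le (by norm_num) h4) _
      have h7 : 2 * (1 / 2 : ℝ) ^ J = (1 / 2 : ℝ) ^ (J - 1) := by
        obtain ⟨j, rfl⟩ : ∃ j, J = j + 1 := ⟨J - 1, by omega⟩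
        rw [Nat.add_sub_cancel, pow_succ]
        ring
      rw [h5, h7]
      refine mul_le_mul h6 ?_ (by positivity) (by positivity)
      rw [one_div_pow]
      apply one_div_le_one_div_of_le
      · nlinarith
      · nlinarith
    have h4 : 0 ≤ 2 * (1 / 2 : ℝ) ^ J := by positivity
    have h5 := mul_le_mul_of_nonneg_left h2 h4
    linarith
  · have h4 := hp2 p hp
    refine ⟨by positivity, pow_le_one₀ (by positivity) ?_⟩
    rw [div_le_one (by linarith)]
    linarith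

/-- the sum over the subsets, with `1/∏` -/
theorem sumT (J : ℕ) (hJ : 1 ≤ J) {A P : Finset ℕ} (hA : ∀ p ∈ A, p.Prime) (hP : ∀ p ∈ P, p.Prime) (hAP : Disjoint A P)
    {v : ℝ} (hv : 0 ≤ v) :
    (1 - 2 * (1 / 2 : ℝ) ^ J) * ∑ T ∈ P.powerset.filter (fun T => lg T ≤ v), 1 / (∏ p ∈ T, (p : ℝ)) ≤
      (∏ p ∈ A, (1 - 1 / (p : ℝ))) * (1 + J * lg A + v) := by
  classical
  have hV : 0 ≤ ∏ p ∈ A, (1 - 1 / (p : ℝ)) := prod_nonneg fun p hp => fac_nn (by exact_mod_cast (hA p hp).two_le)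
  obtain ⟨Ts, hTs⟩ : ∃ Ts, Ts = P.powerset.filter (fun T => lg T ≤ v) := ⟨_, rfl⟩
  have hTm : ∀ T ∈ Ts, T ⊆ P ∧ lg T ≤ v := by
    intro T hT
    rw [hTs, mem_filter, mem_powerset] at hT
    exact hT
  rw [← hTs]
  have hinj : Set.InjOn (fun T : Finset ℕ => ∏ p ∈ T, p) (Ts : Set (Finset ℕ)) := by
    intro T hT T' hT' h
    rw [mem_coe] at hT hT'
    have h1 := Nat.primeFactors_prod fun p hp => hP p ((hTm T hT).1 hp)
    have h2 := Nat.primeFactors_prod fun p hp => hP p ((hTm T' hT').1 hp)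
    rw [← h1, ← h2]
    dsimp only at h
    rw [h]
  have h1 := geo J A hA (Ts.image (fun T => ∏ p ∈ T, p)) (Real.exp v) (Real.one_le_exp hv) (by
    intro m hm
    rw [mem_image] at hm
    obtain ⟨T, hT, rfl⟩ := hm
    obtain ⟨h1, h2⟩ := hTm T hT
    refine ⟨prod_pos fun p hp => (hP p (h1 hp)).pos, ?_, ?_⟩
    · have h3 : lg T = Real.log ((∏ p ∈ T, p : ℕ) : ℝ) := by
        unfold lg
        push_cast
        rw [Real.log_prod]
        intro p hp
        exact_mod_cast (hP p (h1 hp)).ne_zero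
      rw [h3] at h2
      rwa [Real.log_le_iff_le_exp (by exact_mod_cast prod_pos fun p hp => (hP p (h1 hp)).pos)] at h2
    · intro q hq hd
      rw [(hA q hq).prime.dvd_finsetProd_iff] at hd
      obtain ⟨p, hp, hqp⟩ := hd
      have h3 := (Nat.prime_dvd_prime_iff_eq (hA q hq) (hP p (h1 hp))).1 hqp
      exact disjoint_left.1 hAP hq (h3 ▸ h1 hp))
  rw [sum_image hinj, Real.log_exp] at h1
  have h2 := mul_le_mul_of_nonneg_left h1 hV
  have h3 : 0 ≤ ∑ T ∈ Ts, 1 / (∏ p ∈ T, (p : ℝ)) :=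
    sum_nonneg fun T _ => div_nonneg zero_le_one (prod_nonneg fun _ _ => Nat.cast_nonneg _)
  have h4 := mul_le_mul_of_nonneg_right (geo_low J hJ hA) h3
  refine h4.trans (le_trans (le_of_eq ?_) h2)
  push_cast
  ring

/-- partial summation -/
theorem psum {ι : Type} {κ c la m : ℝ} (hla : 0 < la) (hm : 0 < m) (hκ : 0 ≤ κ) (hc : 0 ≤ c)
    (u a : ι → ℝ) (s : Finset ι) : (∀ i ∈ s, 0 ≤ u i ∧ 0 ≤ a i) →
    (∀ v, 0 ≤ v → ∑ i ∈ s.filter (fun i => u i ≤ v), a i ≤ κ * (v + c)) → ∀ v, 0 ≤ v → (∀ i ∈ s, u i ≤ v) →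
    ∑ i ∈ s, a i * (1 / (la + m * u i)) ≤
      κ * (c * (1 / la) + 1 / m * Real.log ((la + m * v) / la)) - (κ * (v + c) - ∑ i ∈ s, a i) * (1 / (la + m * v)) := by
  classical
  have hgpos : ∀ v, 0 ≤ v → 0 < la + m * v := fun v hv => by positivity
  have hGl : ∀ u v, 0 ≤ u → u ≤ v → (v - u) * (1 / (la + m * v)) ≤
      1 / m * Real.log ((la + m * v) / la) - 1 / m * Real.log ((la + m * u) / la) := by
    intro u v hu huv
    have h1 := hgpos u hu
    have h2 := hgpos v (hu.trans huv)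
    have h3 : Real.log ((la + m * v) / la) - Real.log ((la + m * u) / la) = Real.log ((la + m * v) / (la + m * u)) := by
      rw [Real.log_div h2.ne' hla.ne', Real.log_div h1.ne' hla.ne', Real.log_div h2.ne' h1.ne']
      ring
    rw [← mul_sub, h3]
    have h4 : 1 - (la + m * u) / (la + m * v) ≤ Real.log ((la + m * v) / (la + m * u)) := by
      have h5 := Real.log_le_sub_one_of_pos (show 0 < (la + m * u) / (la + m * v) by positivity)
      have h6 : Real.log ((la + m * v) / (la + m * u)) = -Real.log ((la + m * u) / (la + m * v)) := by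
        rw [← Real.log_inv, inv_div]
      rw [h6]
      linarith
    have h5 : (v - u) * (1 / (la + m * v)) = 1 / m * (1 - (la + m * u) / (la + m * v)) := by
      have h6 : 1 - (la + m * u) / (la + m * v) = m * (v - u) / (la + m * v) := by
        rw [eq_div_iff h2.ne', sub_mul, div_mul_cancel₀ _ h2.ne']
        ring
      rw [h6]
      field_simp
    rw [h5]
    exact mul_le_mul_of_nonneg_left h4 (by positivity)
  have hgm : ∀ u v, 0 ≤ u → u ≤ v → 1 / (la + m * v) ≤ 1 / (la + m * u) := by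
    intro u v hu huv
    apply one_div_le_one_div_of_le (hgpos u hu)
    have := mul_le_mul_of_nonneg_left huv hm.le
    linarith
  induction s using Finset.induction_on_max_value u with
  | empty =>
    intro _ _ v hv _
    have h1 := hGl 0 v le_rfl hv
    have h2 := hgm 0 v le_rfl hv
    rw [mul_zero, add_zero, div_self hla.ne', Real.log_one, mul_zero, sub_zero, sub_zero] at h1
    rw [mul_zero, add_zero] at h2
    rw [sum_empty, sum_empty, sub_zero]
    have h3 := mul_le_mul_of_nonneg_left h2 hc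
    have h4 : 0 ≤ κ * (c * (1 / la) + 1 / m * Real.log ((la + m * v) / la) - (v + c) * (1 / (la + m * v))) := by
      apply mul_nonneg hκ
      linarith
    linarith
  | insert i s hi hmax ih =>
    intro hs H v hv huv
    have hs' : ∀ j ∈ s, 0 ≤ u j ∧ 0 ≤ a j := fun j hj => hs j (mem_insert_of_mem hj)
    obtain ⟨hui, hai⟩ := hs i (mem_insert_self i s)
    have h1 := ih hs' (by
      intro w hw
      refine le_trans ?_ (H w hw)
      apply sum_le_sum_of_subset_of_nonneg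
      · intro j hj
        rw [mem_filter] at hj ⊢
        exact ⟨mem_insert_of_mem hj.1, hj.2⟩
      · intro j hj _
        exact (hs j (mem_filter.1 hj).1).2) (u i) hui hmax
    have h2 := H (u i) hui
    rw [filter_true_of_mem (by
      intro j hj
      rcases mem_insert.1 hj with h3 | h3
      · rw [h3]
      · exact hmax j h3)] at h2
    rw [sum_insert hi] at h2 ⊢
    rw [sum_insert hi]
    have huiv := huv i (mem_insert_self i s)
    have h3 := hGl (u i) v hui huiv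
    have h4 := hgm (u i) v hui huiv
    have h5 := mul_le_mul_of_nonneg_left h3 hκ
    have h6 := mul_le_mul_of_nonneg_left h4 (sub_nonneg.2 h2)
    have h7 : (κ * (u i + c) - (a i + ∑ j ∈ s, a j)) * (1 / (la + m * u i)) =
        (κ * (u i + c) - ∑ j ∈ s, a j) * (1 / (la + m * u i)) - a i * (1 / (la + m * u i)) := by ring
    have h8 : (κ * (v + c) - (a i + ∑ j ∈ s, a j)) * (1 / (la + m * v)) =
        κ * ((v - u i) * (1 / (la + m * v))) + (κ * (u i + c) - (a i + ∑ j ∈ s, a j)) * (1 / (la + m * v)) := by ring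
    rw [h8]
    linarith

end Pool.Agent.N422.MT
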