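import Pool.Agent.N422.MT6

/-! The model: squares of functions of level `exp Λ` and `k` sites (continued). Author: helper422. -/

set_option autoImplicit false

namespace Pool.Agent.N422.MT

open Finset Filter Topology Pool.Agent.Y835.SB

/-- **the model** -/
theorem model (k : ℕ) (hk : 2 ≤ k) (ε B1 : ℝ) (hε : 0 < ε) (hB1 : 0 ≤ B1) : ∃ Λ0 : ℝ, ∀ Λ : ℝ, Λ0 ≤ Λ →
    ∀ P0 : Finset ℕ, (∀ p ∈ P0, p.Prime) → ∀ {ι : Type} (I : Finset ι) (d : ι → ℕ) (f : ι → ℕ → ℝ),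
    (∀ i ∈ I, 0 < d i ∧ Real.log (d i) ≤ Λ ∧ Function.Periodic (f i) (d i)) → ∀ N : ℕ, 0 < N →
    (∀ p ∈ P0, p ∣ N) → (∀ i ∈ I, d i ∣ N) → ∀ (H : Finset ℕ) (ρ : ℕ → ℕ → ℕ) (Bd : Finset ℕ), H.card = k →
    Bd ⊆ P0 → lg Bd ≤ B1 * Λ →
    (∀ p ∈ P0, p ∉ Bd → ∀ n, ∀ i ∈ H, ∀ j ∈ H, p ∣ n + ρ i p → p ∣ n + ρ j p → i = j) →
    ∑ h ∈ H, ∑ n ∈ range N, (if ∀ p ∈ P0, ¬ p ∣ n + ρ h p then (∑ i ∈ I, f i n) ^ 2 else 0) ≤
      (∏ p ∈ P0, (1 - 1 / (p : ℝ))) *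
        ((k * Real.log k / (k - 1) + ε) * Λ * ∑ n ∈ range N, (∑ i ∈ I, f i n) ^ 2) := by
  classical
  obtain ⟨t, ht0, ht1, ht⟩ := small k ε hε
  obtain ⟨j, hj⟩ := exists_pow_lt_of_lt_one (show 0 < t / 2 by positivity) (show (1 / 2 : ℝ) < 1 by norm_num)
  obtain ⟨J, hJ⟩ : ∃ J, J = j + 2 := ⟨_, rfl⟩
  have hJ2 : 2 ≤ J := by omega
  have hJt : 2 * (1 / 2 : ℝ) ^ J ≤ t := by
    have h1 : (1 / 2 : ℝ) ^ J ≤ (1 / 2 : ℝ) ^ j := pow_le_pow_of_le_one (by norm_num) (by norm_num) (by omega)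
    linarith
  have hJr : (2 : ℝ) ≤ J := by exact_mod_cast hJ2
  have hl4 : 0 < Real.log 4 := Real.log_pos (by norm_num)
  obtain ⟨θ, hθ⟩ : ∃ θ : ℝ, θ = t ^ 2 / (2 * J * Real.log 4) := ⟨_, rfl⟩
  have hθ0 : 0 < θ := by rw [hθ]; positivity
  obtain ⟨E, hE⟩ : ∃ E : ℝ, E = Real.exp (2 * (1 + B1) / (θ * t)) := ⟨_, rfl⟩
  have hE0 : 0 < E := by rw [hE]; exact Real.exp_pos _
  refine ⟨2 / t ^ 2 + (1 / t + E + 4) / θ, ?_⟩
  intro Λ hΛ P0 hP0 ι I d f hf N hN hPN hIN H ρ Bd hH hBd hBdl hρ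
  have hΛ1 : 2 / t ^ 2 ≤ Λ := by
    have : 0 ≤ (1 / t + E + 4) / θ := by positivity
    linarith
  have hΛ2 : (1 / t + E + 4) / θ ≤ Λ := by
    have : 0 ≤ 2 / t ^ 2 := by positivity
    linarith
  have hΛ0 : 0 < Λ := lt_of_lt_of_le (by positivity) hΛ1
  rw [div_le_iff₀ (by positivity)] at hΛ1
  rw [div_le_iff₀ hθ0] at hΛ2
  obtain ⟨Y, hY⟩ : ∃ Y, Y = ⌊θ * Λ⌋₊ := ⟨_, rfl⟩
  have hYle : (Y : ℝ) ≤ θ * Λ := by rw [hY]; exact Nat.floor_le (by positivity)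
  have hYlt : θ * Λ < Y + 1 := by rw [hY]; exact Nat.lt_floor_add_one _
  have h1t : 0 < 1 / t := by positivity
  have hY3 : (3 : ℝ) ≤ Y := by linarith
  have hY2 : 2 ≤ Y := by
    have : (2 : ℝ) ≤ Y := by linarith
    exact_mod_cast this
  have hYE : E ≤ Y := by linarith
  have hYt : 1 / t ≤ Y := by linarith
  have hYr : (0 : ℝ) < Y := by linarith
  have hYhalf : θ * Λ / 2 ≤ Y := by linarith
  have hlY : 2 * (1 + B1) / (θ * t) ≤ Real.log Y := by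
    rw [Real.le_log_iff_exp_le hYr, ← hE]
    exact hYE
  have hlY0 : 0 < Real.log Y := lt_of_lt_of_le (by positivity) hlY
  have hx1 : (1 + B1) * (Λ / (Y * Real.log Y)) ≤ t := by
    rw [mul_div_assoc', div_le_iff₀ (by positivity)]
    have h1 : θ * Λ / 2 * (2 * (1 + B1) / (θ * t)) ≤ Y * Real.log Y := mul_le_mul hYhalf hlY (by positivity) (by positivity)
    have h2 := mul_le_mul_of_nonneg_left h1 ht0.le
    refine le_trans (le_of_eq ?_) h2
    field_simp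
  have hx0 : 0 ≤ Λ / (Y * Real.log Y) := by positivity
  have hx : Λ / (Y * Real.log Y) ≤ t := by nlinarith
  -- the primes
  obtain ⟨A, hA⟩ : ∃ A, A = P0.filter (fun p => p ≤ Y) := ⟨_, rfl⟩
  obtain ⟨P, hP⟩ : ∃ P, P = P0.filter (fun p => Y < p ∧ p ∉ Bd) := ⟨_, rfl⟩
  obtain ⟨Bp, hBp⟩ : ∃ Bp, Bp = P0.filter (fun p => Y < p ∧ p ∈ Bd) := ⟨_, rfl⟩
  have hAm : ∀ p ∈ A, p.Prime ∧ p ≤ Y := by
    intro p hp
    rw [hA, mem_filter] at hp
    exact ⟨hP0 p hp.1, hp.2⟩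
  have hPm : ∀ p ∈ P, (p.Prime ∧ Y < p) ∧ p ∈ P0 := by
    intro p hp
    rw [hP, mem_filter] at hp
    exact ⟨⟨hP0 p hp.1, hp.2.1⟩, hp.1⟩
  have hPB : ∀ p ∈ P, p ∉ Bd := by
    intro p hp
    rw [hP, mem_filter] at hp
    exact hp.2.2
  have hBm : ∀ p ∈ Bp, (p.Prime ∧ Y < p) ∧ p ∈ Bd := by
    intro p hp
    rw [hBp, mem_filter] at hp
    exact ⟨⟨hP0 p hp.1, hp.2.1⟩, hp.2.2⟩
  have hVsplit : ∏ p ∈ P0, (1 - 1 / (p : ℝ)) = (∏ p ∈ P, (1 - 1 / (p : ℝ))) * (∏ p ∈ A, (1 - 1 / (p : ℝ))) *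
      ∏ p ∈ Bp, (1 - 1 / (p : ℝ)) := by
    have e1 := prod_filter_mul_prod_filter_not P0 (fun p => p ≤ Y) (fun p => 1 - 1 / (p : ℝ))
    have e2 := prod_filter_mul_prod_filter_not (P0.filter (fun p => ¬ p ≤ Y)) (fun p => p ∈ Bd) (fun p => 1 - 1 / (p : ℝ))
    rw [filter_filter, filter_filter] at e2
    have e3 : P0.filter (fun p => ¬ p ≤ Y ∧ p ∈ Bd) = Bp := by
      rw [hBp]
      exact filter_congr fun p _ => by rw [not_le]
    have e4 : P0.filter (fun p => ¬ p ≤ Y ∧ p ∉ Bd) = P := by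
      rw [hP]
      exact filter_congr fun p _ => by rw [not_le]
    rw [e3, e4] at e2
    rw [← e1, ← e2, ← hA]
    ring
  have hVB : 1 ≤ Real.exp t * ∏ p ∈ Bp, (1 - 1 / (p : ℝ)) := by
    apply one_le_V (fun p hp => (hBm p hp).1.1.two_le)
    refine (sum_inv_le' hY2 (fun p hp => (hBm p hp).1.2) ((lg_mono fun p hp => (hBm p hp).2).trans hBdl)).trans ?_
    have e : B1 * Λ / (Y * Real.log Y) = B1 * (Λ / (Y * Real.log Y)) := by ring
    rw [e]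
    linarith
  have hlgA : lg A ≤ Y * Real.log 4 := lg_primes hAm
  have hlgA0 := lg_nonneg A
  -- coordinates
  set M : ℕ → ℕ := fun p => N / p ^ N.factorization p with hM
  set K : ℕ → ℕ := fun p => p ^ N.factorization p with hK
  have hD : Dat N M K P := dat_of hN fun p hp => ⟨(hPm p hp).1.1, hPN p (hPm p hp).2⟩
  obtain ⟨F, hF⟩ : ∃ F : ℕ → ℝ, F = fun n => ∑ i ∈ I, f i n := ⟨_, rfl⟩
  have hFN : Function.Periodic F N := by
    intro n
    rw [hF]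
    exact sum_congr rfl fun i hi => per_of_dvd (hf i hi).2.2 (hIN i hi) n
  have hk1 : (1 : ℝ) ≤ k := by exact_mod_cast (by omega : 1 ≤ k)
  have hk2 : (2 : ℝ) ≤ k := by exact_mod_cast hk
  have hG := Gbound J hJ2 (fun p hp => (hAm p hp).1) (fun p hp => (hPm p hp).1.1) hY2 (fun p hp => (hAm p hp).2)
    (fun p hp => (hPm p hp).1.2) (Λ := Λ) (la := (1 + t) * Λ) (k := k) (x := t) (by nlinarith) hk2 hx
  have hVA : 0 ≤ ∏ p ∈ A, (1 - 1 / (p : ℝ)) :=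
    prod_nonneg fun p hp => fac_nn (by exact_mod_cast (hAm p hp).1.two_le)
  have hVP : 0 ≤ ∏ p ∈ P, (1 - 1 / (p : ℝ)) :=
    prod_nonneg fun p hp => fac_nn (by exact_mod_cast (hPm p hp).1.1.two_le)
  have hlk : 0 ≤ Real.log k := Real.log_nonneg hk1
  obtain ⟨Cm, hCm⟩ : ∃ Cm : ℝ, Cm = Real.exp (2 * t) * ((∏ p ∈ A, (1 - 1 / (p : ℝ))) / (1 - 2 * (1 / 2 : ℝ) ^ J)) *
          ((1 + J * lg A) / ((1 + t) * Λ - Λ) + Real.log k / (k - 1)) := ⟨_, rfl⟩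
  rw [← hCm] at hG
  have htL : (1 + t) * Λ - Λ = t * Λ := by ring
  have h1J : 0 < 1 - 2 * (1 / 2 : ℝ) ^ J := by linarith
  have hcle : (1 + J * lg A) / (t * Λ) ≤ t := by
    rw [div_le_iff₀ (by positivity)]
    have h1 : J * lg A ≤ t ^ 2 * Λ / 2 := by
      have h2 : (J : ℝ) * lg A ≤ J * (θ * Λ * Real.log 4) := by
        apply mul_le_mul_of_nonneg_left _ (by positivity)
        exact hlgA.trans (mul_le_mul_of_nonneg_right hYle hl4.le)
      refine h2.trans (le_of_eq ?_)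
      rw [hθ]
      field_simp
    nlinarith
  have hCm0 : 0 ≤ Cm := by
    rw [hCm, htL]
    have : 0 < (k : ℝ) - 1 := by linarith
    positivity
  have hCm1 : Cm ≤ (∏ p ∈ A, (1 - 1 / (p : ℝ))) * (Real.exp (2 * t) * (1 / (1 - t)) * (t + Real.log k / (k - 1))) := by
    rw [hCm, htL]
    have h1 : 1 / (1 - 2 * (1 / 2 : ℝ) ^ J) ≤ 1 / (1 - t) := one_div_le_one_div_of_le (by linarith) (by linarith)
    have h2 : 0 ≤ t + Real.log k / (k - 1) := by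
      have : 0 < (k : ℝ) - 1 := by linarith
      positivity
    have e1 : Real.exp (2 * t) * ((∏ p ∈ A, (1 - 1 / (p : ℝ))) / (1 - 2 * (1 / 2 : ℝ) ^ J)) *
          ((1 + J * lg A) / (t * Λ) + Real.log k / (k - 1)) =
        (∏ p ∈ A, (1 - 1 / (p : ℝ))) * (Real.exp (2 * t) * (1 / (1 - 2 * (1 / 2 : ℝ) ^ J)) *
          ((1 + J * lg A) / (t * Λ) + Real.log k / (k - 1))) := by ring
    rw [e1]
    apply mul_le_mul_of_nonneg_left _ hVA
    apply mul_le_mul _ (by linarith) _ _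
    · exact mul_le_mul_of_nonneg_left h1 (Real.exp_pos _).le
    · have : 0 < (k : ℝ) - 1 := by linarith
      positivity
    · have : 0 < 1 - t := by linarith
      positivity
  -- the sites
  obtain ⟨U, hU⟩ : ∃ U : ℕ → ℕ → ℝ, U = fun h n => if ∀ p ∈ A, ¬ p ∣ n + ρ h p then 1 else 0 := ⟨_, rfl⟩
  have hUv : ∀ h n, U h n = if ∀ p ∈ A, ¬ p ∣ n + ρ h p then 1 else 0 := fun h n => by rw [hU]
  have hmain := sites hD H ρ (U := U) (fun h n => by rw [hUv]; split_ifs <;> norm_num)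
    (fun h n => by rw [hUv]; split_ifs <;> norm_num) (fun h p hp n => by
      rw [hUv, hUv]
      refine if_congr ?_ rfl rfl
      refine forall₂_congr fun q hq => not_congr ?_
      refine dvd_shift ?_
      have h1 := hAm q hq
      have h2 := (hPm p hp).1
      refine dvd_compl h2.1 (hPN q (by rw [hA, mem_filter] at hq; exact hq.1)) fun h3 => ?_
      have h4 := (Nat.prime_dvd_prime_iff_eq h2.1 h1.1).1 h3
      omega) (fun p hp => hρ p (hPm p hp).2 (hPB p hp))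
    I f (fun i => (d i).primeFactors) (Λ := Λ) (fun i hi => ⟨fun p hp hpd => by
      refine per_of_dvd (hf i hi).2.2 (dvd_compl (hPm p hp).1.1 (hIN i hi) fun h1 => hpd ?_)
      exact Nat.mem_primeFactors.2 ⟨(hPm p hp).1.1, h1, (hf i hi).1.ne'⟩, by
      have h1 : ∏ p ∈ P.filter (fun p => p ∈ (d i).primeFactors), p ∣ d i := by
        have h2 : ∏ p ∈ P.filter (fun p => p ∈ (d i).primeFactors), p ∣
            ∏ p ∈ (d i).primeFactors, p :=
          prod_dvd_prod_of_subset _ _ _ fun p hp => (mem_filter.1 hp).2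
        exact h2.trans (Nat.prod_primeFactors_dvd (d i))
      have h3 := Nat.le_of_dvd (hf i hi).1 h1
      have h4 : lg (P.filter (fun p => p ∈ (d i).primeFactors)) =
          Real.log ((∏ p ∈ P.filter (fun p => p ∈ (d i).primeFactors), p : ℕ) : ℝ) := by
        unfold lg
        push_cast
        rw [Real.log_prod]
        intro p hp
        exact_mod_cast (hPm p (mem_filter.1 hp).1).1.1.ne_zero
      rw [h4]
      refine le_trans (Real.log_le_log ?_ ?_) (hf i hi).2.1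
      · exact_mod_cast prod_pos fun p hp => (hPm p (mem_filter.1 hp).1).1.1.pos
      · exact_mod_cast h3⟩) hF hFN (la := (1 + t) * Λ) (Cm := Cm) (Y := Y)
    (by nlinarith) (by omega) hCm0 hYr (fun p hp => by
      have h1 : Y + 1 ≤ p := (hPm p hp).1.2
      have h2 : (Y : ℝ) + 1 ≤ p := by exact_mod_cast h1
      linarith) (by
      rw [hH]
      exact hG)
  rw [hH] at hmain
  -- conclusion
  have hleft : ∑ h ∈ H, ∑ n ∈ range N, (if ∀ p ∈ P0, ¬ p ∣ n + ρ h p then (∑ i ∈ I, f i n) ^ 2 else 0) ≤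
      ∑ h ∈ H, ∑ n ∈ range N, U h n * (if ∀ p ∈ P, ¬ p ∣ n + ρ h p then F n ^ 2 else 0) := by
    refine sum_le_sum fun h _ => sum_le_sum fun n _ => ?_
    rw [hUv, hF]
    by_cases h1 : ∀ p ∈ P0, ¬ p ∣ n + ρ h p
    · rw [if_pos h1, if_pos (fun p hp => h1 p (by rw [hA, mem_filter] at hp; exact hp.1)),
        if_pos (fun p hp => h1 p (hPm p hp).2), one_mul]
    · rw [if_neg h1]
      apply mul_nonneg
      · split_ifs <;> norm_num
      · split_ifs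
        · exact sq_nonneg _
        · exact le_rfl
  refine hleft.trans (hmain.trans ?_)
  have hFs : ∑ n ∈ range N, F n ^ 2 = ∑ n ∈ range N, (∑ i ∈ I, f i n) ^ 2 := by rw [hF]
  rw [hFs, hVsplit]
  obtain ⟨SS, hSS⟩ : ∃ SS : ℝ, SS = ∑ n ∈ range N, (∑ i ∈ I, f i n) ^ 2 := ⟨_, rfl⟩
  rw [← hSS]
  have hSS0 : 0 ≤ SS := by rw [hSS]; exact sum_nonneg fun _ _ => sq_nonneg _
  have h1 : (1 + t) * Λ + Λ / Y ≤ (1 + 2 * t) * Λ := by
    have h2 : Λ / Y ≤ t * Λ := by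
      rw [div_le_iff₀ hYr]
      have h3 : 1 ≤ t * Y := by
        rw [div_le_iff₀ ht0] at hYt
        linarith
      nlinarith
    linarith
  have h2 : (k : ℝ) * ((1 + t) * Λ + Λ / Y) * SS ≤ k * (1 + 2 * t) * (Λ * SS) := by
    have h3 := mul_le_mul_of_nonneg_right (mul_le_mul_of_nonneg_left h1 (by linarith : (0 : ℝ) ≤ k)) hSS0
    linarith
  have h3 : 0 ≤ (k : ℝ) * ((1 + t) * Λ + Λ / Y) * SS := by positivity
  have h4 : Cm * ((k : ℝ) * ((1 + t) * Λ + Λ / Y) * SS) ≤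
      ((∏ p ∈ A, (1 - 1 / (p : ℝ))) * (Real.exp (2 * t) * (1 / (1 - t)) * (t + Real.log k / (k - 1)))) *
        (k * (1 + 2 * t) * (Λ * SS)) := mul_le_mul hCm1 h2 h3 (by
      have h5 : 0 < (k : ℝ) - 1 := by linarith
      have h6 : 0 < 1 - t := by linarith
      positivity)
  have h5 : ((∏ p ∈ A, (1 - 1 / (p : ℝ))) * (Real.exp (2 * t) * (1 / (1 - t)) * (t + Real.log k / (k - 1)))) *
        (k * (1 + 2 * t) * (Λ * SS)) ≤ (∏ p ∈ A, (1 - 1 / (p : ℝ))) * ((∏ p ∈ Bp, (1 - 1 / (p : ℝ))) *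
        ((k * Real.log k / (k - 1) + ε) * Λ * SS)) := by
    rw [mul_assoc]
    apply mul_le_mul_of_nonneg_left _ hVA
    have h6 := mul_le_mul_of_nonneg_right ht (by positivity : 0 ≤ Λ * SS)
    have h7 : 0 ≤ Real.exp (2 * t) * (1 / (1 - t)) * (t + Real.log k / (k - 1)) * (k * (1 + 2 * t) * (Λ * SS)) := by
      have h5 : 0 < (k : ℝ) - 1 := by linarith
      have h6 : 0 < 1 - t := by linarith
      positivity
    have h8 := mul_le_mul_of_nonneg_right hVB h7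
    rw [one_mul] at h8
    refine h8.trans ?_
    have hB0 : 0 ≤ ∏ p ∈ Bp, (1 - 1 / (p : ℝ)) :=
      prod_nonneg fun p hp => fac_nn (by exact_mod_cast (hBm p hp).1.1.two_le)
    have h9 := mul_le_mul_of_nonneg_left h6 hB0
    have h10 : Real.exp (3 * t) = Real.exp t * Real.exp (2 * t) := by rw [← Real.exp_add]; ring_nf
    rw [h10] at h9
    refine le_trans (le_of_eq ?_) (h9.trans (le_of_eq ?_))
    · ring
    · ring
  have h6 := mul_le_mul_of_nonneg_left (h4.trans h5) hVP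
  calc _ = _ := ?_
    _ ≤ _ := h6
    _ = _ := ?_
  · ring
  · ring

end Pool.Agent.N422.MT
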