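import Mathlib
import Pool.Agent.TH841.NO.Fin
import Pool.Agent.TH841.LS.Main5
import Pool.Agent.R431.NO.Fin
import Pool.Agent.R421.UR.PenA

/-!
# The normal order of the 2-power torsion of the Tate-Shafarevich groups in a pencil

One point of order two.
-/

set_option autoImplicit false
set_option linter.all false

namespace Pool.Agent.N422.PN

open Finset Polynomial

open Pool.Agent.TH841.SH.D (rk)

open Pool.Agent.TH841.LS (GA GD C1x C2x CNTX DG FP_eq sc cst_eq big_loglog one_curve3)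

open Pool.Agent.TH841.PT (EQ Irr)

open Pool.Agent.TH841.TR (UP FP allf allc fp)

open Pool.Agent.TH841.NO (fo one CNTU S2 C1g C2g)

open Pool.Agent.W307.SE (SN SN_nonneg Sel)

open Pool.Agent.W262.RK (fs)

open Pool.Agent.R431.NO (OkS conv)

section

variable {n : Fin 3 → ℕ} {m : ℕ}

lemma dg_ne {c : ℤ} {g : Fin m → ℤ[X]} {f : ∀ k : Fin 3, Fin (n k) → ℤ[X]} (hc : c ≠ 0)
    (hf : Irr (allf g f)) : DG c g ≠ 0 := by
  unfold DG
  exact mul_ne_zero (C_ne_zero.2 hc)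
    (prod_ne_zero_iff.2 fun i _ => (hf.irr (Sum.inr i)).ne_zero)

lemma dg_dvd {c : ℤ} {g : Fin m → ℤ[X]} {f : ∀ k : Fin 3, Fin (n k) → ℤ[X]} (hc : c ≠ 0)
    (hf : Irr (allf g f)) (k : Fin 3) (i : Fin (n k)) : ¬ f k i ∣ DG c g := by
  intro hdvd
  have hirr : Irreducible (f k i) := hf.irr (Sum.inl ⟨k, i⟩)
  have hp : Prime (f k i) := hirr.prime
  unfold DG at hdvd
  rcases hp.dvd_or_dvd hdvd with h1 | h1
  · have h2 := natDegree_le_of_dvd h1 (C_ne_zero.2 hc)
    rw [natDegree_C] at h2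
    have h3 : 0 < (f k i).natDegree := hf.deg (Sum.inl ⟨k, i⟩)
    omega
  · obtain ⟨l, _, hl⟩ := (Prime.dvd_finsetProd_iff hp _).1 h1
    have h2 : Associated (f k i) (g l) :=
      hirr.associated_of_dvd (hf.irr (Sum.inr l)) hl
    exact hf.assoc (Sum.inl ⟨k, i⟩) (Sum.inr l) (by simp) h2

open Classical in
/-- one point of order two -/
theorem pen1 (a : Fin 3 → ℤ) (f : ∀ k : Fin 3, Fin (n k) → ℤ[X]) (c : ℤ) (g : Fin m → ℤ[X])
    (ha : ∀ k, a k ≠ 0) (hc : c ≠ 0) (hf : Irr (allf g f))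
    (hU : UP a f 0 - UP a f 1 = UP a f 2)
    (hB : Pool.Agent.R421.UR.BalA (DG c g) a f) (δ ε : ℝ) (L : ℕ)
    (hδ : 0 < δ) (hε : 0 < ε) :
    ∃ R M0 : ℕ, ∀ (N : ℤ) (M : ℕ), M0 ≤ M → |N| ≤ (M : ℤ) ^ L →
      (((Ioc N (N + (M : ℤ))).filter (fun t => ¬ OkS ((sc a f c g - δ) * Real.log (Real.log M))
        ((sc a f c g + δ) * Real.log (Real.log M)) R
        ((DG c g * UP a f 0).eval t, (DG c g * UP a f 1).eval t))).card : ℝ) ≤ ε * M := by
  have ha' : ∀ k, (fun k => c * a k) k ≠ 0 := fun k => mul_ne_zero hc (ha k)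
  have hf0 : Irr (fp f) := by
    refine ⟨fun x => hf.irr (Sum.inl x), fun x => hf.deg (Sum.inl x), fun x y hxy => ?_⟩
    exact hf.assoc (Sum.inl x) (Sum.inl y) (fun h => hxy (Sum.inl_injective h))
  have hD : DG c g ≠ 0 := dg_ne hc hf
  have hDf : ∀ k i, ¬ f k i ∣ DG c g := dg_dvd hc hf
  obtain ⟨α, hα0, hα1, hα⟩ := Pool.Agent.R421.UR.pen_allA a f ha hf0 hU (DG c g) hD hDf hB
  obtain ⟨C0, hC0, hC⟩ := hα L
  have hP : ∀ k, C ((fun k => c * a k) k) * ∏ l ∈ fs (allc n m) k, allf g f l =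
      FP (fun k => c * a k) g f k := by
    intro k
    rw [Pool.Agent.TH841.TR.prod_allc]
    unfold FP
    rw [mul_assoc]
    rfl
  have hV : ∀ k t, Pool.Agent.TH841.PT.Fval (allc n m) (fun k => c * a k) (fun l => (allf g f l).eval t) k =
      (DG c g * UP a f k).eval t := by
    intro k t
    rw [← FP_eq, ← hP k, eval_mul, eval_C, eval_prod]
    rfl
  have hE : ∀ k t, (∀ j, (allf g f j).eval t ≠ 0) → (DG c g * UP a f k).eval t ≠ 0 := by
    intro k t ht
    rw [← FP_eq, ← hP k, eval_mul, eval_C, eval_prod]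
    exact mul_ne_zero (ha' k) (prod_ne_zero_iff.2 fun j _ => ht j)
  have hF' : FP (fun k => c * a k) g f 0 - FP (fun k => c * a k) g f 1 =
      FP (fun k => c * a k) g f 2 := by
    rw [FP_eq, FP_eq, FP_eq, ← mul_sub, hU]
  have hcnt' := Pool.Agent.TH841.LS.CNTXf.cntx_of Pool.Agent.TH841.LS.TKXf.tkx
    ((Σ k : Fin 3, Fin (n k)) ⊕ Fin m) (allc n m) (fun k => c * a k) (allf g f)
    ha' hf (by rw [hP, hP, hP]; exact hF') (δ / 2) (ε / 4) L (by positivity) (by positivity)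
  have hcnu' := Pool.Agent.TH841.NO.CNTUf.cntu_of Pool.Agent.TH841.LS.TKXf.tkx
    Pool.Agent.TH841.NO.TKLf.tkl
    ((Σ k : Fin 3, Fin (n k)) ⊕ Fin m) (allc n m) (fun k => c * a k) (allf g f)
    ha' hf (by rw [hP, hP, hP]; exact hF') (δ / 2) (ε / 4) L (by positivity) (by positivity)
  simp only [hV, cst_eq hc] at hcnt' hcnu'
  obtain ⟨M1, hM1⟩ := hcnt'
  obtain ⟨M4, hM4⟩ := hcnu'
  -- the ranks
  obtain ⟨R, hR⟩ : ∃ R : ℕ, 4 * C0 / ε ≤ ((2 : ℝ) ^ (R + 1)) ^ α := by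
    obtain ⟨R, hR⟩ := pow_unbounded_of_one_lt (4 * C0 / ε)
      (Real.one_lt_rpow (one_lt_two : (1 : ℝ) < 2) hα0)
    refine ⟨R, hR.le.trans ?_⟩
    rw [← Real.rpow_natCast, ← Real.rpow_natCast, ← Real.rpow_mul (by norm_num),
      ← Real.rpow_mul (by norm_num)]
    refine Real.rpow_le_rpow_of_exponent_le (by norm_num) ?_
    push_cast
    nlinarith
  -- large `M`
  obtain ⟨M3, hM3⟩ := big_loglog (δ / 2) ((R : ℝ) + 11) (by positivity)
  refine ⟨R + 1, M1 + M3 + M4 + 1, fun N M hM hN => ?_⟩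
  have h1 := hM1 N M (by omega) hN
  have h1' := hM4 N M (by omega) hN
  have h3 := hC N M (by omega) hN
  have h4 := hM3 M (by omega)
  set Q : ℤ → ℝ := fun t => SN ((DG c g * UP a f 0).eval t) ((DG c g * UP a f 1).eval t) with hQ
  -- the arguments with large rank
  let X4 : Finset ℤ := (Ioc N (N + (M : ℤ))).filter
    (fun t => (∀ k, (DG c g * UP a f k).eval t ≠ 0) ∧ 2 ^ (R + 1) ≤ Q t)
  have c4 : (X4.card : ℝ) ≤ ε / 4 * M := by
    have h6 : ∀ t ∈ X4, ((2 : ℝ) ^ (R + 1)) ^ α ≤ Q t ^ α := fun t ht =>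
      Real.rpow_le_rpow (by positivity) (mem_filter.1 ht).2.2 hα0.le
    have h7 : ((X4.card : ℝ)) * ((2 : ℝ) ^ (R + 1)) ^ α ≤ C0 * M := by
      rw [← nsmul_eq_mul]
      refine (card_nsmul_le_sum _ _ _ h6).trans (le_trans ?_ h3)
      refine sum_le_sum_of_subset_of_nonneg (f := fun t => Q t ^ α) ?_
        fun t _ _ => Real.rpow_nonneg (SN_nonneg _ _) _
      intro t ht
      obtain ⟨ht1, ht2, _⟩ := mem_filter.1 ht
      exact mem_filter.2 ⟨ht1, ht2⟩
    have h8 : (0 : ℝ) < ((2 : ℝ) ^ (R + 1)) ^ α := by positivity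
    rw [div_le_iff₀ hε] at hR
    have h9 : C0 * M ≤ (ε / 4 * M) * ((2 : ℝ) ^ (R + 1)) ^ α := by
      have h10 : (0 : ℝ) ≤ M := Nat.cast_nonneg _
      nlinarith
    exact le_of_mul_le_mul_right (h7.trans h9) h8
  -- the sets of exceptions
  let X1 : Finset ℤ := (Ioc N (N + (M : ℤ))).filter (fun t => ¬ ((∀ j, (allf g f j).eval t ≠ 0) ∧
      (sc a f c g - δ / 2) * Real.log (Real.log M) +
      ((C1x ((DG c g * UP a f 0).eval t) ((DG c g * UP a f 1).eval t)).card : ℝ) +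
      ((C2x ((DG c g * UP a f 0).eval t) ((DG c g * UP a f 1).eval t)).card : ℝ) ≤
      ((GA ((DG c g * UP a f 0).eval t) ((DG c g * UP a f 1).eval t)).card : ℝ) +
      ((GD ((DG c g * UP a f 0).eval t) ((DG c g * UP a f 1).eval t)).card : ℝ)))
  let X2 : Finset ℤ := (Ioc N (N + (M : ℤ))).filter (fun t => ¬ ((∀ j, (allf g f j).eval t ≠ 0) ∧
      ((S2 ((DG c g * UP a f 0).eval t) ((DG c g * UP a f 1).eval t)).card : ℝ) ≤
      ((C1g ((DG c g * UP a f 0).eval t) ((DG c g * UP a f 1).eval t)).card : ℝ) +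
      ((C2g ((DG c g * UP a f 0).eval t) ((DG c g * UP a f 1).eval t)).card : ℝ) +
      (sc a f c g + δ / 2) * Real.log (Real.log M)))
  have c1 : (X1.card : ℝ) ≤ ε / 4 * M := by convert h1
  have c2 : (X2.card : ℝ) ≤ ε / 4 * M := by convert h1'
  have h10 : (Ioc N (N + (M : ℤ))).filter (fun t => ¬ OkS
        ((sc a f c g - δ) * Real.log (Real.log M))
        ((sc a f c g + δ) * Real.log (Real.log M)) (R + 1)
        ((DG c g * UP a f 0).eval t, (DG c g * UP a f 1).eval t)) ⊆ (X1 ∪ X2) ∪ X4 := by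
    intro t ht
    obtain ⟨ht1, ht2⟩ := mem_filter.1 ht
    by_contra hcon
    rw [mem_union, mem_union, not_or, not_or] at hcon
    obtain ⟨⟨n1, n2⟩, n4⟩ := hcon
    have n1' := not_not.1 (fun h' => n1 (mem_filter.2 ⟨ht1, h'⟩))
    have n2' := not_not.1 (fun h' => n2 (mem_filter.2 ⟨ht1, h'⟩))
    have e1 : ∀ k, (DG c g * UP a f k).eval t ≠ 0 := fun k => hE k t n1'.1
    have n4' : Q t < 2 ^ (R + 1) := by
      by_contra h'
      exact n4 (mem_filter.2 ⟨ht1, e1, not_lt.1 h'⟩)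
    apply ht2
    have e2 : (DG c g * UP a f 0).eval t ≠ (DG c g * UP a f 1).eval t := by
      intro h'
      apply e1 2
      rw [← hU, mul_sub, eval_sub, h', sub_self]
    obtain ⟨o1, o2, o3, o4⟩ := one Pool.Agent.TH841.NO.QULf.qul Pool.Agent.TH841.NO.QUMf.qum
      Pool.Agent.TH841.NO.LWAf.lwa Pool.Agent.TH841.NO.LWBf.lwb Pool.Agent.TH841.NO.LWBf.lwc
      Pool.Agent.TH841.NO.PRf.pra Pool.Agent.TH841.NO.PRf.prb Pool.Agent.TH841.NO.LIN2f.lin2
      (e1 0) (e1 1) e2 n4'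
    have key := one_curve3 ((DG c g * UP a f 0).eval t)
      ((DG c g * UP a f 1).eval t) 1 e2 (e1 0) (e1 1) one_ne_zero n4'
    rw [one_pow, mul_one, mul_one] at key
    obtain ⟨p1, p2, k, p3, p4⟩ := key
    refine ⟨e1 0, e1 1, e2, conv p1 p2, ?_, k, ?_, p4⟩
    · have o2' : (fo (-((DG c g * UP a f 0).eval t + (DG c g * UP a f 1).eval t))
            ((DG c g * UP a f 0).eval t * (DG c g * UP a f 1).eval t) : ℝ) +
          (((C1g ((DG c g * UP a f 0).eval t) ((DG c g * UP a f 1).eval t)).card : ℝ) +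
          ((C2g ((DG c g * UP a f 0).eval t) ((DG c g * UP a f 1).eval t)).card : ℝ)) ≤
          ((S2 ((DG c g * UP a f 0).eval t) ((DG c g * UP a f 1).eval t)).card : ℝ) + R + 11 := by
        exact_mod_cast o2
      linarith [n2'.2]
    · have p3' : ((GA ((DG c g * UP a f 0).eval t) ((DG c g * UP a f 1).eval t)).card : ℝ) +
          ((GD ((DG c g * UP a f 0).eval t) ((DG c g * UP a f 1).eval t)).card : ℝ) ≤
          k + ((C1x ((DG c g * UP a f 0).eval t) ((DG c g * UP a f 1).eval t)).card : ℝ) +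
          ((C2x ((DG c g * UP a f 0).eval t) ((DG c g * UP a f 1).eval t)).card : ℝ) + R + 7 := by
        exact_mod_cast p3
      linarith [n1'.2]
  have h11 := (card_le_card h10).trans ((card_union_le _ _).trans
    (Nat.add_le_add_right (card_union_le _ _) _))
  have h14 : (((Ioc N (N + (M : ℤ))).filter (fun t => ¬ OkS
        ((sc a f c g - δ) * Real.log (Real.log M))
        ((sc a f c g + δ) * Real.log (Real.log M)) (R + 1)
        ((DG c g * UP a f 0).eval t, (DG c g * UP a f 1).eval t))).card : ℝ) ≤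
      ((X1.card : ℝ) + (X2.card : ℝ)) + (X4.card : ℝ) := by
    exact_mod_cast h11
  have h15 : (0 : ℝ) ≤ ε / 4 * M := by positivity
  linarith

end

end Pool.Agent.N422.PN
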