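import Mathlib
import Pool.Agent.N422.PN1

/-!
# The normal order of the 2-power torsion of the Tate-Shafarevich groups in a pencil

The three points of order two.
-/

set_option autoImplicit false
set_option linter.all false

namespace Pool.Agent.N422.PN

open Finset Polynomial

open Pool.Agent.TH841.SH.D (rk Sha)

open Pool.Agent.TH841.LS (DG sc SqMod WI)

open Pool.Agent.TH841.PT (EQ Irr)

open Pool.Agent.TH841.TR (UP allf vp SqM vp_zero vp_one vp_two)

open Pool.Agent.R431.NO (OkS)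

open Pool.Agent.R421.UR (BalA)

open Pool.Agent.Y676.IS (tri)

section

variable {n : Fin 3 → ℕ} {m : ℕ}

/-- the permutation of the classes -/
def sg : Fin 3 → Fin 3 → Fin 3 := ![![0, 1, 2], ![0, 2, 1], ![1, 2, 0]]

/-- the signs -/
def sn : Fin 3 → Fin 3 → ℤ := ![![1, 1, 1], ![-1, -1, -1], ![-1, 1, -1]]

lemma sg_inj (i : Fin 3) : Function.Injective (sg i) := by
  revert i
  decide

lemma sn_ne (i k : Fin 3) : sn i k ≠ 0 := by
  revert i k
  decide

/-- the rotated constants -/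
def ra (a : Fin 3 → ℤ) (i : Fin 3) (k : Fin 3) : ℤ := sn i k * a (sg i k)

/-- the rotated factors -/
def rf (f : ∀ k : Fin 3, Fin (n k) → ℤ[X]) (i : Fin 3) : ∀ k : Fin 3, Fin (n (sg i k)) → ℤ[X] :=
  fun k => f (sg i k)

lemma UP_rot (a : Fin 3 → ℤ) (f : ∀ k : Fin 3, Fin (n k) → ℤ[X]) (i k : Fin 3) :
    UP (ra a i) (rf f i) k = C (sn i k) * UP a f (sg i k) := by
  unfold UP ra rf
  rw [C_mul, mul_assoc]

lemma irr_rot {g : Fin m → ℤ[X]} {f : ∀ k : Fin 3, Fin (n k) → ℤ[X]} (hf : Irr (allf g f))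
    (i : Fin 3) : Irr (allf g (rf f i)) := by
  set e : (Σ k : Fin 3, Fin (n (sg i k))) ⊕ Fin m → (Σ k : Fin 3, Fin (n k)) ⊕ Fin m :=
    Sum.map (fun x => ⟨sg i x.1, x.2⟩) id with he
  have e1 : ∀ x, allf g (rf f i) x = allf g f (e x) := by
    rintro (⟨k, j⟩ | j)
    · rfl
    · rfl
  have e2 : Function.Injective e := by
    rw [he]
    refine Sum.map_injective.2 ⟨?_, Function.injective_id⟩
    rintro ⟨k, x⟩ ⟨l, y⟩ h
    have h1 : sg i k = sg i l := congrArg Sigma.fst h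
    have h2 := sg_inj i h1
    subst h2
    simpa using h
  refine ⟨fun x => ?_, fun x => ?_, fun x y hxy => ?_⟩
  · rw [e1]
    exact hf.irr _
  · rw [e1]
    exact hf.deg _
  · rw [e1, e1]
    exact hf.assoc _ _ fun h => hxy (e2 h)

lemma rel_rot {a : Fin 3 → ℤ} {f : ∀ k : Fin 3, Fin (n k) → ℤ[X]}
    (hU : UP a f 0 - UP a f 1 = UP a f 2) (i : Fin 3) :
    UP (ra a i) (rf f i) 0 - UP (ra a i) (rf f i) 1 = UP (ra a i) (rf f i) 2 := by
  rw [UP_rot, UP_rot, UP_rot]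
  fin_cases i
  · show C (1 : ℤ) * UP a f 0 - C (1 : ℤ) * UP a f 1 = C (1 : ℤ) * UP a f 2
    rw [← hU, C_1]
    ring
  · show C (-1 : ℤ) * UP a f 0 - C (-1 : ℤ) * UP a f 2 = C (-1 : ℤ) * UP a f 1
    rw [← hU, C_neg, C_1]
    ring
  · show C (-1 : ℤ) * UP a f 1 - C (1 : ℤ) * UP a f 2 = C (-1 : ℤ) * UP a f 0
    rw [← hU, C_neg, C_1]
    ring

lemma tri_rot (D : ℤ[X]) {a : Fin 3 → ℤ} {f : ∀ k : Fin 3, Fin (n k) → ℤ[X]}
    (hU : UP a f 0 - UP a f 1 = UP a f 2) (t : ℤ) (i : Fin 3) :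
    ((D * UP (ra a i) (rf f i) 0).eval t, (D * UP (ra a i) (rf f i) 1).eval t) =
      tri i ((D * UP a f 0).eval t) ((D * UP a f 1).eval t) := by
  have h2 : (UP a f 2).eval t = (UP a f 0).eval t - (UP a f 1).eval t := by
    rw [← hU, eval_sub]
  rw [UP_rot, UP_rot]
  simp only [eval_mul, eval_C]
  fin_cases i
  · show (D.eval t * (1 * (UP a f 0).eval t), D.eval t * (1 * (UP a f 1).eval t)) =
      (D.eval t * (UP a f 0).eval t, D.eval t * (UP a f 1).eval t)
    rw [one_mul, one_mul]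
  · show (D.eval t * (-1 * (UP a f 0).eval t), D.eval t * (-1 * (UP a f 2).eval t)) =
      (-(D.eval t * (UP a f 0).eval t),
        D.eval t * (UP a f 1).eval t - D.eval t * (UP a f 0).eval t)
    rw [h2]
    exact Prod.ext (by ring) (by ring)
  · show (D.eval t * (-1 * (UP a f 1).eval t), D.eval t * (1 * (UP a f 2).eval t)) =
      (-(D.eval t * (UP a f 1).eval t),
        D.eval t * (UP a f 0).eval t - D.eval t * (UP a f 1).eval t)
    rw [h2]
    exact Prod.ext (by ring) (by ring)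

lemma sqM_congr {f v w : ℤ[X]} (h : f ∣ v - w) (hv : SqM f v) : SqM f w := by
  obtain ⟨q, hq⟩ := hv
  refine ⟨q, ?_⟩
  have h1 : f.map (Int.castRingHom ℚ) ∣ (v - w).map (Int.castRingHom ℚ) :=
    Polynomial.map_dvd _ h
  have h2 : q ^ 2 - w.map (Int.castRingHom ℚ) =
      (q ^ 2 - v.map (Int.castRingHom ℚ)) + (v - w).map (Int.castRingHom ℚ) := by
    rw [Polynomial.map_sub]
    ring
  rw [h2]
  exact dvd_add hq h1

lemma sqM_iff {f v w : ℤ[X]} (h : f ∣ v - w) : SqM f v ↔ SqM f w :=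
  ⟨sqM_congr h, sqM_congr (by rw [← neg_sub]; exact (dvd_neg).2 h)⟩

lemma dvd_UP (a : Fin 3 → ℤ) (f : ∀ k : Fin 3, Fin (n k) → ℤ[X]) (k : Fin 3) (i : Fin (n k)) :
    f k i ∣ UP a f k :=
  Dvd.dvd.mul_left (dvd_prod_of_mem _ (mem_univ i)) _

/-- the tangent directions do not depend on the point of order two -/
lemma vp_rot (D : ℤ[X]) {a : Fin 3 → ℤ} {f : ∀ k : Fin 3, Fin (n k) → ℤ[X]}
    (hU : UP a f 0 - UP a f 1 = UP a f 2) (i k : Fin 3) :
    UP a f (sg i k) ∣ vp D (ra a i) (rf f i) k - vp D a f (sg i k) := by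
  fin_cases i
  · have g0' : UP (ra a 0) (rf f 0) 0 = UP a f 0 := by
      refine (UP_rot a f 0 0).trans ?_
      show C (1 : ℤ) * UP a f 0 = UP a f 0
      rw [C_1, one_mul]
    have g1' : UP (ra a 0) (rf f 0) 1 = UP a f 1 := by
      refine (UP_rot a f 0 1).trans ?_
      show C (1 : ℤ) * UP a f 1 = UP a f 1
      rw [C_1, one_mul]
    fin_cases k
    · show UP a f 0 ∣ vp D (ra a 0) (rf f 0) 0 - vp D a f 0
      rw [vp_zero, vp_zero, g1', sub_self]
      exact dvd_zero _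
    · show UP a f 1 ∣ vp D (ra a 0) (rf f 0) 1 - vp D a f 1
      rw [vp_one, vp_one, g0', sub_self]
      exact dvd_zero _
    · show UP a f 2 ∣ vp D (ra a 0) (rf f 0) 2 - vp D a f 2
      rw [vp_two, vp_two, g0', sub_self]
      exact dvd_zero _
  · have g0' : UP (ra a 1) (rf f 1) 0 = -UP a f 0 := by
      refine (UP_rot a f 1 0).trans ?_
      show C (-1 : ℤ) * UP a f 0 = -UP a f 0
      rw [C_neg, C_1]
      ring
    have g1' : UP (ra a 1) (rf f 1) 1 = -UP a f 2 := by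
      refine (UP_rot a f 1 1).trans ?_
      show C (-1 : ℤ) * UP a f 2 = -UP a f 2
      rw [C_neg, C_1]
      ring
    fin_cases k
    · show UP a f 0 ∣ vp D (ra a 1) (rf f 1) 0 - vp D a f 0
      rw [vp_zero, vp_zero, g1', ← hU]
      exact ⟨D, by ring⟩
    · show UP a f 2 ∣ vp D (ra a 1) (rf f 1) 1 - vp D a f 2
      rw [vp_one, vp_two, g0']
      exact ⟨0, by ring⟩
    · show UP a f 1 ∣ vp D (ra a 1) (rf f 1) 2 - vp D a f 1
      rw [vp_two, vp_one, g0']
      exact ⟨0, by ring⟩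
  · have g0' : UP (ra a 2) (rf f 2) 0 = -UP a f 1 := by
      refine (UP_rot a f 2 0).trans ?_
      show C (-1 : ℤ) * UP a f 1 = -UP a f 1
      rw [C_neg, C_1]
      ring
    have g1' : UP (ra a 2) (rf f 2) 1 = UP a f 2 := by
      refine (UP_rot a f 2 1).trans ?_
      show C (1 : ℤ) * UP a f 2 = UP a f 2
      rw [C_1, one_mul]
    fin_cases k
    · show UP a f 1 ∣ vp D (ra a 2) (rf f 2) 0 - vp D a f 1
      rw [vp_zero, vp_one, g1', ← hU]
      exact ⟨D, by ring⟩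
    · show UP a f 2 ∣ vp D (ra a 2) (rf f 2) 1 - vp D a f 2
      rw [vp_one, vp_two, g0', ← hU]
      exact ⟨-D, by ring⟩
    · show UP a f 0 ∣ vp D (ra a 2) (rf f 2) 2 - vp D a f 0
      rw [vp_two, vp_zero, g0']
      exact ⟨0, by ring⟩

open Classical in
/-- the number of the split factors -/
lemma card_rot (D : ℤ[X]) {a : Fin 3 → ℤ} {f : ∀ k : Fin 3, Fin (n k) → ℤ[X]}
    (hU : UP a f 0 - UP a f 1 = UP a f 2) (i k : Fin 3) :
    (univ.filter (fun j => SqM (rf f i k j) (vp D (ra a i) (rf f i) k))).card =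
      (univ.filter (fun j => SqM (f (sg i k) j) (vp D a f (sg i k)))).card := by
  congr 1
  refine filter_congr fun j _ => ?_
  exact sqM_iff ((dvd_UP a f (sg i k) j).trans (vp_rot D hU i k))

lemma sum_rot (i : Fin 3) : n (sg i 0) + n (sg i 1) + n (sg i 2) = n 0 + n 1 + n 2 := by
  fin_cases i
  · rfl
  · show n 0 + n 2 + n 1 = n 0 + n 1 + n 2
    omega
  · show n 1 + n 2 + n 0 = n 0 + n 1 + n 2
    omega

lemma bal_rot {D : ℤ[X]} {a : Fin 3 → ℤ} {f : ∀ k : Fin 3, Fin (n k) → ℤ[X]}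
    (hU : UP a f 0 - UP a f 1 = UP a f 2) (hB : BalA D a f) (i : Fin 3) :
    BalA D (ra a i) (rf f i) := by
  intro k
  rw [card_rot D hU i k, sum_rot i]
  exact hB (sg i k)

open Classical in
/-- the constants -/
noncomputable def ka (a : Fin 3 → ℤ) (f : ∀ k : Fin 3, Fin (n k) → ℤ[X]) (c : ℤ)
    (g : Fin m → ℤ[X]) (i : Fin 3) : ℝ :=
  (n 0 : ℝ) + n 1 + n 2 - (3 * n (sg i 2) +
    ((univ.filter (fun j => SqM (f (sg i 2) j) (vp (DG c g) a f (sg i 2)))).card : ℝ)) / 2 +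
    ((univ.filter (fun j => ¬ SqM (g j) (UP (ra a i) (rf f i) 0 *
      UP (ra a i) (rf f i) 1))).card : ℝ) / 2

lemma sc_rot {a : Fin 3 → ℤ} {f : ∀ k : Fin 3, Fin (n k) → ℤ[X]} (c : ℤ) (g : Fin m → ℤ[X])
    (hU : UP a f 0 - UP a f 1 = UP a f 2) (i : Fin 3) :
    sc (ra a i) (rf f i) c g = ka a f c g i := by
  classical
  have h1 := card_rot (DG c g) hU i 2
  have h2 : (univ.filter (fun j => SqMod (rf f i 2 j) (DG c g * UP (ra a i) (rf f i) 0))).card =
      (univ.filter (fun j => SqM (f (sg i 2) j) (vp (DG c g) a f (sg i 2)))).card := by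
    rw [← h1]
    congr 1
    refine filter_congr fun j _ => ?_
    rw [vp_two]
    exact Iff.rfl
  have h3 : ((n (sg i 0) : ℝ) + n (sg i 1) + n (sg i 2)) = (n 0 : ℝ) + n 1 + n 2 := by
    exact_mod_cast sum_rot (n := n) i
  unfold sc ka
  rw [← h3]
  have h4 : ((univ.filter (fun j => SqMod (rf f i 2 j)
      (DG c g * UP (ra a i) (rf f i) 0))).card : ℝ) =
      ((univ.filter (fun j => SqM (f (sg i 2) j) (vp (DG c g) a f (sg i 2)))).card : ℝ) := by
    exact_mod_cast h2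
  have h5 : ((univ.filter (fun j => ¬ SqMod (g j) (UP (ra a i) (rf f i) 0 *
      UP (ra a i) (rf f i) 1))).card : ℝ) = ((univ.filter (fun j => ¬ SqM (g j)
      (UP (ra a i) (rf f i) 0 * UP (ra a i) (rf f i) 1))).card : ℝ) := rfl
  rw [← h4, ← h5]
  ring

open Classical in
/-- **the three points of order two** -/
theorem pen3 (a : Fin 3 → ℤ) (f : ∀ k : Fin 3, Fin (n k) → ℤ[X]) (c : ℤ) (g : Fin m → ℤ[X])
    (ha : ∀ k, a k ≠ 0) (hc : c ≠ 0) (hf : Irr (allf g f))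
    (hU : UP a f 0 - UP a f 1 = UP a f 2)
    (hB : BalA (DG c g) a f) (δ ε : ℝ) (L : ℕ) (hδ : 0 < δ) (hε : 0 < ε) :
    ∃ R M0 : ℕ, ∀ (N : ℤ) (M : ℕ), M0 ≤ M → |N| ≤ (M : ℤ) ^ L →
      (((Ioc N (N + (M : ℤ))).filter (fun t => ¬ ∀ i : Fin 3,
        OkS ((ka a f c g i - δ) * Real.log (Real.log M))
        ((ka a f c g i + δ) * Real.log (Real.log M)) R
        (tri i ((DG c g * UP a f 0).eval t) ((DG c g * UP a f 1).eval t)))).card : ℝ) ≤
          ε * M := by
  have hh : ∀ i : Fin 3, _ := fun i => pen1 (ra a i) (rf f i) c g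
    (fun k => mul_ne_zero (sn_ne i k) (ha _)) hc (irr_rot hf i) (rel_rot hU i) (bal_rot hU hB i)
    δ (ε / 3) L hδ (by positivity)
  choose R M0 h using hh
  have hR : ∀ i, R i ≤ R 0 + R 1 + R 2 := by
    intro i
    fin_cases i
    · show R 0 ≤ _
      omega
    · show R 1 ≤ _
      omega
    · show R 2 ≤ _
      omega
  refine ⟨R 0 + R 1 + R 2, M0 0 + M0 1 + M0 2, fun N M hM hN => ?_⟩
  let X : Fin 3 → Finset ℤ := fun i => (Ioc N (N + (M : ℤ))).filter (fun t => ¬ OkS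
    ((sc (ra a i) (rf f i) c g - δ) * Real.log (Real.log M))
    ((sc (ra a i) (rf f i) c g + δ) * Real.log (Real.log M)) (R i)
    ((DG c g * UP (ra a i) (rf f i) 0).eval t, (DG c g * UP (ra a i) (rf f i) 1).eval t))
  have c0 : ((X 0).card : ℝ) ≤ ε / 3 * M := h 0 N M (by omega) hN
  have c1 : ((X 1).card : ℝ) ≤ ε / 3 * M := h 1 N M (by omega) hN
  have c2 : ((X 2).card : ℝ) ≤ ε / 3 * M := h 2 N M (by omega) hN
  have h10 : (Ioc N (N + (M : ℤ))).filter (fun t => ¬ ∀ i : Fin 3,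
        OkS ((ka a f c g i - δ) * Real.log (Real.log M))
        ((ka a f c g i + δ) * Real.log (Real.log M)) (R 0 + R 1 + R 2)
        (tri i ((DG c g * UP a f 0).eval t) ((DG c g * UP a f 1).eval t))) ⊆
      (X 0 ∪ X 1) ∪ X 2 := by
    intro t ht
    obtain ⟨ht1, ht2⟩ := mem_filter.1 ht
    by_contra hcon
    rw [mem_union, mem_union, not_or, not_or] at hcon
    obtain ⟨⟨n0, n1⟩, n2⟩ := hcon
    have hX : ∀ i, t ∉ X i := by
      intro i
      fin_cases i
      · exact n0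
      · exact n1
      · exact n2
    apply ht2
    intro i
    have h1 := not_not.1 (fun h' => hX i (mem_filter.2 ⟨ht1, h'⟩))
    rw [sc_rot c g hU i, tri_rot (DG c g) hU t i] at h1
    exact h1.mono le_rfl le_rfl (hR i)
  have h11 := (card_le_card h10).trans ((card_union_le _ _).trans
    (Nat.add_le_add_right (card_union_le _ _) _))
  have h14 : (((Ioc N (N + (M : ℤ))).filter (fun t => ¬ ∀ i : Fin 3,
        OkS ((ka a f c g i - δ) * Real.log (Real.log M))
        ((ka a f c g i + δ) * Real.log (Real.log M)) (R 0 + R 1 + R 2)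
        (tri i ((DG c g * UP a f 0).eval t) ((DG c g * UP a f 1).eval t)))).card : ℝ) ≤
      (((X 0).card : ℝ) + ((X 1).card : ℝ)) + ((X 2).card : ℝ) := by
    exact_mod_cast h11
  linarith

end

end Pool.Agent.N422.PN
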