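import Pool.Agent.Y835.SB.Fin

/-! Sums of squares of functions of bounded level and sieves by large primes: a two sided inequality for the weighted
number of survivors. The level inequality is `Pool.Agent.Y835.SB.anova` (helper835). Author: helper422. -/

set_option autoImplicit false

namespace Pool.Agent.N422.SQ

open Finset Pool.Agent.Y835.SB

/-- the inequality on one fibre -/
theorem fib2 {K p : ℕ} (g : ℕ → ℝ) (Z : Finset ℕ) (hZ : Z ⊆ range K)
    (hc : Z.card * p = K) (hK : 0 < K) {τ : ℝ} (hτ : 0 < τ) :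
    |∑ t ∈ Z, g t ^ 2 - 1 / (p : ℝ) * ∑ t ∈ range K, g t ^ 2| ≤
      τ / p * ∑ t ∈ range K, g t ^ 2 + (1 + 1 / τ) * ∑ t ∈ Z, (g t - (∑ t ∈ range K, g t) / K) ^ 2 +
        1 / (p : ℝ) * ∑ t ∈ range K, (g t - (∑ t ∈ range K, g t) / K) ^ 2 := by
  set c : ℝ := (∑ t ∈ range K, g t) / K with hcdef
  have hK0 : (0 : ℝ) < K := by exact_mod_cast hK
  have hp : 0 < p := by
    rcases Nat.eq_zero_or_pos p with h | h
    · rw [h, mul_zero] at hc; omega
    · exact h
  have hp0 : (0 : ℝ) < p := by exact_mod_cast hp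
  have hcard : (Z.card : ℝ) * p = K := by exact_mod_cast hc
  set m : ℝ := (Z.card : ℝ) with hm
  have hm0 : 0 < m := by
    by_contra h
    have : m * p ≤ 0 := mul_nonpos_of_nonpos_of_nonneg (not_lt.1 h) hp0.le
    linarith
  set A : ℝ := ∑ t ∈ Z, (g t - c) with hA
  set B : ℝ := ∑ t ∈ Z, (g t - c) ^ 2 with hB
  set G : ℝ := ∑ t ∈ range K, (g t - c) ^ 2 with hG
  have hB0 : 0 ≤ B := sum_nonneg fun _ _ => sq_nonneg _
  have hG0 : 0 ≤ G := sum_nonneg fun _ _ => sq_nonneg _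
  have hs : ∑ t ∈ range K, g t = c * K := by rw [hcdef]; field_simp
  have hs0 : ∑ t ∈ range K, (g t - c) = 0 := by
    rw [sum_sub_distrib, sum_const, card_range, nsmul_eq_mul, hs]; ring
  have hsq : ∑ t ∈ range K, g t ^ 2 = c ^ 2 * K + G := by
    have : ∑ t ∈ range K, g t ^ 2 = G + 2 * c * ∑ t ∈ range K, (g t - c) + K * c ^ 2 := by
      have e : (K : ℝ) * c ^ 2 = ∑ _t ∈ range K, c ^ 2 := by
        rw [sum_const, card_range, nsmul_eq_mul]
      rw [e, mul_sum, hG, ← sum_add_distrib, ← sum_add_distrib]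
      exact sum_congr rfl fun t _ => by ring
    rw [this, hs0]; ring
  have hZsq : ∑ t ∈ Z, g t ^ 2 = B + 2 * c * A + m * c ^ 2 := by
    have e : m * c ^ 2 = ∑ _t ∈ Z, c ^ 2 := by
      rw [sum_const, nsmul_eq_mul]
    rw [e, mul_sum, hB, ← sum_add_distrib, ← sum_add_distrib]
    exact sum_congr rfl fun t _ => by ring
  have hcs : A ^ 2 ≤ m * B := sq_sum_le_card_mul_sum_sq
  have hKm : (K : ℝ) = m * p := hcard.symm
  rw [hZsq, hsq]
  have e1 : B + 2 * c * A + m * c ^ 2 - 1 / (p : ℝ) * (c ^ 2 * K + G) = B + 2 * c * A - 1 / (p : ℝ) * G := by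
    rw [hKm]
    field_simp
    ring
  rw [e1]
  have h4 : |2 * c * A| ≤ τ * (m * c ^ 2) + 1 / τ * B := by
    have h5 : (2 * c * A) ^ 2 ≤ (τ * (m * c ^ 2) + 1 / τ * B) ^ 2 := by
      have h6 : (2 * c * A) ^ 2 ≤ 4 * c ^ 2 * (m * B) := by nlinarith [sq_nonneg c]
      have h7 : (τ * (m * c ^ 2) + 1 / τ * B) ^ 2 = (τ * (m * c ^ 2) - 1 / τ * B) ^ 2 + 4 * c ^ 2 * (m * B) := by
        field_simp
        ring
      rw [h7]
      have := sq_nonneg (τ * (m * c ^ 2) - 1 / τ * B)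
      linarith
    exact abs_le_of_sq_le_sq h5 (add_nonneg (mul_nonneg hτ.le (mul_nonneg hm0.le (sq_nonneg c))) (mul_nonneg (by positivity) hB0))
  have h5 : τ * (m * c ^ 2) ≤ τ / p * (c ^ 2 * K + G) := by
    have e2 : τ / p * (c ^ 2 * K + G) = τ * (m * c ^ 2) + τ / p * G := by
      rw [hKm]
      field_simp
    rw [e2]
    have : 0 ≤ τ / p * G := by positivity
    linarith
  have h6 : 0 ≤ 1 / (p : ℝ) * G := by positivity
  have h7 := abs_le.1 h4
  rw [abs_le]
  constructor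
  · linarith [h7.1]
  · linarith [h7.2]

open Classical in
/-- one step of the recursion at one site -/
theorem step2 {N M K p k : ℕ} (hp : p.Prime) (hN : M * K = N) (hK : K = p ^ k) (hk : 1 ≤ k)
    (hM : ¬ p ∣ M) {F U : ℕ → ℝ} (hF : Function.Periodic F N) (hU : Function.Periodic U M)
    (hU0 : ∀ n, 0 ≤ U n) (h : ℕ) {τ : ℝ} (hτ : 0 < τ) :
    |∑ n ∈ range N, (if p ∣ n + h then F n ^ 2 else 0) * U n - 1 / (p : ℝ) * ∑ n ∈ range N, F n ^ 2 * U n| ≤
      τ / p * ∑ n ∈ range N, F n ^ 2 * U n +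
      (1 + 1 / τ) * ∑ n ∈ range N, (if p ∣ n + h then (F n - Av M K F n) ^ 2 else 0) * U n +
      1 / (p : ℝ) * ∑ n ∈ range N, (F n - Av M K F n) ^ 2 * U n := by
  have hK0 : 0 < K := by rw [hK]; exact pow_pos hp.pos k
  have hKr : (0 : ℝ) < K := by exact_mod_cast hK0
  have hpK : p ∣ K := by rw [hK]; exact dvd_pow_self p (by omega)
  have hpN : p ∣ N := by rw [← hN]; exact hpK.mul_left M
  have hUN : Function.Periodic U N := by
    intro n
    rw [← hN, mul_comm]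
    have := hU.nat_mul K n
    rwa [Nat.cast_id] at this
  have hdv : ∀ n : ℕ, (p ∣ n + N + h) ↔ (p ∣ n + h) := by
    intro n
    have e : n + N + h = n + h + N := by ring
    rw [e]
    exact (Nat.dvd_add_iff_left hpN).symm
  have hA : Function.Periodic (Av M K F) M := Av_perM (hN ▸ hF)
  have hAN : Function.Periodic (Av M K F) N := Av_per hF
  have hAt : ∀ n t, Av M K F (n + M * t) = Av M K F n := by
    intro n t
    have := hA.nat_mul t n
    rwa [Nat.cast_id, mul_comm] at this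
  have e1 : ∑ n ∈ range N, F n ^ 2 * U n =
      ∑ n ∈ range N, (∑ t ∈ range K, F (n + M * t) ^ 2) / K * U n := by
    rw [← sum_Av (M := M) hK0 (F := fun n => F n ^ 2 * U n) (fun n => by simp only [hF n, hUN n])]
    refine sum_congr rfl fun n _ => ?_
    rw [Av_mul hU]
    rfl
  have e4 : ∑ n ∈ range N, (F n - Av M K F n) ^ 2 * U n =
      ∑ n ∈ range N, (∑ t ∈ range K, (F (n + M * t) - (∑ t ∈ range K, F (n + M * t)) / K) ^ 2) / K * U n := by
    rw [← sum_Av (M := M) hK0 (F := fun n => (F n - Av M K F n) ^ 2 * U n)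
      (fun n => by simp only [hF n, hUN n, hAN n])]
    refine sum_congr rfl fun n _ => ?_
    rw [Av_mul hU]
    congr 1
    unfold Av
    congr 1
    refine sum_congr rfl fun t _ => ?_
    have h1 := hAt n t
    unfold Av at h1
    beta_reduce
    rw [h1]
  have e2 : ∑ n ∈ range N, (if p ∣ n + h then (F n - Av M K F n) ^ 2 else 0) * U n =
      ∑ n ∈ range N, (∑ t ∈ (range K).filter (fun t => p ∣ (n + h) + M * t),
        (F (n + M * t) - (∑ t ∈ range K, F (n + M * t)) / K) ^ 2) / K * U n := by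
    rw [← sum_Av (M := M) hK0
      (F := fun n => (if p ∣ n + h then (F n - Av M K F n) ^ 2 else 0) * U n)
      (fun n => by simp only [hF n, hUN n, hAN n, hdv n])]
    refine sum_congr rfl fun n _ => ?_
    rw [Av_mul hU]
    congr 1
    unfold Av
    congr 1
    rw [sum_filter]
    refine sum_congr rfl fun t _ => ?_
    have h1 := hAt n t
    unfold Av at h1
    beta_reduce
    rw [h1]
    refine if_congr ?_ rfl rfl
    rw [show n + M * t + h = n + h + M * t by ring]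
  have e3 : ∑ n ∈ range N, (if p ∣ n + h then F n ^ 2 else 0) * U n =
      ∑ n ∈ range N, (∑ t ∈ (range K).filter (fun t => p ∣ (n + h) + M * t),
        F (n + M * t) ^ 2) / K * U n := by
    rw [← sum_Av (M := M) hK0
      (F := fun n => (if p ∣ n + h then F n ^ 2 else 0) * U n)
      (fun n => by simp only [hF n, hUN n, hdv n])]
    refine sum_congr rfl fun n _ => ?_
    rw [Av_mul hU]
    congr 1
    unfold Av
    congr 1
    rw [sum_filter]
    refine sum_congr rfl fun t _ => ?_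
    beta_reduce
    rw [show n + M * t + h = n + h + M * t by ring]
  rw [e1, e2, e3, e4]
  rw [mul_sum, mul_sum, mul_sum, mul_sum, ← sum_sub_distrib, ← sum_add_distrib, ← sum_add_distrib]
  refine (abs_sum_le_sum_abs _ _).trans (sum_le_sum fun n _ => ?_)
  have h1 := fib2 (fun t => F (n + M * t)) _ (filter_subset _ _)
    (fib_card hp hK hk hM (n + h)) hK0 hτ
  have h0 : 0 ≤ U n / K := div_nonneg (hU0 n) hKr.le
  have h2 := mul_le_mul_of_nonneg_right h1 h0
  rw [← abs_of_nonneg h0, ← abs_mul, abs_of_nonneg h0] at h2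
  refine le_trans (le_of_eq ?_) (h2.trans (le_of_eq ?_))
  · congr 1
    ring
  · ring

/-- the weighted number of sites not hit -/
noncomputable def XS (N : ℕ) (F : ℕ → ℝ) (s : ℕ → ℕ → ℝ) (U : ℕ) (Q : Finset ℕ) : ℝ :=
  ∑ h ∈ Icc 1 U, XX N F (s h) h Q

theorem XS_nonneg (N : ℕ) {F : ℕ → ℝ} {s : ℕ → ℕ → ℝ} (hs : ∀ h n, 0 ≤ s h n) (U : ℕ) (Q : Finset ℕ) :
    0 ≤ XS N F s U Q := sum_nonneg fun h _ => XX_nonneg N (hs h) h Q

open Classical in
/-- one prime, all sites -/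
theorem XS_step {N : ℕ} {M K : ℕ → ℕ} {F : ℕ → ℝ} {s : ℕ → ℕ → ℝ} (hF : Function.Periodic F N)
    (hs0 : ∀ h n, 0 ≤ s h n) (hs1 : ∀ h n, s h n ≤ 1) {U p : ℕ} (hUp : U ≤ p) {Q : Finset ℕ} (hp : p ∉ Q)
    (hD : Dat N M K (insert p Q)) (hs : ∀ h, Function.Periodic (s h) (M p)) {τ : ℝ} (hτ : 0 < τ) (hτ1 : τ ≤ 1) :
    |XS N F s U (insert p Q) - (1 - 1 / (p : ℝ)) * XS N F s U Q| ≤
      τ / p * XS N F s U Q + 5 / τ * SS N (F - Av (M p) (K p) F) := by
  have hpQ := mem_insert_self p Q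
  obtain ⟨k, hk, hK⟩ := hD.pow p hpQ
  have hpp := hD.pr p hpQ
  have hp0 : (0 : ℝ) < p := by exact_mod_cast hpp.pos
  set u : ℕ → ℕ → ℝ := fun h n => s h n * if ∀ q ∈ Q, ¬ q ∣ n + h then (1 : ℝ) else 0 with hu
  have hUper : ∀ h, Function.Periodic (u h) (M p) := by
    intro h n
    have h1 : (∀ q ∈ Q, ¬ q ∣ n + M p + h) ↔ (∀ q ∈ Q, ¬ q ∣ n + h) := by
      refine forall₂_congr fun q hq => not_congr ?_
      have h2 : q ∣ M p := hD.dvd p hpQ q (mem_insert_of_mem hq) (fun h3 => hp (h3 ▸ hq))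
      have e : n + M p + h = n + h + M p := by ring
      rw [e]
      exact (Nat.dvd_add_iff_left h2).symm
    simp only [hu]
    rw [hs h n]
    congr 1
    exact if_congr h1 rfl rfl
  have hU0 : ∀ h n, 0 ≤ u h n := fun h n => mul_nonneg (hs0 h n) (by split_ifs <;> norm_num)
  have hU1 : ∀ h n, u h n ≤ 1 := fun h n => by
    simp only [hu]
    split_ifs
    · rw [mul_one]; exact hs1 h n
    · rw [mul_zero]; norm_num
  have hstep : ∀ h ∈ Icc 1 U, |XX N F (s h) h (insert p Q) - (1 - 1 / (p : ℝ)) * XX N F (s h) h Q| ≤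
      τ / p * XX N F (s h) h Q +
      (1 + 1 / τ) * ∑ n ∈ range N, (if p ∣ n + h then (F n - Av (M p) (K p) F n) ^ 2 else 0) +
      1 / (p : ℝ) * SS N (F - Av (M p) (K p) F) := by
    intro h _
    have h1 := step2 hpp (hD.mul p hpQ) hK hk (hD.ndvd p hpQ) hF (hUper h) (hU0 h) h hτ
    have e1 : XX N F (s h) h (insert p Q) = XX N F (s h) h Q -
        ∑ n ∈ range N, (if p ∣ n + h then F n ^ 2 else 0) * u h n := by
      rw [XX_insert]
      unfold XX
      rw [← sum_sub_distrib]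
      refine sum_congr rfl fun n _ => ?_
      simp only [hu]
      by_cases h2 : p ∣ n + h
      · rw [if_pos h2, if_pos h2]; ring
      · rw [if_neg h2, if_neg h2]; ring
    have e2 : XX N F (s h) h Q = ∑ n ∈ range N, F n ^ 2 * u h n := rfl
    rw [← e2] at h1
    have e3 : XX N F (s h) h (insert p Q) - (1 - 1 / (p : ℝ)) * XX N F (s h) h Q =
        -(∑ n ∈ range N, (if p ∣ n + h then F n ^ 2 else 0) * u h n - 1 / (p : ℝ) * XX N F (s h) h Q) := by
      rw [e1]; ring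
    rw [e3, abs_neg]
    refine h1.trans ?_
    have h3 : ∑ n ∈ range N, (if p ∣ n + h then (F n - Av (M p) (K p) F n) ^ 2 else 0) * u h n ≤
        ∑ n ∈ range N, (if p ∣ n + h then (F n - Av (M p) (K p) F n) ^ 2 else 0) := by
      refine sum_le_sum fun n _ => ?_
      exact mul_le_of_le_one_right (by split_ifs <;> positivity) (hU1 h n)
    have h4 : ∑ n ∈ range N, (F n - Av (M p) (K p) F n) ^ 2 * u h n ≤ SS N (F - Av (M p) (K p) F) := by
      unfold SS
      refine sum_le_sum fun n _ => ?_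
      rw [Pi.sub_apply]
      exact mul_le_of_le_one_right (sq_nonneg _) (hU1 h n)
    have h5 := mul_le_mul_of_nonneg_left h3 (show 0 ≤ 1 + 1 / τ by positivity)
    have h6 := mul_le_mul_of_nonneg_left h4 (show 0 ≤ 1 / (p : ℝ) by positivity)
    linarith
  have hSp : 0 ≤ SS N (F - Av (M p) (K p) F) := SS_nonneg _ _
  have hUr : (U : ℝ) ≤ p := by exact_mod_cast hUp
  unfold XS
  rw [mul_sum, ← sum_sub_distrib]
  refine (abs_sum_le_sum_abs _ _).trans ((sum_le_sum hstep).trans ?_)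
  rw [sum_add_distrib, sum_add_distrib, ← mul_sum, ← mul_sum, sum_const, Nat.card_Icc, nsmul_eq_mul]
  have h1 : ∑ h ∈ Icc 1 U, ∑ n ∈ range N, (if p ∣ n + h then (F n - Av (M p) (K p) F n) ^ 2 else 0) ≤
      2 * SS N (F - Av (M p) (K p) F) := by
    rw [sum_comm]
    unfold SS
    rw [mul_sum]
    refine sum_le_sum fun n _ => ?_
    rw [Pi.sub_apply]
    have h2 : ∑ h ∈ Icc 1 U, (if p ∣ n + h then (F n - Av (M p) (K p) F n) ^ 2 else 0) =
        (((Icc 1 U).filter (fun h => p ∣ n + h)).card : ℝ) * (F n - Av (M p) (K p) F n) ^ 2 := by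
      rw [← sum_filter, sum_const, nsmul_eq_mul]
    rw [h2]
    apply mul_le_mul_of_nonneg_right _ (sq_nonneg _)
    refine (hits_le p n U hpp.pos).trans ?_
    have : (U : ℝ) / p ≤ 1 := by rw [div_le_one hp0]; exact hUr
    linarith
  have h2 : ((U + 1 - 1 : ℕ) : ℝ) * (1 / (p : ℝ) * SS N (F - Av (M p) (K p) F)) ≤ SS N (F - Av (M p) (K p) F) := by
    rw [Nat.add_sub_cancel]
    have e : (U : ℝ) * (1 / (p : ℝ) * SS N (F - Av (M p) (K p) F)) = (U : ℝ) / p * SS N (F - Av (M p) (K p) F) := by ring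
    rw [e]
    exact mul_le_of_le_one_left hSp (by rw [div_le_one hp0]; exact hUr)
  have h3 := mul_le_mul_of_nonneg_left h1 (show 0 ≤ 1 + 1 / τ by positivity)
  have h4 : (1 + 1 / τ) * (2 * SS N (F - Av (M p) (K p) F)) + SS N (F - Av (M p) (K p) F) ≤
      5 / τ * SS N (F - Av (M p) (K p) F) := by
    have h5 : (1 + 1 / τ) * 2 + 1 ≤ 5 / τ := by
      rw [le_div_iff₀ hτ]
      have : ((1 + 1 / τ) * 2 + 1) * τ = 3 * τ + 2 := by field_simp; ring
      rw [this]
      linarith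
    have h6 := mul_le_mul_of_nonneg_right h5 hSp
    linarith
  linarith

open Classical in
/-- the recursion -/
theorem rec2 {N : ℕ} {M K : ℕ → ℕ} {F : ℕ → ℝ} {s : ℕ → ℕ → ℝ} (hF : Function.Periodic F N)
    (hs0 : ∀ h n, 0 ≤ s h n) (hs1 : ∀ h n, s h n ≤ 1) {U : ℕ} {τ : ℝ} (hτ : 0 < τ) (hτ1 : τ ≤ 1)
    (L : ℕ → ℝ) (hL : ∀ p, 0 ≤ L p) (Q : Finset ℕ) : Dat N M K Q →
    (∀ p ∈ Q, U ≤ p) → (∀ p ∈ Q, ∀ h, Function.Periodic (s h) (M p)) →
    (∀ p ∈ Q, 1 ≤ (∏ q ∈ Q.filter (fun q => q < p), (1 - 1 / (q : ℝ))) * L p) →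
    XS N F s U Q ≤ (∏ p ∈ Q, (1 - 1 / (p : ℝ))) * (Real.exp (2 * τ * ∑ p ∈ Q, 1 / (p : ℝ)) *
      (XS N F s U ∅ + 2 * ∑ p ∈ Q, L p * (5 / τ * SS N (F - Av (M p) (K p) F)))) ∧
    |XS N F s U Q - (∏ p ∈ Q, (1 - 1 / (p : ℝ))) * XS N F s U ∅| ≤ (∏ p ∈ Q, (1 - 1 / (p : ℝ))) *
      (2 * τ * (∑ p ∈ Q, 1 / (p : ℝ)) * (Real.exp (2 * τ * ∑ p ∈ Q, 1 / (p : ℝ)) *
      (XS N F s U ∅ + 2 * ∑ p ∈ Q, L p * (5 / τ * SS N (F - Av (M p) (K p) F)))) +
        2 * ∑ p ∈ Q, L p * (5 / τ * SS N (F - Av (M p) (K p) F))) := by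
  induction Q using Finset.induction_on_max with
  | empty =>
    intro _ _ _ _
    simp
  | insert p Q hmax ih =>
    intro hD hUQ hs hLp
    have hpQ : p ∉ Q := fun h1 => lt_irrefl _ (hmax p h1)
    have hsub : Q ⊆ insert p Q := subset_insert p Q
    have hfil : ∀ q ∈ Q, (insert p Q).filter (fun r => r < q) = Q.filter (fun r => r < q) := by
      intro q hq
      rw [filter_insert, if_neg (by have := hmax q hq; omega)]
    have hfilp : (insert p Q).filter (fun r => r < p) = Q := by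
      rw [filter_insert, if_neg (lt_irrefl _), filter_true_of_mem hmax]
    obtain ⟨ih1, ih2⟩ := ih (hD.sub hsub) (fun q hq => hUQ q (hsub hq)) (fun q hq => hs q (hsub hq))
      (fun q hq => by
        have := hLp q (hsub hq)
        rwa [hfil q hq] at this)
    have hLpp := hLp p (mem_insert_self p Q)
    rw [hfilp] at hLpp
    have hpp := hD.pr p (mem_insert_self p Q)
    have hp2 : (2 : ℝ) ≤ p := by exact_mod_cast hpp.two_le
    have hp0 : (0 : ℝ) < p := by linarith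
    have hstep := XS_step hF hs0 hs1 (hUQ p (mem_insert_self p Q)) hpQ hD (hs p (mem_insert_self p Q)) hτ hτ1
    rw [prod_insert hpQ, sum_insert hpQ, sum_insert hpQ]
    set δ : ℝ := ∏ q ∈ Q, (1 - 1 / (q : ℝ)) with hδ
    have hδ0 : 0 ≤ δ := by
      refine prod_nonneg fun q hq => ?_
      have : (2 : ℝ) ≤ q := by exact_mod_cast (hD.pr q (hsub hq)).two_le
      rw [sub_nonneg, div_le_one (by linarith)]; linarith
    set Λ : ℝ := ∑ q ∈ Q, 1 / (q : ℝ) with hΛ
    have hΛ0 : 0 ≤ Λ := sum_nonneg fun _ _ => by positivity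
    set e : ℝ := 5 / τ * SS N (F - Av (M p) (K p) F) with he
    have he0 : 0 ≤ e := mul_nonneg (by positivity) (SS_nonneg _ _)
    set Sg : ℝ := ∑ q ∈ Q, L q * (5 / τ * SS N (F - Av (M q) (K q) F)) with hSgd
    have hSg0 : 0 ≤ Sg := sum_nonneg fun q _ => mul_nonneg (hL q) (mul_nonneg (by positivity) (SS_nonneg _ _))
    set X0 : ℝ := XS N F s U ∅ with hX0
    have hX00 : 0 ≤ X0 := XS_nonneg N hs0 U ∅
    set X : ℝ := XS N F s U Q with hX
    have hXn : 0 ≤ X := XS_nonneg N hs0 U Q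
    set X' : ℝ := XS N F s U (insert p Q) with hX'
    obtain ⟨x, hx⟩ : ∃ x : ℝ, x = 1 / (p : ℝ) := ⟨_, rfl⟩
    have hx0 : 0 < x := by rw [hx]; positivity
    have hx1 : x ≤ 1 / 2 := by rw [hx]; exact one_div_le_one_div_of_le (by norm_num) hp2
    have hτx : τ / (p : ℝ) = τ * x := by rw [hx]; ring
    rw [hτx, ← hx] at hstep
    rw [← hx]
    obtain ⟨E, hE⟩ : ∃ E : ℝ, E = Real.exp (2 * τ * Λ) := ⟨_, rfl⟩
    obtain ⟨E', hE'⟩ : ∃ E' : ℝ, E' = Real.exp (2 * τ * (x + Λ)) := ⟨_, rfl⟩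
    rw [← hE] at ih1 ih2
    rw [← hE']
    have hE1 : 1 ≤ E := by rw [hE]; exact Real.one_le_exp (by positivity)
    have hEE : (1 + 2 * τ * x) * E ≤ E' := by
      have h1 : E' = Real.exp (2 * τ * x) * E := by
        rw [hE', hE, ← Real.exp_add]; ring_nf
      rw [h1]
      apply mul_le_mul_of_nonneg_right _ (by linarith)
      rw [add_comm]
      exact Real.add_one_le_exp _
    have hE'1 : 1 ≤ E' := by rw [hE']; exact Real.one_le_exp (by positivity)
    have hEE' : E ≤ E' := by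
      refine le_trans ?_ hEE
      have : 0 ≤ 2 * τ * x * E := by positivity
      linarith
    have hd1 : 0 ≤ 1 - x := by linarith
    -- the new error
    have h2 : e ≤ (1 - x) * δ * (2 * (L p * e)) := by
      have h3 : 1 ≤ (1 - x) * 2 := by linarith
      have h4 : 1 ≤ ((1 - x) * 2) * (δ * L p) := one_le_mul_of_one_le_of_one_le h3 hLpp
      calc e = 1 * e := (one_mul e).symm
        _ ≤ ((1 - x) * 2) * (δ * L p) * e := mul_le_mul_of_nonneg_right h4 he0
        _ = _ := by ring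
    have hLe0 : 0 ≤ L p * e := mul_nonneg (hL p) he0
    have hY0 : 0 ≤ X0 + 2 * Sg := by linarith
    have hY' : X0 + 2 * Sg ≤ X0 + 2 * (L p * e + Sg) := by linarith
    have h3 : τ * x * X ≤ (1 - x) * δ * (2 * τ * x * (E * (X0 + 2 * Sg))) := by
      have h4 : τ * x * X ≤ τ * x * (δ * (E * (X0 + 2 * Sg))) := mul_le_mul_of_nonneg_left ih1 (by positivity)
      refine h4.trans ?_
      have h5 : 0 ≤ τ * x * (δ * (E * (X0 + 2 * Sg))) := by positivity
      have h6 : 1 ≤ (1 - x) * 2 := by linarith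
      calc τ * x * (δ * (E * (X0 + 2 * Sg))) = 1 * (τ * x * (δ * (E * (X0 + 2 * Sg)))) := (one_mul _).symm
        _ ≤ ((1 - x) * 2) * (τ * x * (δ * (E * (X0 + 2 * Sg)))) := mul_le_mul_of_nonneg_right h6 h5
        _ = _ := by ring
    have h4 := abs_le.1 hstep
    have hdd : 0 ≤ (1 - x) * δ := mul_nonneg hd1 hδ0
    constructor
    · have h5 : (1 - x) * X ≤ (1 - x) * (δ * (E * (X0 + 2 * Sg))) := mul_le_mul_of_nonneg_left ih1 hd1
      have h6 : X' ≤ (1 - x) * δ * ((1 + 2 * τ * x) * E * (X0 + 2 * Sg) + 2 * (L p * e)) := by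
        have h7 := h4.2
        have e5 : (1 - x) * δ * ((1 + 2 * τ * x) * E * (X0 + 2 * Sg) + 2 * (L p * e)) =
          (1 - x) * (δ * (E * (X0 + 2 * Sg))) + (1 - x) * δ * (2 * τ * x * (E * (X0 + 2 * Sg))) +
            (1 - x) * δ * (2 * (L p * e)) := by ring
        rw [e5]
        linarith
      refine h6.trans (mul_le_mul_of_nonneg_left ?_ hdd)
      have h7 : (1 + 2 * τ * x) * E * (X0 + 2 * Sg) ≤ E' * (X0 + 2 * Sg) := mul_le_mul_of_nonneg_right hEE hY0
      have h8 : 2 * (L p * e) ≤ E' * (2 * (L p * e)) := le_mul_of_one_le_left (by positivity) hE'1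
      have e6 : E' * (X0 + 2 * (L p * e + Sg)) = E' * (X0 + 2 * Sg) + E' * (2 * (L p * e)) := by ring
      rw [e6]
      linarith
    · have h5 : |X' - (1 - x) * δ * X0| ≤ |X' - (1 - x) * X| + (1 - x) * |X - δ * X0| := by
        have e5 : X' - (1 - x) * δ * X0 = (X' - (1 - x) * X) + (1 - x) * (X - δ * X0) := by ring
        rw [e5]
        refine (abs_add_le _ _).trans ?_
        rw [abs_mul, abs_of_nonneg hd1]
      have h6 := mul_le_mul_of_nonneg_left ih2 hd1
      have h7 : |X' - (1 - x) * δ * X0| ≤ (1 - x) * δ * (2 * τ * x * (E * (X0 + 2 * Sg)) + 2 * (L p * e) +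
          (2 * τ * Λ * (E * (X0 + 2 * Sg)) + 2 * Sg)) := by
        have e7 : (1 - x) * δ * (2 * τ * x * (E * (X0 + 2 * Sg)) + 2 * (L p * e) +
          (2 * τ * Λ * (E * (X0 + 2 * Sg)) + 2 * Sg)) =
          (1 - x) * δ * (2 * τ * x * (E * (X0 + 2 * Sg))) + (1 - x) * δ * (2 * (L p * e)) +
            (1 - x) * (δ * (2 * τ * Λ * (E * (X0 + 2 * Sg)) + 2 * Sg)) := by ring
        rw [e7]
        linarith
      refine h7.trans (mul_le_mul_of_nonneg_left ?_ hdd)
      have h8 : E * (X0 + 2 * Sg) ≤ E' * (X0 + 2 * (L p * e + Sg)) :=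
        mul_le_mul hEE' hY' hY0 (by linarith)
      have h9 : 2 * τ * (x + Λ) * (E * (X0 + 2 * Sg)) ≤ 2 * τ * (x + Λ) * (E' * (X0 + 2 * (L p * e + Sg))) :=
        mul_le_mul_of_nonneg_left h8 (by positivity)
      have e8 : 2 * τ * x * (E * (X0 + 2 * Sg)) + 2 * (L p * e) + (2 * τ * Λ * (E * (X0 + 2 * Sg)) + 2 * Sg) =
        2 * τ * (x + Λ) * (E * (X0 + 2 * Sg)) + 2 * (L p * e + Sg) := by ring
      rw [e8]
      linarith

end Pool.Agent.N422.SQ
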