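import Pool.Agent.N422.SQ1

/-! Squares of functions of level `R`: the weighted number of survivors of the large primes is what it should be.
Author: helper422. -/

set_option autoImplicit false

namespace Pool.Agent.N422.SQ

open Finset Pool.Agent.Y835.SB

open Classical in
/-- the main inequality -/
theorem core2 {cV : ℝ} (hcV : 0 < cV) {Y U : ℕ} (hY : 2 ≤ Y) (hUY : U ≤ Y) {R : ℝ} (hR : 1 ≤ R)
    {P : Finset ℕ} (hP : ∀ p ∈ P, p.Prime)
    (HV : ∀ p ∈ P, Y < p → cV * (Real.log Y / Real.log p) ≤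
      ∏ q ∈ (P.filter (fun q : ℕ => Y < q)).filter (fun q => q < p), (1 - 1 / (q : ℝ)))
    {τ : ℝ} (hτ : 0 < τ) (hτ1 : τ ≤ 1)
    (hτΛ : 4 * τ * ∑ p ∈ P.filter (fun p : ℕ => Y < p), 1 / (p : ℝ) ≤ 1)
    {ι : Type} (I : Finset ι) (d : ι → ℕ) (f : ι → ℕ → ℝ)
    (hf : ∀ i ∈ I, 0 < d i ∧ (d i : ℝ) ≤ R ∧ Function.Periodic (f i) (d i)) {N : ℕ} (hN : 0 < N)
    (hPN : ∀ p ∈ P, p ∣ N) (hIN : ∀ i ∈ I, d i ∣ N) :
    |∑ n ∈ range N, (∑ i ∈ I, f i n) ^ 2 * (((Icc 1 U).filter (fun h => ∀ p ∈ P, ¬ p ∣ n + h)).card : ℝ) -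
      (∏ p ∈ P.filter (fun p : ℕ => Y < p), (1 - 1 / (p : ℝ))) * ∑ n ∈ range N, (∑ i ∈ I, f i n) ^ 2 *
        (((Icc 1 U).filter (fun h => ∀ p ∈ P, p ≤ Y → ¬ p ∣ n + h)).card : ℝ)| ≤
    (∏ p ∈ P.filter (fun p : ℕ => Y < p), (1 - 1 / (p : ℝ))) *
      (4 * τ * (∑ p ∈ P.filter (fun p : ℕ => Y < p), 1 / (p : ℝ)) * ∑ n ∈ range N, (∑ i ∈ I, f i n) ^ 2 *
        (((Icc 1 U).filter (fun h => ∀ p ∈ P, p ≤ Y → ¬ p ∣ n + h)).card : ℝ) +
      20 / (τ * (cV * Real.log Y)) * Real.log R * ∑ n ∈ range N, (∑ i ∈ I, f i n) ^ 2) := by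
  set Q := P.filter (fun p : ℕ => Y < p) with hQ
  set M : ℕ → ℕ := fun p => N / p ^ N.factorization p with hM
  set K : ℕ → ℕ := fun p => p ^ N.factorization p with hK
  set V : ℕ → ℝ := ∑ i ∈ I, f i with hV
  have hVn : ∀ n, V n = ∑ i ∈ I, f i n := fun n => by rw [hV, Finset.sum_apply]
  have hQm : ∀ p ∈ Q, p.Prime ∧ p ∣ N := fun p hp =>
    ⟨hP p (mem_filter.1 hp).1, hPN p (mem_filter.1 hp).1⟩
  have hD : Dat N M K Q := dat_of hN hQm
  have hfN : ∀ i ∈ I, Function.Periodic (f i) N := fun i hi => per_of_dvd (hf i hi).2.2 (hIN i hi)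
  have hVN : Function.Periodic V N := by
    intro n
    rw [hVn, hVn]
    exact sum_congr rfl fun i hi => hfN i hi n
  have hfM : ∀ i ∈ I, ∀ p ∈ Q, ¬ p ∣ d i → Function.Periodic (f i) (M p) := fun i hi p hp hpd =>
    per_of_dvd (hf i hi).2.2 (dvd_compl (hQm p hp).1 (hIN i hi) hpd)
  -- level inequality
  have hlev : ∑ p ∈ Q, Real.log p * SS N (V - Av (M p) (K p) V) ≤ Real.log R * SS N V := by
    refine anova N M K (fun i => (d i).primeFactors) Q (fun p hp =>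
      ⟨hD.mul p hp, hD.Kpos hp, (hQm p hp).1.pos⟩) I f R fun i hi => ⟨hfN i hi, ?_, ?_⟩
    · intro p hp hpd
      refine hfM i hi p hp fun h1 => hpd ?_
      exact Nat.mem_primeFactors.2 ⟨(hQm p hp).1, h1, (hf i hi).1.ne'⟩
    · have h1 : ∏ p ∈ Q.filter (fun p => p ∈ (d i).primeFactors), p ∣ d i := by
        have h2 : ∏ p ∈ Q.filter (fun p => p ∈ (d i).primeFactors), p ∣
            ∏ p ∈ (d i).primeFactors, p :=
          prod_dvd_prod_of_subset _ _ _ fun p hp => (mem_filter.1 hp).2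
        exact h2.trans (Nat.prod_primeFactors_dvd (d i))
      have h3 := Nat.le_of_dvd (hf i hi).1 h1
      have h4 : ((∏ p ∈ Q.filter (fun p => p ∈ (d i).primeFactors), p : ℕ) : ℝ) ≤ d i := by
        exact_mod_cast h3
      rw [Nat.cast_prod] at h4
      exact h4.trans (hf i hi).2.1
  have hlY : 0 < Real.log Y := Real.log_pos (by exact_mod_cast (by omega : 1 < Y))
  set L : ℕ → ℝ := fun p => 1 / (cV * Real.log Y) * Real.log p with hL
  have hL0 : ∀ p, 0 ≤ L p := fun p => mul_nonneg (by positivity) (Real.log_natCast_nonneg p)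
  set s : ℕ → ℕ → ℝ := fun h n => if ∀ p ∈ P, p ≤ Y → ¬ p ∣ n + h then 1 else 0 with hs
  have hs0 : ∀ h n, 0 ≤ s h n := fun h n => by simp only [hs]; split_ifs <;> norm_num
  have hs1 : ∀ h n, s h n ≤ 1 := fun h n => by simp only [hs]; split_ifs <;> norm_num
  have hsM : ∀ p ∈ Q, ∀ h, Function.Periodic (s h) (M p) := by
    intro p hp h n
    simp only [hs]
    refine if_congr ?_ rfl rfl
    refine forall₂_congr fun q hq => forall_congr' fun hqY => not_congr ?_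
    have h1 : q ∣ M p := by
      have h2 : q ≠ p := by
        rintro rfl
        have := (mem_filter.1 hp).2
        omega
      refine dvd_compl (hQm p hp).1 (hPN q hq) fun h3 => h2 ?_
      exact ((Nat.prime_dvd_prime_iff_eq (hQm p hp).1 (hP q hq)).1 h3).symm
    have e : n + M p + h = n + h + M p := by ring
    rw [e]
    exact (Nat.dvd_add_iff_left h1).symm
  have hLp : ∀ p ∈ Q, 1 ≤ (∏ q ∈ Q.filter (fun q => q < p), (1 - 1 / (q : ℝ))) * L p := by
    intro p hp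
    have hpp := (hQm p hp).1
    have h1 := HV p (mem_filter.1 hp).1 (mem_filter.1 hp).2
    have hlp : 0 < Real.log p := Real.log_pos (by exact_mod_cast hpp.one_lt)
    have h2 := mul_le_mul_of_nonneg_right h1 (hL0 p)
    refine le_trans (le_of_eq ?_) h2
    simp only [hL]
    field_simp
  obtain ⟨-, hmain⟩ := rec2 (U := U) hVN hs0 hs1 hτ hτ1 L hL0 Q hD
    (fun p hp => hUY.trans (mem_filter.1 hp).2.le) hsM hLp
  -- the two sums
  have hright : XS N V s U Q = ∑ n ∈ range N, (∑ i ∈ I, f i n) ^ 2 *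
        (((Icc 1 U).filter (fun h => ∀ p ∈ P, ¬ p ∣ n + h)).card : ℝ) := by
    unfold XS XX
    rw [sum_comm]
    refine sum_congr rfl fun n _ => ?_
    rw [← mul_sum, hVn]
    congr 1
    have h1 : ∀ h ∈ Icc 1 U, (s h n * if ∀ p ∈ Q, ¬ p ∣ n + h then (1 : ℝ) else 0) =
        if ∀ p ∈ P, ¬ p ∣ n + h then (1 : ℝ) else 0 := by
      intro h _
      simp only [hs]
      by_cases h2 : ∀ p ∈ P, ¬ p ∣ n + h
      · rw [if_pos h2, if_pos fun p hp _ => h2 p hp,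
          if_pos fun p hp => h2 p (mem_filter.1 hp).1, mul_one]
      · rw [if_neg h2]
        by_cases h3 : ∀ p ∈ P, p ≤ Y → ¬ p ∣ n + h
        · have h4 : ¬ ∀ p ∈ Q, ¬ p ∣ n + h := by
            intro h5
            apply h2
            intro p hp
            rcases le_or_gt p Y with h6 | h6
            · exact h3 p hp h6
            · exact h5 p (mem_filter.2 ⟨hp, h6⟩)
          rw [if_neg h4, mul_zero]
        · rw [if_neg h3, zero_mul]
    rw [sum_congr rfl h1, sum_boole]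
  have hSS : SS N V = ∑ n ∈ range N, (∑ i ∈ I, f i n) ^ 2 := by
    unfold SS
    exact sum_congr rfl fun n _ => by rw [hVn]
  have hleft : XS N V s U ∅ = ∑ n ∈ range N, (∑ i ∈ I, f i n) ^ 2 *
        (((Icc 1 U).filter (fun h => ∀ p ∈ P, p ≤ Y → ¬ p ∣ n + h)).card : ℝ) := by
    unfold XS XX
    rw [sum_comm]
    refine sum_congr rfl fun n _ => ?_
    rw [← mul_sum, hVn]
    congr 1
    have h1 : ∀ h ∈ Icc 1 U, (s h n * if ∀ p ∈ (∅ : Finset ℕ), ¬ p ∣ n + h then (1 : ℝ) else 0) =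
        if ∀ p ∈ P, p ≤ Y → ¬ p ∣ n + h then (1 : ℝ) else 0 := by
      intro h _
      rw [if_pos (fun p hp => absurd hp (notMem_empty p)), mul_one]
    rw [sum_congr rfl h1, sum_boole]
  rw [← hright, ← hleft, ← hSS]
  obtain ⟨Λ, hΛ⟩ : ∃ Λ : ℝ, Λ = ∑ p ∈ Q, 1 / (p : ℝ) := ⟨_, rfl⟩
  rw [← hΛ] at hmain hτΛ ⊢
  have hΛ0 : 0 ≤ Λ := by rw [hΛ]; exact sum_nonneg fun _ _ => by positivity
  obtain ⟨Sg, hSg⟩ : ∃ Sg : ℝ, Sg = ∑ p ∈ Q, L p * (5 / τ * SS N (V - Av (M p) (K p) V)) := ⟨_, rfl⟩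
  rw [← hSg] at hmain
  have hSg0 : 0 ≤ Sg := by
    rw [hSg]
    exact sum_nonneg fun q _ => mul_nonneg (hL0 q) (mul_nonneg (by positivity) (SS_nonneg _ _))
  have hSgle : Sg ≤ 5 / (τ * (cV * Real.log Y)) * Real.log R * SS N V := by
    rw [hSg]
    have h1 : ∑ p ∈ Q, L p * (5 / τ * SS N (V - Av (M p) (K p) V)) =
        5 / (τ * (cV * Real.log Y)) * ∑ p ∈ Q, Real.log p * SS N (V - Av (M p) (K p) V) := by
      rw [mul_sum]
      refine sum_congr rfl fun p _ => ?_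
      simp only [hL]
      field_simp
    rw [h1, mul_assoc]
    exact mul_le_mul_of_nonneg_left hlev (by positivity)
  have hE : Real.exp (2 * τ * Λ) ≤ 2 := by
    have h1 : 2 * τ * Λ ≤ Real.log 2 := by
      have := Real.log_two_gt_d9
      linarith
    calc Real.exp (2 * τ * Λ) ≤ Real.exp (Real.log 2) := Real.exp_le_exp.2 h1
      _ = 2 := Real.exp_log (by norm_num)
  have hX0 : 0 ≤ XS N V s U ∅ := XS_nonneg N hs0 U ∅
  have hδ0 : 0 ≤ ∏ p ∈ Q, (1 - 1 / (p : ℝ)) := prod_nonneg fun p hp => by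
    have : (2 : ℝ) ≤ p := by exact_mod_cast (hQm p hp).1.two_le
    rw [sub_nonneg, div_le_one (by linarith)]; linarith
  refine hmain.trans (mul_le_mul_of_nonneg_left ?_ hδ0)
  have h1 : 2 * τ * Λ * (Real.exp (2 * τ * Λ) * (XS N V s U ∅ + 2 * Sg)) ≤
      2 * τ * Λ * (2 * (XS N V s U ∅ + 2 * Sg)) := by
    apply mul_le_mul_of_nonneg_left _ (by positivity)
    apply mul_le_mul_of_nonneg_right hE (by linarith)
  have h2 : 4 * τ * Λ * (2 * Sg) ≤ 1 * (2 * Sg) := mul_le_mul_of_nonneg_right hτΛ (by linarith)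
  have h3 : 20 / (τ * (cV * Real.log Y)) * Real.log R * SS N V =
      4 * (5 / (τ * (cV * Real.log Y)) * Real.log R * SS N V) := by ring
  rw [h3]
  linarith

end Pool.Agent.N422.SQ
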