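import Pool.Agent.N422.SW3
import Pool.Agent.N422.SQ2
import Pool.Agent.Y835.SB.Mert

/-! Concentration of the number of integers of an interval without prime factors up to `exp(log X / (log log X)^2)`.
Author: helper422. -/

set_option autoImplicit false

namespace Pool.Agent.N422.SQ

open Finset Filter Topology Pool.Agent.Y829 Pool.Agent.Y829.RP Pool.Agent.Y829.RS Pool.Agent.N422.SW

/-- Mertens for sets of primes in `(Y, z]` -/
lemma mert_ratio : ∃ cV C : ℝ, 0 < cV ∧ 0 ≤ C ∧ ∀ Y z : ℕ, 2 ≤ Y → Y ≤ z → ∀ S : Finset ℕ,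
    (∀ q ∈ S, q.Prime ∧ Y < q ∧ q ≤ z) →
    cV * (Real.log Y / Real.log z) ≤ ∏ q ∈ S, (1 - 1 / (q : ℝ)) ∧
    ∑ q ∈ S, 1 / (q : ℝ) ≤ Real.log (Real.log z / Real.log Y) + C := by
  obtain ⟨C, hC0, hC⟩ := Pool.Agent.Helper923.HMertens.mertens_ratio
  have hl2 : 0 < Real.log 2 := Real.log_pos (by norm_num)
  obtain ⟨C', hC'⟩ : ∃ C' : ℝ, C' = C / Real.log 2 := ⟨_, rfl⟩
  have hC'0 : 0 ≤ C' := by rw [hC']; positivity
  refine ⟨Real.exp (-(C' + 1)), C', Real.exp_pos _, hC'0, fun Y z hY hYz S hS => ?_⟩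
  have hY1 : (1 : ℝ) < Y := by exact_mod_cast (by omega : 1 < Y)
  have hlY : 0 < Real.log Y := Real.log_pos hY1
  have hz1 : (1 : ℝ) < z := by exact_mod_cast (by omega : 1 < z)
  have hlz : 0 < Real.log z := Real.log_pos hz1
  have h0 := hC Y z hY hYz
  have hYl : Real.log 2 ≤ Real.log Y := Real.log_le_log (by norm_num) (by exact_mod_cast hY)
  have hCC : C / Real.log Y ≤ C' := by
    rw [hC']
    exact div_le_div_of_nonneg_left hC0 hl2 hYl
  have hsum : ∑ q ∈ S, 1 / (q : ℝ) ≤ Real.log (Real.log z / Real.log Y) + C' := by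
    have h1 : ∑ q ∈ S, 1 / (q : ℝ) ≤ ∑ q ∈ (Ioc Y z).filter Nat.Prime, 1 / (q : ℝ) := by
      apply sum_le_sum_of_subset_of_nonneg
      · intro q hq
        rw [mem_filter, mem_Ioc]
        exact ⟨(hS q hq).2, (hS q hq).1⟩
      · intro q _ _
        positivity
    have h2 := (abs_le.1 h0).2
    linarith
  refine ⟨?_, hsum⟩
  have h1 : ∀ p ∈ S, Real.exp (-(1 / (p : ℝ) + 1 / ((p : ℝ) * (p - 1)))) ≤ 1 - 1 / (p : ℝ) := by
    intro p hp
    have hp2 : (2 : ℝ) ≤ p := by exact_mod_cast (hS p hp).1.two_le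
    have hp1 : (0 : ℝ) < p - 1 := by linarith
    have hp0 : (0 : ℝ) < p := by linarith
    have e1 : 1 / (p : ℝ) + 1 / ((p : ℝ) * (p - 1)) = 1 / ((p : ℝ) - 1) := by
      field_simp
      ring
    rw [e1, Real.exp_neg]
    have h2 : 1 + 1 / ((p : ℝ) - 1) ≤ Real.exp (1 / ((p : ℝ) - 1)) := by
      have := Real.add_one_le_exp (1 / ((p : ℝ) - 1))
      linarith
    have h3 : 1 - 1 / (p : ℝ) = (1 + 1 / ((p : ℝ) - 1))⁻¹ := by
      field_simp
      ring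
    rw [h3]
    exact inv_anti₀ (by positivity) h2
  have h2 : Real.exp (-(∑ p ∈ S, 1 / (p : ℝ) + ∑ p ∈ S, 1 / ((p : ℝ) * (p - 1)))) ≤
      ∏ p ∈ S, (1 - 1 / (p : ℝ)) := by
    rw [← sum_add_distrib, ← sum_neg_distrib, Real.exp_sum]
    exact prod_le_prod (fun _ _ => (Real.exp_pos _).le) h1
  refine le_trans ?_ h2
  have h4 := Pool.Agent.Y835.SB.sum_tele S fun p hp => (hS p hp).1.two_le
  have h5 : Real.exp (-(C' + 1)) * (Real.log Y / Real.log z) =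
      Real.exp (-(Real.log (Real.log z / Real.log Y) + C' + 1)) := by
    have e : -(Real.log (Real.log z / Real.log Y) + C' + 1) = -(C' + 1) - Real.log (Real.log z / Real.log Y) := by ring
    rw [e, Real.exp_sub, Real.exp_log (by positivity)]
    field_simp
  rw [h5]
  exact Real.exp_le_exp.2 (by linarith)

/-- **Concentration** -/
theorem conc3 (b Cc : ℕ) : ∃ X0 : ℕ, ∀ X : ℕ, X0 ≤ X → ∀ U Q Y : ℕ,
    Real.log X ≤ U → Q ≤ X → 2 ≤ Y → Real.log Y ≤ Real.log X / Real.log (Real.log X) ^ 2 →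
    (((range (∏ p ∈ (PQ Q).filter (fun p => p ≤ Y), p)).filter (fun n => (1 / 2 : ℝ) ^ b * (U * V ((PQ Q).filter (fun p => p ≤ Y))) <
      |SO (fun _ => {0}) ((PQ Q).filter (fun p => p ≤ Y)) U n - U * V ((PQ Q).filter (fun p => p ≤ Y))|)).card : ℝ) * Real.log X ^ Cc ≤
      ((∏ p ∈ (PQ Q).filter (fun p => p ≤ Y), p : ℕ) : ℝ) := by
  classical
  obtain ⟨C, hC1, hg⟩ := gtail 1
  obtain ⟨b1, hb1⟩ : ∃ b1, b1 = b + 2 + C := ⟨_, rfl⟩
  obtain ⟨U1, hU12, hg'⟩ := hg b1 (by omega)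
  obtain ⟨cm, hcm, hmert⟩ := mert
  obtain ⟨δ, hδ⟩ : ∃ δ : ℝ, δ = (1 / 2 : ℝ) ^ b1 := ⟨_, rfl⟩
  have hδ0 : 0 < δ := by rw [hδ]; positivity
  have hδb : 4 * δ ≤ (1 / 2 : ℝ) ^ b := by
    have h1 : (1 / 2 : ℝ) ^ b1 ≤ (1 / 2 : ℝ) ^ (b + 2) := pow_le_pow_of_le_one (by norm_num) (by norm_num) (by omega)
    rw [pow_add] at h1
    norm_num at h1 ⊢
    rw [hδ]
    norm_num
    linarith
  have hδ1 : δ ≤ 1 / 4 := by
    have : (1 / 2 : ℝ) ^ b ≤ 1 := pow_le_one₀ (by norm_num) (by norm_num)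
    linarith
  have hC1r : (1 : ℝ) ≤ C := by exact_mod_cast hC1
  have hb1r : (1 : ℝ) ≤ b1 := by exact_mod_cast (by omega : 1 ≤ b1)
  obtain ⟨a, ha⟩ : ∃ a : ℝ, a = 1 / ((C : ℝ) * b1) := ⟨_, rfl⟩
  have ha0 : 0 < a := by rw [ha]; positivity
  rw [← ha, ← hδ] at hg'
  obtain ⟨U2, hU2⟩ := (ev a 1 0 ha0).exists_forall_of_atTop
  obtain ⟨Kc, hKc⟩ : ∃ Kc : ℝ, Kc = (Cc + 2) * 128 / (cm * δ ^ 2) := ⟨_, rfl⟩
  have hKc0 : 0 ≤ Kc := by rw [hKc]; positivity
  have E := (((log_tend.eventually_ge_atTop ((U1 : ℝ) + U2 + 1)).and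
    (ll_tend.eventually_ge_atTop (1 + Kc + |Real.log cm|))).and
    (evl a Cc (Real.log 4) ha0)).and (eventually_ge_atTop 3)
  obtain ⟨X0, hX0⟩ := E.exists_forall_of_atTop
  refine ⟨X0, ?_⟩
  intro X hX U Q Y hU hQ hY2 hYl
  obtain ⟨⟨⟨e1, e2⟩, e3⟩, e4⟩ := hX0 X hX
  obtain ⟨L, hL⟩ : ∃ L : ℝ, L = Real.log X := ⟨_, rfl⟩
  obtain ⟨ll, hll⟩ : ∃ ll : ℝ, ll = Real.log L := ⟨_, rfl⟩
  rw [← hL] at hU e1 e2 e3 hYl ⊢
  rw [← hll] at hYl e2 e3
  have hL1 : 1 ≤ L := by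
    have h1 : (0 : ℝ) ≤ U1 := Nat.cast_nonneg _
    have h2 : (0 : ℝ) ≤ U2 := Nat.cast_nonneg _
    linarith
  have hll1 : 1 ≤ ll := by
    have := abs_nonneg (Real.log cm)
    linarith
  have hUL : L ≤ U := hU
  obtain ⟨P, hPdef⟩ : ∃ P, P = (PQ Q).filter (fun p => p ≤ Y) := ⟨_, rfl⟩
  have mem_P : ∀ {p : ℕ}, p ∈ P ↔ (p.Prime ∧ p ≤ Q) ∧ p ≤ Y := by
    intro p
    rw [hPdef, mem_filter, mem_PQ]
  rw [← hPdef]
  have hUU1 : U1 ≤ U := by
    have h2 : (0 : ℝ) ≤ U2 := Nat.cast_nonneg _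
    have h3 : (U1 : ℝ) ≤ U := by linarith
    exact_mod_cast h3
  have hUU2 : U2 ≤ U := by
    have h2 : (0 : ℝ) ≤ U1 := Nat.cast_nonneg _
    have h3 : (U2 : ℝ) ≤ U := by linarith
    exact_mod_cast h3
  have hUpos : (0 : ℝ) < U := by linarith
  have hU0 : 0 < U := by exact_mod_cast hUpos
  -- the two sets of primes
  obtain ⟨P1, hP1⟩ : ∃ P1, P1 = P.filter (fun p => p ≤ U) := ⟨_, rfl⟩
  obtain ⟨P2, hP2⟩ : ∃ P2, P2 = P.filter (fun p => U < p) := ⟨_, rfl⟩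
  have hP1p : ∀ p ∈ P1, p.Prime ∧ p ≤ U := by
    intro p hp
    rw [hP1, mem_filter, mem_P] at hp
    exact ⟨hp.1.1.1, hp.2⟩
  have hP2p : ∀ p ∈ P2, p.Prime ∧ U < p := by
    intro p hp
    rw [hP2, mem_filter, mem_P] at hp
    exact ⟨hp.1.1.1, hp.2⟩
  have hd : Disjoint P1 P2 := by
    rw [disjoint_left]
    intro p h1 h2
    have := (hP1p p h1).2
    have := (hP2p p h2).2
    omega
  have hun : P1 ∪ P2 = P := by
    rw [hP1, hP2]
    ext p
    rw [mem_union, mem_filter, mem_filter]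
    constructor
    · rintro (h | h) <;> exact h.1
    · intro hp
      rcases le_or_gt p U with h | h
      · exact Or.inl ⟨hp, h⟩
      · exact Or.inr ⟨hp, h⟩
  obtain ⟨-, hst1⟩ := hg' U hUU1 P1 (fun _ => {0}) (fun p hp => ⟨(hP1p p hp).1, by
      have h1 := hU2 U hUU2
      have h2 : Real.log p ≤ Real.log U := Real.log_le_log (by exact_mod_cast (hP1p p hp).1.pos)
        (by exact_mod_cast (hP1p p hp).2)
      linarith⟩) (fun p hp => ⟨by
      rw [singleton_subset_iff, mem_range]; exact (hP1p p hp).1.pos, by simp, by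
      simpa using (hP1p p hp).1.one_lt⟩)
  rw [VO_V] at hst1
  have hX2 : 2 ≤ X := by omega
  have hlY0 : 0 < Real.log Y := Real.log_pos (by exact_mod_cast (by omega : 1 < Y))
  have hVP : cm * ll ^ 2 / L ≤ V P := by
    refine le_trans ?_ (hmert Y hY2 P (fun p hp => ⟨(mem_P.1 hp).1.1, (mem_P.1 hp).2⟩))
    rw [div_le_div_iff₀ (by linarith) hlY0]
    have h1 : Real.log Y * ll ^ 2 ≤ L := by
      rwa [le_div_iff₀ (by positivity)] at hYl
    have h2 := mul_le_mul_of_nonneg_left h1 hcm.le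
    linarith
  have hmain := twostage2 P1 P2 U δ (Real.exp (-(3 * (U : ℝ) ^ a))) (fun p hp => (hP1p p hp).1) hP2p hd hδ0
    hδ1 (by
      rw [Real.exp_neg]
      rw [inv_mul_eq_div, le_div_iff₀ (Real.exp_pos _)]
      exact hst1)
  rw [hun] at hmain
  have hV0 : 0 < V (P) := V_pos fun p hp => (mem_P.1 hp).1.1
  have hUV : cm * ll ^ 2 ≤ U * V (P) := by
    have h1 : L * (cm * ll ^ 2 / L) ≤ U * V (P) := mul_le_mul hU hVP (by positivity) hUpos.le
    have h2 : L * (cm * ll ^ 2 / L) = cm * ll ^ 2 := by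
      field_simp
    linarith
  have hbound : (Real.exp (-(3 * (U : ℝ) ^ a)) + 2 * Real.exp (-(δ ^ 2 / 64 * (U * V (P) / 2)))) * L ^ Cc ≤ 1 := by
    have hL0 : 0 < L := by linarith
    have g1 : 4 * (Real.exp (-(3 * (U : ℝ) ^ a)) * L ^ Cc) ≤ 1 := by
      apply expneg_le hL0
      rw [← hll]
      have h1 : L ^ a ≤ (U : ℝ) ^ a := Real.rpow_le_rpow hL0.le hUL ha0.le
      have h2 : 0 ≤ L ^ a := by positivity
      linarith
    have g2 : 4 * (Real.exp (-(δ ^ 2 / 64 * (U * V (P) / 2))) * L ^ Cc) ≤ 1 := by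
      apply expneg_le hL0
      rw [← hll]
      have h1 : δ ^ 2 / 64 * (cm * ll ^ 2 / 2) ≤ δ ^ 2 / 64 * (U * V (P) / 2) := by
        apply mul_le_mul_of_nonneg_left _ (by positivity)
        linarith
      have h3 : (Cc : ℝ) + 2 ≤ cm * δ ^ 2 / 128 * ll := by
        have h5 := mul_le_mul_of_nonneg_left (show Kc ≤ ll by
          have := abs_nonneg (Real.log cm)
          linarith) (show 0 ≤ cm * δ ^ 2 / 128 by positivity)
        have h6 : cm * δ ^ 2 / 128 * Kc = (Cc : ℝ) + 2 := by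
          rw [hKc]
          field_simp
        rw [h6] at h5
        exact h5
      have h4 := mul_le_mul_of_nonneg_right h3 (by linarith : (0 : ℝ) ≤ ll)
      have h2 : δ ^ 2 / 64 * (cm * ll ^ 2 / 2) = cm * δ ^ 2 / 128 * ll * ll := by ring
      have h5 : Real.log 4 ≤ 2 := by
        have h6 : Real.log 4 = 2 * Real.log 2 := by
          rw [show (4 : ℝ) = 2 ^ 2 by norm_num, Real.log_pow]
          norm_num
        have := Real.log_two_lt_d9
        rw [h6]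
        linarith
      nlinarith
    nlinarith
  have h1 : (((range (∏ p ∈ P, p)).filter (fun n => (1 / 2 : ℝ) ^ b * (U * V (P)) <
      |SO (fun _ => {0}) (P) U n - U * V (P)|)).card : ℝ) ≤
      (((range (∏ p ∈ P, p)).filter (fun n => 3 * δ * (U * V (P)) <
      |SO (fun _ => {0}) (P) U n - U * V (P)|)).card : ℝ) := by
    have : (range (∏ p ∈ P, p)).filter (fun n => (1 / 2 : ℝ) ^ b * (U * V (P)) <
      |SO (fun _ => {0}) (P) U n - U * V (P)|) ⊆ (range (∏ p ∈ P, p)).filter (fun n => 3 * δ * (U * V (P)) <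
      |SO (fun _ => {0}) (P) U n - U * V (P)|) := by
      intro n hn
      rw [mem_filter] at hn ⊢
      refine ⟨hn.1, lt_of_le_of_lt ?_ hn.2⟩
      apply mul_le_mul_of_nonneg_right _ (by positivity)
      linarith
    exact_mod_cast card_le_card this
  have h2 := h1.trans hmain
  have hLC : (0 : ℝ) ≤ L ^ Cc := by positivity
  have h3 := mul_le_mul_of_nonneg_right h2 hLC
  refine h3.trans ?_
  have h4 : (0 : ℝ) ≤ ((∏ p ∈ P, p : ℕ) : ℝ) := Nat.cast_nonneg _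
  have h5 := mul_le_mul_of_nonneg_right hbound h4
  rw [one_mul] at h5
  refine le_trans (le_of_eq ?_) h5
  ring



end Pool.Agent.N422.SQ
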