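import Pool.Agent.N422.SQ3

/-! Sums of squares: the model and the theorem. Partly adapted from `Pool.Agent.Y829.RS5` (helper829). Author: helper422. -/

set_option autoImplicit false

namespace Pool.Agent.N422.SQ

open Finset Filter Topology Pool.Agent.Y829 Pool.Agent.Y829.RP Pool.Agent.Y829.RS Pool.Agent.N422.SW

/-- the weighted mean of a concentrated number of survivors -/
theorem avg (K b : ℕ) : ∃ X0 : ℕ, ∀ X : ℕ, X0 ≤ X → ∀ U Q : ℕ, 1 ≤ Q → Q ≤ X →
    ∀ P : Finset ℕ, (∀ p ∈ P, p.Prime ∧ p ≤ X) →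
    (((range (∏ p ∈ P, p)).filter (fun n => (1 / 2 : ℝ) ^ b * (U * V P) <
      |SO (fun _ => {0}) P U n - U * V P|)).card : ℝ) * Real.log X ^ (2 * K + 4 * (K + 2) + 10) ≤
      ((∏ p ∈ P, p : ℕ) : ℝ) →
    ∀ c : ℕ → ℕ → ℝ, (∀ n, 0 ≤ wt Q c n) → ∑ d ∈ Icc 1 Q, ss c d ^ 2 / d ≤ Real.log X ^ K →
    1 / (2 * Real.log X ^ K) ≤ mu Q c → ∀ N : ℕ, 0 < N → (∀ d ∈ Icc 1 Q, d ∣ N) → (∀ p ∈ P, p ∣ N) →
    |∑ n ∈ range N, wt Q c n * SO (fun _ => {0}) P U n - U * V P * ∑ n ∈ range N, wt Q c n| ≤
      2 * (1 / 2 : ℝ) ^ b * (U * V P) * (N * mu Q c) := by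
  classical
  obtain ⟨X2, hX2⟩ := badmass K (K + 2)
  obtain ⟨cm, hcm, hmert⟩ := mert
  obtain ⟨δ, hδ⟩ : ∃ δ : ℝ, δ = (1 / 2 : ℝ) ^ b := ⟨_, rfl⟩
  have hδ0 : 0 < δ := by rw [hδ]; positivity
  have E := (log_tend.eventually_ge_atTop (1 + 2 / (δ * cm))).and (eventually_ge_atTop 3)
  obtain ⟨X3, hX3⟩ := E.exists_forall_of_atTop
  refine ⟨max X2 X3, ?_⟩
  intro X hX U Q hQ1 hQX P hPX hc1 c hw hc hmu N hN0 hdN hPN
  have hc2 := hX2 X ((le_max_left _ _).trans hX) Q hQ1 hQX c hc
  obtain ⟨e1, e2⟩ := hX3 X ((le_max_right _ _).trans hX)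
  have hP : ∀ p ∈ P, p.Prime := fun p hp => (hPX p hp).1
  have hVP : cm / Real.log X ≤ V P := hmert X (by omega) P hPX
  have hV0 : 0 < V (P) := V_pos hP
  obtain ⟨L, hL⟩ : ∃ L : ℝ, L = Real.log X := ⟨_, rfl⟩
  rw [← hL] at hc1 hc2 hc e1 hmu hVP
  have hL1 : 1 ≤ L := by
    have : 0 ≤ 2 / (δ * cm) := by positivity
    linarith
  have hL0 : 0 < L := by linarith
  obtain ⟨M, hM⟩ : ∃ M, M = ∏ p ∈ P, p := ⟨_, rfl⟩
  have hM0 : 0 < M := by rw [hM]; exact prod_pos fun p hp => (hP p hp).pos
  have hMN : M ∣ N := by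
    rw [hM]
    apply Finset.prod_primes_dvd
    · intro p hp; exact (hP p hp).prime
    · intro p hp
      exact hPN p hp
  obtain ⟨k, hk⟩ := hMN
  rw [← hM] at hc1
  obtain ⟨bad, hbad⟩ : ∃ bad : ℕ → Prop, bad = fun n => δ * (U * V (P)) <
      |SO (fun _ => {0}) (P) U n - U * V (P)| := ⟨_, rfl⟩
  have hc1' : (((range M).filter bad).card : ℝ) * L ^ (2 * K + 4 * (K + 2) + 10) ≤ M := by
    rw [hbad, hδ]
    convert hc1
  -- the bad set has density at most `L^(-C)`
  have hper : ∀ n, (if bad (n + M) then (1 : ℝ) else 0) = if bad n then (1 : ℝ) else 0 := by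
    intro n
    have h1 : bad (n + M) ↔ bad n := by
      rw [hbad]
      show (δ * (U * V (P)) < |SO (fun _ => {0}) (P) U (n + M) - U * V (P)|) ↔
        (δ * (U * V (P)) < |SO (fun _ => {0}) (P) U n - U * V (P)|)
      rw [SO_per (fun _ => {0}) (P) U M n (fun p hp => by
        rw [hM]; exact dvd_prod_of_mem (fun p : ℕ => p) hp)]
    simp only [h1]
  have hcount : (((range N).filter bad).card : ℝ) * L ^ (2 * K + 4 * (K + 2) + 10) ≤ N := by
    have h1 : (((range N).filter bad).card : ℝ) = k * (((range M).filter bad).card : ℝ) := by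
      rw [card_filter, card_filter, hk]
      push_cast
      exact per_sum hper k
    rw [h1, hk]
    push_cast
    have := mul_le_mul_of_nonneg_left hc1' (Nat.cast_nonneg (α := ℝ) k)
    linarith
  have hb := hc2 N hdN ((range N).filter bad) (filter_subset _ _) hcount
  have hb' : ∑ n ∈ (range N).filter bad, |wt Q c n| = ∑ n ∈ (range N).filter bad, wt Q c n :=
    sum_congr rfl fun n _ => abs_of_nonneg (hw n)
  rw [hb'] at hb
  -- the weighted sum
  have hsw := sum_wt Q N c hdN
  have hUr : (0 : ℝ) ≤ U := Nat.cast_nonneg _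
  have hNr : (0 : ℝ) < N := by exact_mod_cast hN0
  have hmu0 : 0 < mu Q c := lt_of_lt_of_le (by positivity) hmu
  have h1 : |∑ n ∈ range N, wt Q c n * SO (fun _ => {0}) (P) U n - U * V (P) * ∑ n ∈ range N, wt Q c n| ≤
      2 * δ * (U * V (P)) * (N * mu Q c) := by
    have h2 : ∑ n ∈ range N, wt Q c n * SO (fun _ => {0}) (P) U n - U * V (P) * ∑ n ∈ range N, wt Q c n =
        ∑ n ∈ range N, wt Q c n * (SO (fun _ => {0}) (P) U n - U * V (P)) := by
      rw [mul_sum, ← sum_sub_distrib]
      apply sum_congr rfl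
      intro n _
      ring
    rw [h2]
    refine (abs_sum_le_sum_abs _ _).trans ?_
    have h3 : ∀ n ∈ range N, |wt Q c n * (SO (fun _ => {0}) (P) U n - U * V (P))| ≤
        wt Q c n * (δ * (U * V (P))) + (if bad n then wt Q c n * U else 0) := by
      intro n _
      rw [abs_mul, abs_of_nonneg (hw n)]
      by_cases hbn : bad n
      · rw [if_pos hbn]
        have h4 : |SO (fun _ => {0}) (P) U n - U * V (P)| ≤ U := by
          have a1 := SO_le (fun _ => {0}) (P) U n
          have a2 := SO_nonneg (fun _ => {0}) (P) U n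
          have a3 : U * V (P) ≤ U * 1 := mul_le_mul_of_nonneg_left (by
            have := VO_le_one (Om := fun _ => ({0} : Finset ℕ)) hP (fun p hp => by simpa using (hP p hp).one_lt)
            rwa [VO_V] at this) hUr
          have a4 : 0 ≤ U * V (P) := by positivity
          rw [abs_le]
          constructor <;> linarith
        have h5 := mul_le_mul_of_nonneg_left h4 (hw n)
        have h6 : 0 ≤ wt Q c n * (δ * (U * V (P))) := by
          have := hw n
          positivity
        linarith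
      · rw [if_neg hbn, add_zero]
        apply mul_le_mul_of_nonneg_left _ (hw n)
        rw [hbad] at hbn
        exact not_lt.1 hbn
    refine (sum_le_sum h3).trans ?_
    rw [sum_add_distrib, ← sum_mul, hsw, ← sum_filter, ← sum_mul]
    have h4 : (∑ n ∈ (range N).filter bad, wt Q c n) * U ≤ δ * (U * V (P)) * (N * mu Q c) := by
      have h5 : (∑ n ∈ (range N).filter bad, wt Q c n) ≤ N / L ^ (K + 2) := by
        rw [le_div_iff₀ (by positivity)]
        exact hb
      have h6 : (N : ℝ) / L ^ (K + 2) ≤ δ * V (P) * (N * mu Q c) := by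
        have h7 : δ * (cm / L) * (N * (1 / (2 * L ^ K))) ≤ δ * V (P) * (N * mu Q c) := by
          apply mul_le_mul
          · exact mul_le_mul_of_nonneg_left hVP hδ0.le
          · exact mul_le_mul_of_nonneg_left hmu hNr.le
          · positivity
          · positivity
        refine le_trans ?_ h7
        have h8 : δ * (cm / L) * (N * (1 / (2 * L ^ K))) = (N / L ^ (K + 2)) * (δ * cm * L / 2) := by
          rw [pow_add]
          field_simp
        rw [h8]
        have h9 : 1 ≤ δ * cm * L / 2 := by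
          have h10 : 2 / (δ * cm) ≤ L := by linarith
          rw [div_le_iff₀ (by positivity)] at h10
          linarith
        exact le_mul_of_one_le_right (by positivity) h9
      have h7 := mul_le_mul_of_nonneg_right (h5.trans h6) hUr
      refine h7.trans (le_of_eq ?_)
      ring
    linarith
  rw [← hδ]
  exact h1

end Pool.Agent.N422.SQ
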