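import Pool.Agent.N422.SQ4

/-! Sums of squares: the model, intervals of length `A log X log log log X`. Author: helper422. -/

set_option autoImplicit false

namespace Pool.Agent.N422.SQ

open Finset Filter Topology Pool.Agent.Y829 Pool.Agent.Y829.RP Pool.Agent.Y829.RS Pool.Agent.N422.SW

/-- `w` is a finite sum of squares of functions of level `X` -/
def Sq (X : ℕ) (w : ℕ → ℝ) : Prop :=
  ∃ (m : ℕ) (v : ℕ → ℕ → ℕ → ℝ), (∀ j d n, v j d (n + d) = v j d n) ∧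
    ∀ n, w n = ∑ j ∈ range m, (∑ d ∈ Icc 1 X, v j d n) ^ 2

lemma SO_eq (P : Finset ℕ) (U n : ℕ) : SO (fun _ => {0}) P U n =
    (((Icc 1 U).filter (fun h => ∀ p ∈ P, ¬ p ∣ n + h)).card : ℝ) := by
  classical
  unfold SO
  refine congrArg Nat.cast (congrArg card ?_)
  apply filter_congr
  intro h _
  refine forall₂_congr fun p _ => ?_
  rw [mem_singleton, Nat.dvd_iff_mod_eq_zero]

lemma SO_filter (P : Finset ℕ) (U Y n : ℕ) : SO (fun _ => {0}) (P.filter (fun p => p ≤ Y)) U n =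
    (((Icc 1 U).filter (fun h => ∀ p ∈ P, p ≤ Y → ¬ p ∣ n + h)).card : ℝ) := by
  classical
  rw [SO_eq]
  refine congrArg Nat.cast (congrArg card ?_)
  apply filter_congr
  intro h _
  constructor
  · intro h1 p hp hpY
    exact h1 p (mem_filter.2 ⟨hp, hpY⟩)
  · intro h1 p hp
    exact h1 p (mem_filter.1 hp).1 (mem_filter.1 hp).2

lemma V_split (P : Finset ℕ) (Y : ℕ) :
    V P = V (P.filter (fun p => p ≤ Y)) * ∏ p ∈ P.filter (fun p : ℕ => Y < p), (1 - 1 / (p : ℝ)) := by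
  unfold V
  rw [← prod_filter_mul_prod_filter_not P (fun p => p ≤ Y)]
  congr 1
  apply prod_congr _ fun _ _ => rfl
  apply filter_congr
  intro p _
  exact not_le

lemma lll_tend : Tendsto (fun X : ℕ => Real.log (Real.log (Real.log (X : ℝ)))) atTop atTop :=
  Real.tendsto_log_atTop.comp ll_tend

lemma ev3 : ∀ᶠ X : ℕ in atTop, 4 * Real.log (Real.log X) ^ 3 ≤ Real.log X := by
  have h1 : ∀ᶠ L : ℝ in atTop, 4 * Real.log L ^ 3 ≤ L := by
    have h2 := (Real.isLittleO_pow_log_id_atTop (n := 3)).def (show (0 : ℝ) < 1 / 4 by norm_num)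
    filter_upwards [h2, eventually_ge_atTop (1 : ℝ)] with L h3 hL
    have h4 : 0 ≤ Real.log L := Real.log_nonneg hL
    rw [Real.norm_of_nonneg (by positivity), id, Real.norm_of_nonneg (by linarith)] at h3
    linarith
  exact log_tend.eventually h1

/-- **the model for sums of squares** -/
theorem model3 (K b : ℕ) : ∃ A : ℝ, 1 ≤ A ∧ ∃ X0 : ℕ, ∀ X : ℕ, X0 ≤ X → ∀ U Q : ℕ,
    A * (Real.log X * Real.log (Real.log (Real.log X))) ≤ U → (U : ℝ) ≤ Real.log X ^ 2 → 1 ≤ Q → Q ≤ X →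
    ∀ c : ℕ → ℕ → ℝ, Sq X (wt Q c) → ∑ d ∈ Icc 1 Q, ss c d ^ 2 / d ≤ Real.log X ^ K →
    1 / (2 * Real.log X ^ K) ≤ mu Q c →
    |∑ h ∈ Icc 1 U, RP.GG Q c h - U * mu Q c| ≤ 4 * (1 / 2 : ℝ) ^ b * (U * mu Q c) := by
  classical
  obtain ⟨X1, hX1⟩ := conc3 b (2 * K + 4 * (K + 2) + 10)
  obtain ⟨X2, hX2⟩ := avg K b
  obtain ⟨cm, hcm, hmert⟩ := mert
  obtain ⟨cV, C, hcV, hC0, hratio⟩ := mert_ratio
  obtain ⟨δ, hδ⟩ : ∃ δ : ℝ, δ = (1 / 2 : ℝ) ^ b := ⟨_, rfl⟩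
  have hδ0 : 0 < δ := by rw [hδ]; positivity
  have hδ1 : δ ≤ 1 := by rw [hδ]; exact pow_le_one₀ (by norm_num) (by norm_num)
  obtain ⟨A, hA⟩ : ∃ A : ℝ, A = 1 + 960 / (δ ^ 2 * cV * cm) := ⟨_, rfl⟩
  have hA0 : 0 < 960 / (δ ^ 2 * cV * cm) := by positivity
  have E := ((ev3.and (lll_tend.eventually_ge_atTop (1 + Real.log 2 + C))).and
    (log_tend.eventually_ge_atTop (2 : ℝ))).and (eventually_ge_atTop 3)
  obtain ⟨X3, hX3⟩ := E.exists_forall_of_atTop
  refine ⟨A, by linarith, max (max X1 X2) X3, ?_⟩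
  intro X hX U Q hU hU2 hQ1 hQX c hsq hc hmu
  obtain ⟨⟨⟨e1, e2⟩, e3⟩, e4⟩ := hX3 X ((le_max_right _ _).trans hX)
  have hcc := hX1 X ((le_max_left _ _).trans ((le_max_left _ _).trans hX)) U Q
  have hav := hX2 X ((le_max_right _ _).trans ((le_max_left _ _).trans hX)) U Q hQ1 hQX
  obtain ⟨m, v, hv, hwv⟩ := hsq
  have hw : ∀ n, 0 ≤ wt Q c n := fun n => by
    rw [hwv]
    exact sum_nonneg fun _ _ => sq_nonneg _
  obtain ⟨L, hL⟩ : ∃ L : ℝ, L = Real.log X := ⟨_, rfl⟩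
  obtain ⟨l, hl⟩ : ∃ l : ℝ, l = Real.log L := ⟨_, rfl⟩
  obtain ⟨a, ha⟩ : ∃ a : ℝ, a = Real.log l := ⟨_, rfl⟩
  have hmu' := hmu
  have hc' := hc
  rw [← hL] at hU hU2 e1 e2 e3 hcc hmu hc
  rw [← hl] at hU e1 e2 hcc
  rw [← ha] at hU e2
  have hlog2 : 0 < Real.log 2 := Real.log_pos one_lt_two
  have ha1 : 1 ≤ a := by linarith
  have hl1 : 1 ≤ l := by
    by_contra h
    have h0 : 0 ≤ l := by rw [hl]; exact Real.log_nonneg (by linarith)
    have h1 : a ≤ 0 := by rw [ha]; exact Real.log_nonpos h0 (not_le.1 h).le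
    linarith
  have hL0 : 0 < L := by linarith
  have hXr : (0 : ℝ) < X := by exact_mod_cast (by omega : 0 < X)
  -- the parameter `Y`
  obtain ⟨Z, hZ⟩ : ∃ Z : ℝ, Z = Real.exp (L / l ^ 2) := ⟨_, rfl⟩
  obtain ⟨Y, hY⟩ : ∃ Y : ℕ, Y = ⌊Z⌋₊ := ⟨_, rfl⟩
  have hll : 4 * l ≤ L / l ^ 2 := by
    rw [le_div_iff₀ (by positivity)]
    refine le_trans (le_of_eq ?_) e1
    ring
  have hZ4 : L ^ 4 ≤ Z := by
    have h1 : L ^ 4 = Real.exp (4 * l) := by
      rw [hl]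
      have h2 : (4 : ℝ) * Real.log L = Real.log (L ^ 4) := by rw [Real.log_pow]; norm_num
      rw [h2, Real.exp_log (by positivity)]
    rw [h1, hZ]
    exact Real.exp_le_exp.2 hll
  have hZL : L ^ 2 + 1 ≤ Z := by
    have h1 : 4 ≤ L ^ 2 := by nlinarith
    nlinarith
  have hZ0 : 0 < Z := by rw [hZ]; exact Real.exp_pos _
  have hYZ : (Y : ℝ) ≤ Z := by rw [hY]; exact Nat.floor_le hZ0.le
  have hZY : Z < Y + 1 := by rw [hY]; exact Nat.lt_floor_add_one Z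
  have hUY : U ≤ Y := by
    have h1 : (U : ℝ) ≤ Y := by linarith
    exact_mod_cast h1
  have hY2 : 2 ≤ Y := by
    have h1 : (1 : ℝ) < Y := by nlinarith
    exact_mod_cast h1
  have hYr : (0 : ℝ) < Y := by exact_mod_cast (by omega : 0 < Y)
  have hYl : Real.log Y ≤ L / l ^ 2 := by
    have h1 := Real.log_le_log hYr hYZ
    rwa [hZ, Real.log_exp] at h1
  have hlY0 : 0 < Real.log Y := Real.log_pos (by exact_mod_cast (by omega : 1 < Y))
  have hYlow : L / (2 * l ^ 2) ≤ Real.log Y := by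
    have h1 : Z / 2 ≤ Y := by
      have : (2 : ℝ) ≤ Y := by exact_mod_cast hY2
      linarith
    have h2 := Real.log_le_log (by positivity) h1
    rw [Real.log_div hZ0.ne' (by norm_num), hZ, Real.log_exp] at h2
    have h3 : L / (2 * l ^ 2) = L / l ^ 2 / 2 := by
      field_simp
    have h4 : Real.log 2 ≤ 1 := by
      have := Real.log_two_lt_d9
      linarith
    rw [h3]
    linarith
  have hYX : Y ≤ X := by
    have h1 : (Y : ℝ) ≤ X := by
      refine hYZ.trans ?_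
      rw [hZ]
      have h2 : L / l ^ 2 ≤ L := div_le_self hL0.le (one_le_pow₀ hl1)
      calc Real.exp (L / l ^ 2) ≤ Real.exp L := Real.exp_le_exp.2 h2
        _ = X := by rw [hL, Real.exp_log hXr]
    exact_mod_cast h1
  -- the primes
  obtain ⟨P, hPdef⟩ : ∃ P, P = PQ Q := ⟨_, rfl⟩
  obtain ⟨PY, hPY⟩ : ∃ PY, PY = P.filter (fun p => p ≤ Y) := ⟨_, rfl⟩
  obtain ⟨PL, hPL⟩ : ∃ PL, PL = P.filter (fun p : ℕ => Y < p) := ⟨_, rfl⟩
  have hP : ∀ p ∈ P, p.Prime ∧ p ≤ Q := fun p hp => by rw [hPdef] at hp; exact mem_PQ.1 hp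
  have hPYp : ∀ p ∈ PY, p.Prime ∧ p ≤ Y := fun p hp => by
    rw [hPY, mem_filter] at hp
    exact ⟨(hP p hp.1).1, hp.2⟩
  have hPLp : ∀ p ∈ PL, p.Prime ∧ Y < p ∧ p ≤ X := fun p hp => by
    rw [hPL, mem_filter] at hp
    exact ⟨(hP p hp.1).1, hp.2, (hP p hp.1).2.trans hQX⟩
  obtain ⟨N, hN⟩ : ∃ N, N = X.factorial := ⟨_, rfl⟩
  have hN0 : 0 < N := by rw [hN]; exact Nat.factorial_pos _
  have hXN : ∀ d ∈ Icc 1 X, d ∣ N := by rw [hN]; exact dvdfac X
  have hdN : ∀ d ∈ Icc 1 Q, d ∣ N := fun d hd => by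
    rw [mem_Icc] at hd
    exact hXN d (mem_Icc.2 ⟨hd.1, hd.2.trans hQX⟩)
  have hPN : ∀ p ∈ P, p ∣ N := fun p hp => hdN p (mem_Icc.2 ⟨(hP p hp).1.one_lt.le, (hP p hp).2⟩)
  have hNr : (0 : ℝ) < N := by exact_mod_cast hN0
  have hUL : L ≤ U := by
    refine le_trans ?_ hU
    have h1 : 1 ≤ A * a := one_le_mul_of_one_le_of_one_le (by linarith) ha1
    have h2 := mul_le_mul_of_nonneg_left h1 hL0.le
    linarith
  -- the small primes
  have hsmall := hav PY (fun p hp => ⟨(hPYp p hp).1, (hPYp p hp).2.trans hYX⟩) (by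
    rw [hPY, hPdef, ← hL]
    have := hcc Y hUL hQX hY2 hYl
    convert this) c hw hc' hmu' N hN0 hdN (fun p hp => hPN p (by rw [hPY] at hp; exact (mem_filter.1 hp).1))
  have hsw := sum_wt Q N c hdN
  have hmu0 : 0 < mu Q c := lt_of_lt_of_le (by positivity) hmu
  -- the large primes
  obtain ⟨Λ, hΛ⟩ : ∃ Λ : ℝ, Λ = ∑ p ∈ PL, 1 / (p : ℝ) := ⟨_, rfl⟩
  have hΛ0 : 0 ≤ Λ := by rw [hΛ]; exact sum_nonneg fun _ _ => by positivity
  have hΛa : Λ ≤ 3 * a := by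
    have h1 := (hratio Y X hY2 hYX PL hPLp).2
    rw [← hΛ, ← hL] at h1
    have h2 : L / Real.log Y ≤ 2 * l ^ 2 := by
      rw [div_le_iff₀ hlY0]
      rw [div_le_iff₀ (by positivity)] at hYlow
      linarith
    have h3 := Real.log_le_log (by positivity) h2
    have h4 : Real.log (2 * l ^ 2) = Real.log 2 + 2 * a := by
      rw [Real.log_mul (by norm_num) (by positivity), Real.log_pow, ha]
      norm_num
    linarith
  obtain ⟨τ, hτ⟩ : ∃ τ : ℝ, τ = δ / (48 * a) := ⟨_, rfl⟩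
  have hτ0 : 0 < τ := by rw [hτ]; positivity
  have hτ1 : τ ≤ 1 := by
    rw [hτ, div_le_one (by positivity)]
    linarith
  have hτΛ : 4 * τ * Λ ≤ δ / 4 := by
    have h1 : 4 * τ * Λ ≤ 4 * τ * (3 * a) := mul_le_mul_of_nonneg_left hΛa (by positivity)
    refine h1.trans (le_of_eq ?_)
    rw [hτ]
    field_simp
    norm_num
  obtain ⟨D, hD⟩ : ∃ D : ℝ, D = ∏ p ∈ PL, (1 - 1 / (p : ℝ)) := ⟨_, rfl⟩
  have hD0 : 0 < D := by
    rw [hD]
    exact prod_pos fun p hp => fac_pos (hPLp p hp).1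
  have hcore : ∀ j, |∑ n ∈ range N, (∑ d ∈ Icc 1 X, v j d n) ^ 2 * SO (fun _ => {0}) P U n -
      D * ∑ n ∈ range N, (∑ d ∈ Icc 1 X, v j d n) ^ 2 * SO (fun _ => {0}) PY U n| ≤
      D * (4 * τ * Λ * ∑ n ∈ range N, (∑ d ∈ Icc 1 X, v j d n) ^ 2 * SO (fun _ => {0}) PY U n +
        20 / (τ * (cV * Real.log Y)) * Real.log X * ∑ n ∈ range N, (∑ d ∈ Icc 1 X, v j d n) ^ 2) := by
    intro j
    have h1 := core2 hcV (U := U) hY2 hUY (R := X) (by exact_mod_cast (by omega : 1 ≤ X)) (P := P)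
      (fun p hp => (hP p hp).1) (fun p hp hYp => by
        refine (hratio Y p hY2 hYp.le _ ?_).1
        intro q hq
        rw [mem_filter, mem_filter] at hq
        exact ⟨(hP q hq.1.1).1, hq.1.2, hq.2.le⟩) hτ0 hτ1 (by
        rw [← hPL, ← hΛ]
        linarith) (Icc 1 X) (fun d => d) (fun d => v j d) (fun d hd => by
        rw [mem_Icc] at hd
        exact ⟨by omega, by exact_mod_cast hd.2, hv j d⟩) hN0 hPN hXN
    rw [← hPL, ← hΛ, ← hD] at h1
    simp only [← SO_eq, ← SO_filter, ← hPY] at h1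
    exact h1
  have hsumj : ∀ G : ℕ → ℝ, ∑ j ∈ range m, ∑ n ∈ range N, (∑ d ∈ Icc 1 X, v j d n) ^ 2 * G n =
      ∑ n ∈ range N, wt Q c n * G n := by
    intro G
    rw [sum_comm]
    apply sum_congr rfl
    intro n _
    rw [← sum_mul, ← hwv]
  have hsumj1 : ∑ j ∈ range m, ∑ n ∈ range N, (∑ d ∈ Icc 1 X, v j d n) ^ 2 = N * mu Q c := by
    rw [← hsw, sum_comm]
    apply sum_congr rfl
    intro n _
    rw [← hwv]
  obtain ⟨SP, hSP⟩ : ∃ SP : ℝ, SP = ∑ n ∈ range N, wt Q c n * SO (fun _ => {0}) P U n := ⟨_, rfl⟩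
  obtain ⟨SY, hSY⟩ : ∃ SY : ℝ, SY = ∑ n ∈ range N, wt Q c n * SO (fun _ => {0}) PY U n := ⟨_, rfl⟩
  have hbig : |SP - D * SY| ≤ D * (4 * τ * Λ * SY + 20 / (τ * (cV * Real.log Y)) * L * (N * mu Q c)) := by
    have h1 : SP - D * SY = ∑ j ∈ range m, (∑ n ∈ range N, (∑ d ∈ Icc 1 X, v j d n) ^ 2 * SO (fun _ => {0}) P U n -
      D * ∑ n ∈ range N, (∑ d ∈ Icc 1 X, v j d n) ^ 2 * SO (fun _ => {0}) PY U n) := by
      rw [sum_sub_distrib, ← mul_sum, hsumj, hsumj, hSP, hSY]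
    rw [h1]
    refine (abs_sum_le_sum_abs _ _).trans ((sum_le_sum fun j _ => hcore j).trans (le_of_eq ?_))
    rw [← mul_sum, sum_add_distrib, ← mul_sum, ← mul_sum, hsumj, hsumj1, ← hSY, ← hL]
  rw [← hSY, hsw, ← hδ] at hsmall
  -- assembly
  obtain ⟨VY, hVY⟩ : ∃ VY : ℝ, VY = V PY := ⟨_, rfl⟩
  rw [← hVY] at hsmall
  have hVPY : V P = VY * D := by rw [hVY, hPY, hD, hPL]; exact V_split P Y
  have hVY0 : 0 < VY := by rw [hVY]; exact V_pos fun p hp => (hPYp p hp).1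
  have hVYlow : cm / Real.log Y ≤ VY := by rw [hVY]; exact hmert Y hY2 PY hPYp
  have hUr : (0 : ℝ) < U := by linarith
  have hNm : 0 < N * mu Q c := by positivity
  obtain ⟨W, hW⟩ : ∃ W : ℝ, W = U * VY * (N * mu Q c) := ⟨_, rfl⟩
  have hW0 : 0 < W := by rw [hW]; positivity
  have hsm : |SY - W| ≤ 2 * δ * W := by
    rw [hW]
    refine le_trans (le_of_eq ?_) (hsmall.trans (le_of_eq ?_))
    · rfl
    · ring
  have hSYle : SY ≤ 3 * W := by
    have h1 := (abs_le.1 hsm).2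
    nlinarith
  have hSY0 : 0 ≤ SY := by
    rw [hSY]
    exact sum_nonneg fun n _ => mul_nonneg (hw n) (SO_nonneg _ _ _ _)
  have hE0 : 20 / (τ * (cV * Real.log Y)) * L * (N * mu Q c) ≤ δ * W := by
    have h1 : 20 / (τ * (cV * Real.log Y)) * L ≤ δ * (U * VY) := by
      have h2 : δ * (U * (cm / Real.log Y)) ≤ δ * (U * VY) := by
        apply mul_le_mul_of_nonneg_left _ hδ0.le
        exact mul_le_mul_of_nonneg_left hVYlow hUr.le
      refine le_trans ?_ h2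
      have h3 : 960 / (δ ^ 2 * cV * cm) * (L * a) ≤ U := by
        refine le_trans ?_ hU
        apply mul_le_mul_of_nonneg_right _ (by positivity)
        linarith
      have h4 : 20 / (τ * (cV * Real.log Y)) * L = δ * ((960 / (δ ^ 2 * cV * cm) * (L * a)) * (cm / Real.log Y)) := by
        rw [hτ]
        field_simp
        norm_num
      rw [h4]
      apply mul_le_mul_of_nonneg_left _ hδ0.le
      exact mul_le_mul_of_nonneg_right h3 (by positivity)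
    have h5 := mul_le_mul_of_nonneg_right h1 hNm.le
    refine h5.trans (le_of_eq ?_)
    rw [hW]
    ring
  have htot : |SP - D * W| ≤ D * (4 * δ * W) := by
    have h1 : |SP - D * W| ≤ |SP - D * SY| + D * |SY - W| := by
      have e5 : SP - D * W = (SP - D * SY) + D * (SY - W) := by ring
      rw [e5]
      refine (abs_add_le _ _).trans ?_
      rw [abs_mul, abs_of_pos hD0]
    have h2 : 4 * τ * Λ * SY ≤ δ / 4 * (3 * W) := mul_le_mul hτΛ hSYle hSY0 (by positivity)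
    have h3 : D * (4 * τ * Λ * SY + 20 / (τ * (cV * Real.log Y)) * L * (N * mu Q c)) ≤ D * (2 * δ * W) := by
      apply mul_le_mul_of_nonneg_left _ hD0.le
      have : 0 ≤ δ * W := by positivity
      linarith
    have h4 : D * |SY - W| ≤ D * (2 * δ * W) := mul_le_mul_of_nonneg_left hsm hD0.le
    have e6 : D * (4 * δ * W) = D * (2 * δ * W) + D * (2 * δ * W) := by ring
    rw [e6]
    linarith
  have hSPG : SP = N * V P * ∑ h ∈ Icc 1 U, RP.GG Q c h := by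
    rw [hSP, hPdef]
    exact sum_GG Q U N c hN0 hdN
  have hNV : 0 < (N : ℝ) * V P := by rw [hVPY]; positivity
  have h2 : N * V P * |∑ h ∈ Icc 1 U, RP.GG Q c h - U * mu Q c| ≤ N * V P * (4 * δ * (U * mu Q c)) := by
    have e3 : N * V P * |∑ h ∈ Icc 1 U, RP.GG Q c h - U * mu Q c| = |SP - D * W| := by
      have e4 : SP - D * W = (N * V P) * (∑ h ∈ Icc 1 U, RP.GG Q c h - U * mu Q c) := by
        rw [hSPG, hW, hVPY]
        ring
      rw [e4, abs_mul, abs_of_pos hNV]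
    rw [e3]
    refine htot.trans (le_of_eq ?_)
    rw [hW, hVPY]
    ring
  rw [← hδ]
  exact le_of_mul_le_mul_left h2 hNV

end Pool.Agent.N422.SQ
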