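import Pool.Agent.N422.SQ5

/-! Sums of squares: the theorem. Author: helper422 (the last step is adapted from `Pool.Agent.Y829.RS5`). -/

set_option autoImplicit false

namespace Pool.Agent.N422.SQ

open Finset Filter Topology Pool.Agent.Y829 Pool.Agent.Y829.RP Pool.Agent.Y829.RS Pool.Agent.N422.SW

/-- **the model for sums of squares**, all lengths -/
theorem model4 (K b : ℕ) : ∃ A : ℝ, 1 ≤ A ∧ ∃ X0 : ℕ, ∀ X : ℕ, X0 ≤ X → ∀ U Q : ℕ,
    A * (Real.log X * Real.log (Real.log (Real.log X))) ≤ U → 1 ≤ Q → Q ≤ X →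
    ∀ c : ℕ → ℕ → ℝ, Sq X (wt Q c) → ∑ d ∈ Icc 1 Q, ss c d ^ 2 / d ≤ Real.log X ^ K →
    1 / (2 * Real.log X ^ K) ≤ mu Q c →
    |∑ h ∈ Icc 1 U, RP.GG Q c h - U * mu Q c| ≤ 2 * (1 / 2 : ℝ) ^ b * (U * mu Q c) := by
  obtain ⟨A, hA1, X1, h1⟩ := model3 K (b + 1)
  obtain ⟨A', hA'1, X2, h2⟩ := model2 K b
  have hev : ∀ᶠ X : ℕ in atTop, A' * Real.log (Real.log X) ≤ Real.log X := by
    have h3 := evl 1 A' 0 one_pos
    filter_upwards [h3] with X h4
    rw [Real.rpow_one] at h4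
    linarith
  obtain ⟨X3, h3⟩ := (hev.and (log_tend.eventually_ge_atTop (0 : ℝ))).exists_forall_of_atTop
  refine ⟨A, hA1, max (max X1 X2) X3, ?_⟩
  intro X hX U Q hU hQ1 hQX c hsq hc hmu
  rcases le_or_gt (U : ℝ) (Real.log X ^ 2) with h | h
  · have h4 := h1 X ((le_max_left _ _).trans ((le_max_left _ _).trans hX)) U Q hU h hQ1 hQX c hsq hc hmu
    refine h4.trans (le_of_eq ?_)
    rw [pow_succ]
    ring
  · refine h2 X ((le_max_right _ _).trans ((le_max_left _ _).trans hX)) U Q ?_ hQ1 hQX c ?_ hc hmu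
    · obtain ⟨h5, h6⟩ := h3 X ((le_max_right _ _).trans hX)
      refine le_trans ?_ h.le
      have := mul_le_mul_of_nonneg_left h5 h6
      rw [sq]
      linarith
    · intro n
      obtain ⟨m, v, -, hwv⟩ := hsq
      rw [hwv]
      exact sum_nonneg fun _ _ => sq_nonneg _

/-- **Sums of squares: intervals of length `A log X log log log X`** -/
theorem main_sq (K b : ℕ) : ∃ A : ℝ, 1 ≤ A ∧ ∃ B X0 : ℕ, ∀ X U Q : ℕ, X0 ≤ X →
    A * (Real.log X * Real.log (Real.log (Real.log X))) ≤ U → U ≤ X → 1 ≤ Q → (Q : ℝ) ^ 2 * Real.log X ^ B ≤ X →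
    ∀ c : ℕ → ℕ → ℝ, Sq X (wt Q c) → ∑ d ∈ Icc 1 Q, ss c d ^ 2 / d ≤ Real.log X ^ K →
    X / Real.log X ^ K ≤ ∑ n ∈ Ioc X (2 * X), wt Q c n →
      |∑ n ∈ Ioc X (2 * X), wt Q c n * pw U n - U / Real.log X * ∑ n ∈ Ioc X (2 * X), wt Q c n| ≤
        (1 / 2 : ℝ) ^ b * (U / Real.log X * ∑ n ∈ Ioc X (2 * X), wt Q c n) := by
  classical
  obtain ⟨x, hx⟩ : ∃ x : ℝ, x = (1 / 2 : ℝ) ^ (b + 2) := ⟨_, rfl⟩
  have hx0 : 0 < x := by rw [hx]; positivity
  have hxb : (1 / 2 : ℝ) ^ b = 4 * x := by rw [hx, pow_add]; norm_num; ring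
  have hx1 : x ≤ 1 / 4 := by
    have : (1 / 2 : ℝ) ^ b ≤ 1 := pow_le_one₀ (by norm_num) (by norm_num)
    linarith
  obtain ⟨B, X0, hred⟩ := reduc K (x / 8) (by positivity) (by linarith)
  obtain ⟨A, hA1, X1, hX1⟩ := model4 K (b + 3)
  have E := (log_tend.eventually_ge_atTop (1 : ℝ)).and ((evbig K).and (eventually_ge_atTop 3))
  obtain ⟨X2, hX2⟩ := E.exists_forall_of_atTop
  refine ⟨A, hA1, max B K, max (max X0 X1) X2, ?_⟩
  intro X U Q hX hU hUX hQ hQX c hsq hc hW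
  have hw : ∀ n, 0 ≤ wt Q c n := fun n => by
    obtain ⟨m, v, -, hwv⟩ := hsq
    rw [hwv]
    exact sum_nonneg fun _ _ => sq_nonneg _
  obtain ⟨e1, e2, e3⟩ := hX2 X ((le_max_right _ _).trans hX)
  have hX0' : X0 ≤ X := (le_max_left _ _).trans ((le_max_left _ _).trans hX)
  have hX1' : X1 ≤ X := (le_max_right _ _).trans ((le_max_left _ _).trans hX)
  obtain ⟨L, hL⟩ : ∃ L : ℝ, L = Real.log X := ⟨_, rfl⟩
  have hXr : (0 : ℝ) < X := by exact_mod_cast (by omega : 0 < X)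
  have hQr : (1 : ℝ) ≤ Q := by exact_mod_cast hQ
  have hQX2 : (Q : ℝ) ^ 2 * Real.log X ^ B ≤ X := by
    refine le_trans ?_ hQX
    apply mul_le_mul_of_nonneg_left _ (by positivity)
    exact pow_le_pow_right₀ e1 (le_max_left _ _)
  have hQX3 : (Q : ℝ) ^ 2 * Real.log X ^ K ≤ X := by
    refine le_trans ?_ hQX
    apply mul_le_mul_of_nonneg_left _ (by positivity)
    exact pow_le_pow_right₀ e1 (le_max_right _ _)
  have hQX4 : Q ≤ X := by
    have h1 : (1 : ℝ) ≤ Real.log X ^ K := one_le_pow₀ e1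
    have h2 : (Q : ℝ) ≤ X := by nlinarith
    exact_mod_cast h2
  obtain ⟨hr1, hr2⟩ := hred X hX0' U Q hUX hQ hQX2 c hw hc hW
  -- the mean of the weight
  have hmu : 1 / (2 * Real.log X ^ K) ≤ mu Q c := by
    have h1 := sum_dy Q X c
    have h2 : ∑ d ∈ Icc 1 Q, ss c d ≤ X / (2 * Real.log X ^ K) := by
      apply abs_le_of_sq_le_sq' _ (by positivity) |>.2
      refine (sumss Q c).trans ?_
      have h3 : (∑ d ∈ Icc 1 Q, ss c d ^ 2 / (d : ℝ)) * (Q : ℝ) ^ 2 ≤ X := by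
        have h4 := mul_le_mul_of_nonneg_right hc (sq_nonneg (Q : ℝ))
        linarith
      refine h3.trans ?_
      rw [div_pow, le_div_iff₀ (by positivity)]
      have h5 : (2 * Real.log X ^ K) ^ 2 = 4 * Real.log X ^ (2 * K) := by
        rw [mul_pow, ← pow_mul]
        norm_num
        ring
      rw [h5, sq]
      exact mul_le_mul_of_nonneg_left e2 hXr.le
    have h3 := (abs_le.1 h1).2
    have h4 : (X : ℝ) / Real.log X ^ K - X / (2 * Real.log X ^ K) ≤ X * mu Q c := by linarith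
    have h5 : (X : ℝ) / Real.log X ^ K - X / (2 * Real.log X ^ K) = X * (1 / (2 * Real.log X ^ K)) := by
      have : (0 : ℝ) < Real.log X ^ K := by positivity
      field_simp
      ring
    rw [h5] at h4
    exact le_of_mul_le_mul_left h4 hXr
  have hmod := hX1 X hX1' U Q hU hQ hQX4 c hsq hc hmu
  have hbx : 2 * (1 / 2 : ℝ) ^ (b + 3) = x := by
    rw [hx, pow_succ (1 / 2 : ℝ) (b + 2)]
    ring
  rw [hbx] at hmod
  have hmod' := abs_le.1 hmod
  have h5 := hr1 (1 - x) (by linarith) (by linarith [hmod'.1])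
  have h6 := hr2 (1 + x) (by linarith) (by linarith [hmod'.2])
  obtain ⟨T, hT⟩ : ∃ T : ℝ, T = U / Real.log X * ∑ n ∈ Ioc X (2 * X), wt Q c n := ⟨_, rfl⟩
  rw [← hT] at h5 h6 ⊢
  have hT0 : 0 ≤ T := by
    have h6 : 0 ≤ ∑ n ∈ Ioc X (2 * X), wt Q c n := sum_nonneg fun n _ => hw n
    rw [hT]
    positivity
  rw [hxb, abs_le]
  constructor
  · have h7 : (1 - 4 * x) * T ≤ ((1 - x / 8) ^ 2 * (1 - x) - x / 8) * T := by
      apply mul_le_mul_of_nonneg_right _ hT0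
      nlinarith [sq_nonneg x, mul_nonneg hx0.le (sq_nonneg x)]
    linarith
  · have h7 : ((1 + x / 8) ^ 2 * (1 + x) + x / 8) * T ≤ (1 + 4 * x) * T := by
      apply mul_le_mul_of_nonneg_right _ hT0
      nlinarith [sq_nonneg x, mul_nonneg hx0.le (sq_nonneg x), mul_nonneg hx0.le (sub_nonneg.2 hx1)]
    linarith



end Pool.Agent.N422.SQ
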