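import Pool.Agent.Y829.G1
import Pool.Agent.Y829.RS1

/-! Exponential moments of the number of survivors with the right order of the variance. Author: helper422. -/

set_option autoImplicit false

namespace Pool.Agent.N422.SW

open Finset Filter Topology Pool.Agent.Y829 Pool.Agent.Y829.RP Pool.Agent.Y829.RS

lemma V_le_one {P : Finset ℕ} (hP : ∀ p ∈ P, p.Prime) : V P ≤ 1 := by
  unfold V
  refine prod_le_one (fun p hp => ?_) fun p hp => ?_
  · exact (fac_pos (hP p hp)).le
  · have : (0 : ℝ) ≤ 1 / (p : ℝ) := by positivity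
    linarith

lemma V_insert {P : Finset ℕ} {p : ℕ} (hp : p ∉ P) : V (insert p P) = (1 - 1 / (p : ℝ)) * V P := by
  unfold V
  rw [prod_insert hp]

lemma stepU {lam v p : ℝ} (hl0 : 0 ≤ lam) (hl1 : lam ≤ 1 / 12) (hv0 : 0 < v) (hv1 : v ≤ 1) (hp : 2 ≤ p) :
    (1 - (1 - lam * (v * Real.exp (8 * lam * (1 - v))) * 2) * (1 / p)) * (v * Real.exp (8 * lam * (1 - v))) ≤
      (1 - 1 / p) * v * Real.exp (8 * lam * (1 - (1 - 1 / p) * v)) := by
  obtain ⟨E, hE⟩ : ∃ E, E = Real.exp (8 * lam * (1 - v)) := ⟨_, rfl⟩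
  have hE0 : 0 < E := by rw [hE]; exact Real.exp_pos _
  have hE2 : E ≤ 2 := by
    rw [hE]
    have h1 : 8 * lam * (1 - v) ≤ 2 / 3 := by nlinarith
    have h2 : (2 : ℝ) / 3 ≤ Real.log 2 := by
      have := Real.log_two_gt_d9
      linarith
    calc Real.exp (8 * lam * (1 - v)) ≤ Real.exp (Real.log 2) := Real.exp_le_exp.2 (h1.trans h2)
      _ = 2 := Real.exp_log (by norm_num)
  have hp0 : 0 < p := by linarith
  have e1 : Real.exp (8 * lam * (1 - (1 - 1 / p) * v)) = E * Real.exp (8 * lam * v / p) := by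
    rw [hE, ← Real.exp_add]
    congr 1
    field_simp
    ring
  rw [e1, ← hE]
  have h1 : 1 + 8 * lam * v / p ≤ Real.exp (8 * lam * v / p) := by
    rw [add_comm]; exact Real.add_one_le_exp _
  have hq : 1 / p ≤ 1 / 2 := one_div_le_one_div_of_le (by norm_num) hp
  have hq0 : 0 < 1 / p := by positivity
  have h2 : (1 - 1 / p) * v * (E * (1 + 8 * lam * v / p)) ≤ (1 - 1 / p) * v * (E * Real.exp (8 * lam * v / p)) := by
    apply mul_le_mul_of_nonneg_left _ (mul_nonneg (by linarith) hv0.le)
    exact mul_le_mul_of_nonneg_left h1 hE0.le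
  refine le_trans ?_ h2
  have h3 : (1 - (1 - lam * (v * E) * 2) * (1 / p)) * (v * E) ≤ (1 - 1 / p) * (1 + 8 * lam * v / p) * (v * E) := by
    apply mul_le_mul_of_nonneg_right _ (by positivity)
    have h4 : lam * (v * E) * 2 * (1 / p) ≤ (1 - 1 / p) * (8 * lam * v / p) := by
      have e2 : (1 - 1 / p) * (8 * lam * v / p) = (lam * v * (1 / p)) * (8 * (1 - 1 / p)) := by ring
      have e3 : lam * (v * E) * 2 * (1 / p) = (lam * v * (1 / p)) * (2 * E) := by ring
      rw [e2, e3]
      apply mul_le_mul_of_nonneg_left _ (by positivity)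
      linarith
    have e4 : 1 - (1 - lam * (v * E) * 2) * (1 / p) = (1 - 1 / p) + lam * (v * E) * 2 * (1 / p) := by ring
    rw [e4]
    linarith
  refine h3.trans (le_of_eq ?_)
  ring

lemma stepL {lam v p : ℝ} (hl0 : 0 ≤ lam) (hl1 : lam ≤ 1 / 12) (hv0 : 0 < v) (hv1 : v ≤ 1) (hp : 2 ≤ p) :
    (1 - 1 / p) * v * Real.exp (-(8 * lam * (1 - (1 - 1 / p) * v))) ≤
    (1 - (1 + lam * (v * Real.exp (-(8 * lam * (1 - v)))) * 2) * (1 / p)) * (v * Real.exp (-(8 * lam * (1 - v)))) := by
  obtain ⟨E, hE⟩ : ∃ E, E = Real.exp (-(8 * lam * (1 - v))) := ⟨_, rfl⟩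
  have hE0 : 0 < E := by rw [hE]; exact Real.exp_pos _
  have hE1 : E ≤ 1 := by
    rw [hE, Real.exp_le_one_iff]
    have : 0 ≤ 8 * lam * (1 - v) := mul_nonneg (by linarith) (by linarith)
    linarith
  have hp0 : 0 < p := by linarith
  have e1 : Real.exp (-(8 * lam * (1 - (1 - 1 / p) * v))) = E * Real.exp (-(8 * lam * v / p)) := by
    rw [hE, ← Real.exp_add]
    congr 1
    field_simp
    ring
  rw [e1, ← hE]
  have hq : 1 / p ≤ 1 / 2 := one_div_le_one_div_of_le (by norm_num) hp
  have hq0 : 0 < 1 / p := by positivity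
  -- `exp(-2 y) ≤ 1 - y`
  have hy : Real.exp (-(8 * lam * v / p)) ≤ 1 - 4 * lam * v / p := by
    obtain ⟨y, hy⟩ : ∃ y, y = 4 * lam * v / p := ⟨_, rfl⟩
    have hy0 : 0 ≤ y := by rw [hy]; positivity
    have hy1 : y ≤ 1 / 2 := by
      rw [hy]
      have : 4 * lam * v / p = 4 * lam * v * (1 / p) := by ring
      rw [this]
      have h5 : 4 * lam * v ≤ 1 / 3 := by nlinarith
      have h6 : 4 * lam * v * (1 / p) ≤ 1 / 3 * (1 / 2) := mul_le_mul h5 hq hq0.le (by norm_num)
      linarith
    have e2 : -(8 * lam * v / p) = -(2 * y) := by rw [hy]; ring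
    rw [e2, ← hy, Real.exp_neg]
    have h6 : 1 + 2 * y ≤ Real.exp (2 * y) := by rw [add_comm]; exact Real.add_one_le_exp _
    rw [inv_le_comm₀ (Real.exp_pos _) (by linarith)]
    refine le_trans ?_ h6
    rw [inv_le_iff_one_le_mul₀ (by linarith)]
    nlinarith
  have h2 : (1 - 1 / p) * v * (E * Real.exp (-(8 * lam * v / p))) ≤ (1 - 1 / p) * v * (E * (1 - 4 * lam * v / p)) := by
    apply mul_le_mul_of_nonneg_left _ (mul_nonneg (by linarith) hv0.le)
    exact mul_le_mul_of_nonneg_left hy hE0.le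
  refine h2.trans ?_
  have h3 : (1 - 1 / p) * (1 - 4 * lam * v / p) * (v * E) ≤ (1 - (1 + lam * (v * E) * 2) * (1 / p)) * (v * E) := by
    apply mul_le_mul_of_nonneg_right _ (by positivity)
    have h4 : lam * (v * E) * 2 * (1 / p) ≤ (1 - 1 / p) * (4 * lam * v / p) := by
      have e2 : (1 - 1 / p) * (4 * lam * v / p) = (lam * v * (1 / p)) * (4 * (1 - 1 / p)) := by ring
      have e3 : lam * (v * E) * 2 * (1 / p) = (lam * v * (1 / p)) * (2 * E) := by ring
      rw [e2, e3]
      apply mul_le_mul_of_nonneg_left _ (by positivity)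
      linarith
    have e4 : 1 - (1 + lam * (v * E) * 2) * (1 / p) = (1 - 1 / p) - lam * (v * E) * 2 * (1 / p) := by ring
    rw [e4]
    linarith
  refine le_trans (le_of_eq ?_) h3
  ring

/-- one prime, with the general step of `Y829` -/
theorem expG (P : Finset ℕ) (s lam : ℝ) (hs : s = 1 ∨ s = -1) (hl0 : 0 ≤ lam) (hl1 : lam ≤ 1 / 12) :
    ∀ (H : Finset ℕ) (x A : ℕ), (∀ p ∈ P, p.Prime) →
    (∀ p ∈ P, ∀ r : ℕ, ((H.filter (fun h => (r + h) % p ∈ ({0} : Finset ℕ))).card : ℝ) ≤ 2) →
    (∀ p ∈ P, A.Coprime p) →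
    ∑ j ∈ range (∏ p ∈ P, p),
      Real.exp (s * lam * ((H.filter (fun h => ∀ p ∈ P, (x + A * j + h) % p ∉ ({0} : Finset ℕ))).card : ℝ)) ≤
      (∏ p ∈ P, (p : ℝ)) * Real.exp (s * lam * (H.card : ℝ) * (V P * Real.exp (s * (8 * lam * (1 - V P))))) := by
  classical
  induction P using Finset.induction_on with
  | empty =>
    intro H x A _ _ _
    simp [V]
  | insert p P hpP ih =>
    intro H x A hP hHb hA
    have hp : p.Prime := hP p (mem_insert_self _ _)
    have hp0 : (0 : ℝ) < p := by exact_mod_cast hp.pos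
    have hp2 : (2 : ℝ) ≤ p := by exact_mod_cast hp.two_le
    have hPP : ∀ q ∈ P, q.Prime := fun q hq => hP q (mem_insert_of_mem hq)
    have hv0 : 0 < V P := V_pos hPP
    have hv1 : V P ≤ 1 := V_le_one hPP
    obtain ⟨K, hK⟩ : ∃ K, K = V P * Real.exp (s * (8 * lam * (1 - V P))) := ⟨_, rfl⟩
    have hK0 : 0 ≤ K := by rw [hK]; positivity
    have hKl : lam * K * 2 ≤ 1 := by
      have h1 : Real.exp (s * (8 * lam * (1 - V P))) ≤ 2 := by
        have h1 : 8 * lam * (1 - V P) ≤ 2 / 3 := by nlinarith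
        have h1' : 0 ≤ 8 * lam * (1 - V P) := mul_nonneg (by linarith) (by linarith)
        have h2 : (2 : ℝ) / 3 ≤ Real.log 2 := by
          have := Real.log_two_gt_d9
          linarith
        have h3 : s * (8 * lam * (1 - V P)) ≤ Real.log 2 := by
          rcases hs with rfl | rfl <;> linarith
        calc _ ≤ Real.exp (Real.log 2) := Real.exp_le_exp.2 h3
          _ = 2 := Real.exp_log (by norm_num)
      have h2 : K ≤ 1 * 2 := by
        rw [hK]
        exact mul_le_mul hv1 h1 (Real.exp_pos _).le (by norm_num)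
      nlinarith
    rw [prod_insert hpP, prod_insert hpP, sum_split]
    have h1 : ∀ i ∈ range p, ∑ j ∈ range (∏ q ∈ P, q),
        Real.exp (s * lam * ((H.filter (fun h => ∀ q ∈ insert p P, (x + A * (i + p * j) + h) % q ∉ ({0} : Finset ℕ))).card : ℝ)) ≤
        (∏ q ∈ P, (q : ℝ)) * Real.exp (s * lam * K * ((H.filter (fun h => (x + A * i + h) % p ∉ ({0} : Finset ℕ))).card : ℝ) * 1) := by
      intro i _
      have h2 := ih (H.filter (fun h => (x + A * i + h) % p ∉ ({0} : Finset ℕ))) (x + A * i) (A * p)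
        hPP ?_ ?_
      · rw [← hK] at h2
        have e0 : s * lam * K * ((H.filter (fun h => (x + A * i + h) % p ∉ ({0} : Finset ℕ))).card : ℝ) * 1 =
          s * lam * ((H.filter (fun h => (x + A * i + h) % p ∉ ({0} : Finset ℕ))).card : ℝ) * K := by ring
        rw [e0]
        refine le_trans (le_of_eq ?_) h2
        apply sum_congr rfl
        intro j _
        rw [filter_filter]
        refine congrArg Real.exp (congrArg (fun z : ℝ => s * lam * z) (congrArg Nat.cast
          (congrArg card ?_)))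
        apply filter_congr
        intro h _
        rw [forall_mem_insert]
        have e1 : x + A * (i + p * j) + h = (x + A * i + h) + p * (A * j) := by ring
        have e2 : x + A * i + A * p * j + h = x + A * (i + p * j) + h := by ring
        rw [e2]
        have e3 : (x + A * (i + p * j) + h) % p = (x + A * i + h) % p := by
          rw [e1]
          exact Nat.add_mul_mod_self_left _ _ _
        rw [e3]
      · intro q hq r
        refine le_trans ?_ (hHb q (mem_insert_of_mem hq) r)
        have h3 := card_le_card (filter_subset_filter (fun h => (r + h) % q ∈ ({0} : Finset ℕ))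
          (filter_subset (fun h => (x + A * i + h) % p ∉ ({0} : Finset ℕ)) H))
        exact_mod_cast h3
      · intro q hq
        have hq' : q ∈ insert p P := mem_insert_of_mem hq
        apply Nat.Coprime.mul_left (hA q hq')
        rw [Nat.coprime_primes hp (hP q hq')]
        rintro rfl
        exact hpP hq
    refine (sum_le_sum h1).trans ?_
    rw [← mul_sum]
    have h2 := avgk hp (hA p (mem_insert_self _ _)) ({0} : Finset ℕ)
      (by rw [singleton_subset_iff, mem_range]; exact hp.pos) x H (s * lam * K) 2 1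
      (by
        rw [abs_mul, abs_mul, abs_of_nonneg hl0, abs_of_nonneg hK0]
        have : |s| = 1 := by rcases hs with rfl | rfl <;> norm_num
        rw [this, one_mul]
        exact hKl) (hHb p (mem_insert_self _ _)) zero_le_one le_rfl
    have h2' : ∑ i ∈ range p, Real.exp (s * lam * K * ((H.filter (fun h => (x + A * i + h) % p ∉ ({0} : Finset ℕ))).card : ℝ) * 1) ≤
        p * Real.exp (s * lam * (H.card : ℝ) * (V (insert p P) * Real.exp (s * (8 * lam * (1 - V (insert p P)))))) := by
      refine h2.trans ?_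
      apply mul_le_mul_of_nonneg_left _ hp0.le
      apply Real.exp_le_exp.2
      rw [V_insert hpP]
      have hH0 : (0 : ℝ) ≤ lam * H.card := by positivity
      rw [card_singleton, Nat.cast_one, mul_one]
      rcases hs with rfl | rfl
      · simp only [one_mul] at hK ⊢
        have h3 := stepU hl0 hl1 hv0 hv1 hp2
        rw [← hK] at h3
        have h4 := mul_le_mul_of_nonneg_left h3 hH0
        refine le_trans (le_of_eq ?_) h4
        ring
      · have e5 : (-1 : ℝ) * (8 * lam * (1 - V P)) = -(8 * lam * (1 - V P)) := by ring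
        have e6 : (-1 : ℝ) * (8 * lam * (1 - (1 - 1 / (p : ℝ)) * V P)) = -(8 * lam * (1 - (1 - 1 / (p : ℝ)) * V P)) := by ring
        rw [e5] at hK
        rw [e6]
        have h3 := stepL hl0 hl1 hv0 hv1 hp2
        rw [← hK] at h3
        have h4 := mul_le_mul_of_nonneg_left h3 hH0
        have h5 := neg_le_neg h4
        refine le_trans (le_of_eq ?_) (h5.trans (le_of_eq ?_))
        · ring
        · ring
    have h3 : 0 ≤ ∏ q ∈ P, (q : ℝ) := prod_nonneg fun q _ => Nat.cast_nonneg _
    refine (mul_le_mul_of_nonneg_left h2' h3).trans (le_of_eq ?_)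
    ring

/-- **deviation from the mean** -/
theorem devi2 (P : Finset ℕ) (H : Finset ℕ) (x A : ℕ) (eps : ℝ)
    (hP : ∀ p ∈ P, p.Prime) (he0 : 0 ≤ eps) (he1 : eps ≤ 1)
    (hHb : ∀ p ∈ P, ∀ r : ℕ, ((H.filter (fun h => (r + h) % p ∈ ({0} : Finset ℕ))).card : ℝ) ≤ 2)
    (hA : ∀ p ∈ P, A.Coprime p) :
    (((range (∏ p ∈ P, p)).filter (fun j => eps * (H.card * V P) <
      |((H.filter (fun h => ∀ p ∈ P, (x + A * j + h) % p ∉ ({0} : Finset ℕ))).card : ℝ) - H.card * V P|)).card : ℝ) ≤
      2 * ((∏ p ∈ P, p : ℕ) : ℝ) * Real.exp (-(eps ^ 2 / 64 * (H.card * V P))) := by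
  classical
  obtain ⟨lam, hlam⟩ : ∃ lam, lam = eps / 32 := ⟨_, rfl⟩
  have hl0 : 0 ≤ lam := by rw [hlam]; linarith
  have hl1 : lam ≤ 1 / 12 := by rw [hlam]; linarith
  have hv0 : 0 < V P := V_pos hP
  have hv1 : V P ≤ 1 := V_le_one hP
  set S : ℕ → ℝ := fun j => ((H.filter (fun h => ∀ p ∈ P, (x + A * j + h) % p ∉ ({0} : Finset ℕ))).card : ℝ) with hS
  set D := ∏ p ∈ P, p with hD
  set M : ℝ := H.card * V P with hM
  have hM0 : 0 ≤ M := by positivity
  have hprod : ((D : ℕ) : ℝ) = ∏ p ∈ P, (p : ℝ) := by rw [hD]; push_cast; rfl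
  have hD0 : (0 : ℝ) ≤ D := Nat.cast_nonneg _
  -- upper tail
  have U1 : (((range D).filter (fun j => eps * M < S j - M)).card : ℝ) ≤ D * Real.exp (-(eps ^ 2 / 64 * M)) := by
    have h1 := expG P 1 lam (Or.inl rfl) hl0 hl1 H x A hP hHb hA
    have h2 : ∑ j ∈ (range D).filter (fun j => eps * M < S j - M), Real.exp (lam * (M + eps * M)) ≤
        ∑ j ∈ range D, Real.exp (1 * lam * S j) := by
      refine le_trans (sum_le_sum ?_) (sum_le_sum_of_subset_of_nonneg (filter_subset _ _) fun j _ _ => (Real.exp_pos _).le)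
      intro j hj
      rw [mem_filter] at hj
      apply Real.exp_le_exp.2
      rw [one_mul]
      apply mul_le_mul_of_nonneg_left _ hl0
      linarith [hj.2]
    rw [sum_const, nsmul_eq_mul] at h2
    have h3 : 1 * lam * (H.card : ℝ) * (V P * Real.exp (1 * (8 * lam * (1 - V P)))) ≤ lam * ((1 + eps / 2) * M) := by
      have h4 : Real.exp (1 * (8 * lam * (1 - V P))) ≤ 1 + eps / 2 := by
        have h5 : 1 * (8 * lam * (1 - V P)) ≤ eps / 4 := by rw [hlam]; nlinarith
        refine (Real.exp_le_exp.2 h5).trans ?_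
        have h6 := Real.abs_exp_sub_one_sub_id_le (x := eps / 4) (by rw [abs_of_nonneg (by linarith)]; linarith)
        have h7 := (abs_le.1 h6).2
        nlinarith
      have h5 := mul_le_mul_of_nonneg_left h4 (mul_nonneg hl0 hM0)
      refine le_trans (le_of_eq ?_) (h5.trans (le_of_eq ?_))
      · rw [hM]; ring
      · ring
    have h4 := (h2.trans h1).trans (mul_le_mul_of_nonneg_left (Real.exp_le_exp.2 h3)
      (prod_nonneg fun p _ => Nat.cast_nonneg p))
    rw [← hprod] at h4
    have h5 := mul_le_mul_of_nonneg_right h4 (Real.exp_pos (-(lam * (M + eps * M)))).le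
    rw [mul_assoc, ← Real.exp_add, mul_assoc, ← Real.exp_add] at h5
    have e1 : lam * (M + eps * M) + -(lam * (M + eps * M)) = 0 := by ring
    have e2 : lam * ((1 + eps / 2) * M) + -(lam * (M + eps * M)) = -(eps ^ 2 / 64 * M) := by rw [hlam]; ring
    rw [e1, e2, Real.exp_zero, mul_one] at h5
    exact h5
  -- lower tail
  have L1 : (((range D).filter (fun j => eps * M < M - S j)).card : ℝ) ≤ D * Real.exp (-(eps ^ 2 / 64 * M)) := by
    have h1 := expG P (-1) lam (Or.inr rfl) hl0 hl1 H x A hP hHb hA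
    have h2 : ∑ j ∈ (range D).filter (fun j => eps * M < M - S j), Real.exp (-(lam * (M - eps * M))) ≤
        ∑ j ∈ range D, Real.exp ((-1) * lam * S j) := by
      refine le_trans (sum_le_sum ?_) (sum_le_sum_of_subset_of_nonneg (filter_subset _ _) fun j _ _ => (Real.exp_pos _).le)
      intro j hj
      rw [mem_filter] at hj
      apply Real.exp_le_exp.2
      have h3 : lam * S j ≤ lam * (M - eps * M) := by
        apply mul_le_mul_of_nonneg_left _ hl0
        linarith [hj.2]
      linarith
    rw [sum_const, nsmul_eq_mul] at h2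
    have h3 : (-1) * lam * (H.card : ℝ) * (V P * Real.exp ((-1) * (8 * lam * (1 - V P)))) ≤ -(lam * ((1 - eps / 2) * M)) := by
      have h4 : 1 - eps / 2 ≤ Real.exp ((-1) * (8 * lam * (1 - V P))) := by
        have h5 := Real.add_one_le_exp ((-1) * (8 * lam * (1 - V P)))
        have h6 : 8 * lam * (1 - V P) ≤ eps / 4 := by rw [hlam]; nlinarith
        linarith
      have h5 := mul_le_mul_of_nonneg_left h4 (mul_nonneg hl0 hM0)
      have h6 := neg_le_neg h5
      refine le_trans (le_of_eq ?_) (h6.trans (le_of_eq ?_))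
      · rw [hM]; ring
      · ring
    have h4 := (h2.trans h1).trans (mul_le_mul_of_nonneg_left (Real.exp_le_exp.2 h3)
      (prod_nonneg fun p _ => Nat.cast_nonneg p))
    rw [← hprod] at h4
    have h5 := mul_le_mul_of_nonneg_right h4 (Real.exp_pos (lam * (M - eps * M))).le
    rw [mul_assoc, ← Real.exp_add, mul_assoc, ← Real.exp_add] at h5
    have e1 : -(lam * (M - eps * M)) + lam * (M - eps * M) = 0 := by ring
    have e2 : -(lam * ((1 - eps / 2) * M)) + lam * (M - eps * M) = -(eps ^ 2 / 64 * M) := by rw [hlam]; ring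
    rw [e1, e2, Real.exp_zero, mul_one] at h5
    exact h5
  have hsub : (range D).filter (fun j => eps * M < |S j - M|) ⊆
      (range D).filter (fun j => eps * M < S j - M) ∪ (range D).filter (fun j => eps * M < M - S j) := by
    intro j hj
    rw [mem_filter] at hj
    rw [mem_union, mem_filter, mem_filter]
    rcases lt_abs.1 hj.2 with h | h
    · exact Or.inl ⟨hj.1, h⟩
    · right; exact ⟨hj.1, by linarith⟩
  have hc : (((range D).filter (fun j => eps * M < |S j - M|)).card : ℝ) ≤
      ((range D).filter (fun j => eps * M < S j - M)).card + ((range D).filter (fun j => eps * M < M - S j)).card := by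
    exact_mod_cast (card_le_card hsub).trans (card_union_le _ _)
  refine hc.trans ?_
  linarith

end Pool.Agent.N422.SW
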