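import Pool.Agent.N422.SW1
import Pool.Agent.Y829.RS5

/-! Concentration of the number of survivors in intervals of length `A log X log log X`. Adapted by helper422 from
`Pool.Agent.Y829.RS1`, `Pool.Agent.Y829.RS2` (helper829), with exponential moments of the right order. -/

set_option autoImplicit false

namespace Pool.Agent.N422.SW

open Finset Filter Topology Pool.Agent.Y829 Pool.Agent.Y829.RP Pool.Agent.Y829.RS

lemma twostage2 (P1 P2 : Finset ℕ) (U : ℕ) (δ β : ℝ) (hP1 : ∀ p ∈ P1, p.Prime)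
    (hP2 : ∀ p ∈ P2, p.Prime ∧ U < p) (hd : Disjoint P1 P2) (hδ : 0 < δ) (hδ1 : δ ≤ 1 / 4)
    (hbad : (((range (∏ p ∈ P1, p)).filter (fun n => δ * (U * V P1) <
      |SO (fun _ => {0}) P1 U n - U * V P1|)).card : ℝ) ≤ β * ((∏ p ∈ P1, p : ℕ) : ℝ)) :
    (((range (∏ p ∈ P1 ∪ P2, p)).filter (fun n => 3 * δ * (U * V (P1 ∪ P2)) <
      |SO (fun _ => {0}) (P1 ∪ P2) U n - U * V (P1 ∪ P2)|)).card : ℝ) ≤
      (β + 2 * Real.exp (-(δ ^ 2 / 64 * (U * V (P1 ∪ P2) / 2)))) *
        ((∏ p ∈ P1 ∪ P2, p : ℕ) : ℝ) := by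
  classical
  obtain ⟨D1, hD1⟩ : ∃ D, D = ∏ p ∈ P1, p := ⟨_, rfl⟩
  obtain ⟨D2, hD2⟩ : ∃ D, D = ∏ p ∈ P2, p := ⟨_, rfl⟩
  have hDD : ∏ p ∈ P1 ∪ P2, p = D1 * D2 := by rw [hD1, hD2, prod_union hd]
  have hPp : ∀ p ∈ P1 ∪ P2, p.Prime := by
    intro p hp
    rcases mem_union.1 hp with h | h
    · exact hP1 p h
    · exact (hP2 p h).1
  have hV : V (P1 ∪ P2) = V P1 * V P2 := by
    rw [← VO_V, ← VO_V, ← VO_V, VO_union hd]
  have hV1 : 0 < V P1 := V_pos hP1
  have hV2 : 0 < V P2 := V_pos (fun p hp => (hP2 p hp).1)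
  have hcopr : ∀ p ∈ P2, D1.Coprime p := by
    intro p hp
    rw [hD1]
    apply Nat.Coprime.prod_left
    intro q hq
    rw [Nat.coprime_primes (hP1 q hq) (hP2 p hp).1]
    rintro rfl
    exact disjoint_left.1 hd hq hp
  rw [← hD1] at hbad
  rw [hDD]
  obtain ⟨E, hE⟩ : ∃ E : ℝ, E = Real.exp (-(δ ^ 2 / 64 * (U * V (P1 ∪ P2) / 2))) := ⟨_, rfl⟩
  rw [← hE]
  have hE0 : 0 < E := by rw [hE]; exact Real.exp_pos _
  obtain ⟨bad, hbaddef⟩ : ∃ bad : ℕ → Prop, bad = fun n => 3 * δ * (U * V (P1 ∪ P2)) <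
      |SO (fun _ => {0}) (P1 ∪ P2) U n - U * V (P1 ∪ P2)| := ⟨_, rfl⟩
  obtain ⟨bad1, hbad1⟩ : ∃ bad1 : ℕ → Prop, bad1 = fun n => δ * (U * V P1) <
      |SO (fun _ => {0}) P1 U n - U * V P1| := ⟨_, rfl⟩
  -- one residue class modulo `D1`
  have key : ∀ i ∈ range D1, ∑ j ∈ range D2, (if bad (i + D1 * j) then (1 : ℝ) else 0) ≤
      (if bad1 i then (1 : ℝ) else 0) * D2 + D2 * (2 * E) := by
    intro i _
    by_cases hi : bad1 i
    · rw [if_pos hi, one_mul]
      have h1 : ∑ j ∈ range D2, (if bad (i + D1 * j) then (1 : ℝ) else 0) ≤ ∑ j ∈ range D2, (1 : ℝ) := by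
        apply sum_le_sum
        intro j _
        split_ifs <;> norm_num
      rw [sum_const, card_range, nsmul_eq_mul, mul_one] at h1
      have h2 : 0 ≤ (D2 : ℝ) * (2 * E) := by positivity
      linarith
    · rw [if_neg hi, zero_mul, zero_add]
      obtain ⟨H, hH⟩ : ∃ H, H = (Icc 1 U).filter (fun h => ∀ p ∈ P1, (i + h) % p ∉ ({0} : Finset ℕ)) := ⟨_, rfl⟩
      have hHc : |(H.card : ℝ) - U * V P1| ≤ δ * (U * V P1) := by
        rw [hbad1, not_lt] at hi
        have : SO (fun _ => {0}) P1 U i = (H.card : ℝ) := by unfold SO; rw [hH]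
        rwa [this] at hi
      have hS : ∀ j, SO (fun _ => {0}) (P1 ∪ P2) U (i + D1 * j) =
          ((H.filter (fun h => ∀ p ∈ P2, (i + D1 * j + h) % p ∉ ({0} : Finset ℕ))).card : ℝ) := by
        intro j
        unfold SO
        refine congrArg Nat.cast (congrArg card ?_)
        rw [hH, filter_filter]
        apply filter_congr
        intro h _
        have e1 : ∀ p ∈ P1, (i + D1 * j + h) % p = (i + h) % p := by
          intro p hp
          have h1 : p ∣ D1 := by rw [hD1]; exact dvd_prod_of_mem (fun p : ℕ => p) hp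
          obtain ⟨k, hk⟩ := h1
          have : i + D1 * j + h = (i + h) + p * (k * j) := by rw [hk]; ring
          rw [this]
          exact Nat.add_mul_mod_self_left _ _ _
        constructor
        · intro h1
          refine ⟨fun p hp => ?_, fun p hp => h1 p (mem_union_right _ hp)⟩
          rw [← e1 p hp]
          exact h1 p (mem_union_left _ hp)
        · rintro ⟨h1, h2⟩ p hp
          rcases mem_union.1 hp with hp | hp
          · rw [e1 p hp]; exact h1 p hp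
          · exact h2 p hp
      have hHb : ∀ p ∈ P2, ∀ r : ℕ, ((H.filter (fun h => (r + h) % p ∈ ({0} : Finset ℕ))).card : ℝ) ≤ 2 := by
        intro p hp r
        have hp0 : 0 < p := (hP2 p hp).1.pos
        have h1 := cntO p r U hp0 {0} (by rw [singleton_subset_iff, mem_range]; exact hp0) 1 (by simp)
        have h2 : ((H.filter (fun h => (r + h) % p ∈ ({0} : Finset ℕ))).card : ℝ) ≤
            (((Icc 1 U).filter (fun h => (r + h) % p ∈ ({0} : Finset ℕ))).card : ℝ) := by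
          exact_mod_cast card_le_card (filter_subset_filter _ (by rw [hH]; exact filter_subset _ _))
        have h3 : (U : ℝ) / p ≤ 1 := by
          rw [div_le_one (by exact_mod_cast hp0)]
          exact_mod_cast (hP2 p hp).2.le
        push_cast at h1
        linarith
      have hdev := devi2 P2 H i D1 δ (fun p hp => (hP2 p hp).1) hδ.le (by linarith) hHb hcopr
      rw [← hD2] at hdev
      have hUV : 0 ≤ U * V P1 := by positivity
      have hHlow : U * V P1 / 2 ≤ H.card := by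
        have := (abs_le.1 hHc).1
        nlinarith
      have hHup : (H.card : ℝ) ≤ 5 / 4 * (U * V P1) := by
        have := (abs_le.1 hHc).2
        nlinarith
      have h1 : ∑ j ∈ range D2, (if bad (i + D1 * j) then (1 : ℝ) else 0) ≤
          (((range D2).filter (fun j => δ * (H.card * V P2) <
            |((H.filter (fun h => ∀ p ∈ P2, (i + D1 * j + h) % p ∉ ({0} : Finset ℕ))).card : ℝ) - H.card * V P2|)).card : ℝ) := by
        rw [card_filter]
        push_cast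
        apply sum_le_sum
        intro j _
        by_cases hb : bad (i + D1 * j)
        · rw [if_pos hb, if_pos]
          rw [hbaddef] at hb
          change 3 * δ * (U * V (P1 ∪ P2)) <
            |SO (fun _ => {0}) (P1 ∪ P2) U (i + D1 * j) - U * V (P1 ∪ P2)| at hb
          rw [hS j, hV] at hb
          obtain ⟨S, hSd⟩ : ∃ S : ℝ, S = ((H.filter (fun h => ∀ p ∈ P2, (i + D1 * j + h) % p ∉ ({0} : Finset ℕ))).card : ℝ) := ⟨_, rfl⟩
          rw [← hSd] at hb ⊢
          have h2 : |S - U * (V P1 * V P2)| ≤ |S - H.card * V P2| + |H.card * V P2 - U * (V P1 * V P2)| := abs_sub_le _ _ _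
          have h3 : |H.card * V P2 - U * (V P1 * V P2)| ≤ δ * (U * (V P1 * V P2)) := by
            have e1 : H.card * V P2 - U * (V P1 * V P2) = (H.card - U * V P1) * V P2 := by ring
            rw [e1, abs_mul, abs_of_pos hV2]
            have := mul_le_mul_of_nonneg_right hHc hV2.le
            linarith
          have h4 : H.card * V P2 ≤ (5 / 4) * (U * (V P1 * V P2)) := by
            have := mul_le_mul_of_nonneg_right hHup hV2.le
            linarith
          have h8 := mul_le_mul_of_nonneg_left h4 hδ.le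
          have h9 : 0 ≤ δ * (U * (V P1 * V P2)) := by positivity
          linarith
        · rw [if_neg hb]
          split_ifs <;> norm_num
      refine h1.trans (hdev.trans ?_)
      have h3 : U * V (P1 ∪ P2) / 2 ≤ H.card * V P2 := by
        rw [hV]
        have := mul_le_mul_of_nonneg_right hHlow hV2.le
        linarith
      have h4 : Real.exp (-(δ ^ 2 / 64 * (H.card * V P2))) ≤ E := by
        rw [hE]
        apply Real.exp_le_exp.2
        rw [neg_le_neg_iff]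
        exact mul_le_mul_of_nonneg_left h3 (by positivity)
      have h5 : (0 : ℝ) ≤ 2 * D2 := by positivity
      have h6 := mul_le_mul_of_nonneg_left h4 h5
      linarith
  have h1 : (((range (D1 * D2)).filter bad).card : ℝ) = ∑ i ∈ range D1, ∑ j ∈ range D2, (if bad (i + D1 * j) then (1 : ℝ) else 0) := by
    rw [card_filter]
    push_cast
    exact sum_split D1 D2 (fun n => if bad n then (1 : ℝ) else 0)
  have h2 : (((range D1).filter bad1).card : ℝ) = ∑ i ∈ range D1, (if bad1 i then (1 : ℝ) else 0) := by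
    rw [card_filter]
    push_cast
    rfl
  have h3 : ((D1 * D2 : ℕ) : ℝ) = D1 * D2 := by push_cast; ring
  have h4 := sum_le_sum key
  rw [← h1, sum_add_distrib, ← sum_mul, ← h2, sum_const, card_range, nsmul_eq_mul] at h4
  have h5 : (((range D1).filter bad1).card : ℝ) ≤ β * D1 := by
    rw [hbad1]
    exact hbad
  have h6 : (0 : ℝ) ≤ D2 := Nat.cast_nonneg _
  have h7 := mul_le_mul_of_nonneg_right h5 h6
  rw [hbaddef] at h4
  rw [h3]
  calc _ ≤ _ := h4
    _ ≤ β * D1 * D2 + D1 * (D2 * (2 * E)) := by linarith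
    _ = _ := by ring


/-- **Concentration** -/
theorem conc2 (b Cc : ℕ) : ∃ A : ℝ, 1 ≤ A ∧ ∃ X0 : ℕ, ∀ X : ℕ, X0 ≤ X → ∀ U Q : ℕ,
    A * (Real.log X * Real.log (Real.log X)) ≤ U → Q ≤ X →
    (((range (∏ p ∈ PQ Q, p)).filter (fun n => (1 / 2 : ℝ) ^ b * (U * V (PQ Q)) <
      |SO (fun _ => {0}) (PQ Q) U n - U * V (PQ Q)|)).card : ℝ) * Real.log X ^ Cc ≤
      ((∏ p ∈ PQ Q, p : ℕ) : ℝ) := by
  classical
  obtain ⟨C, hC1, hg⟩ := gtail 1
  obtain ⟨b1, hb1⟩ : ∃ b1, b1 = b + 2 + C := ⟨_, rfl⟩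
  obtain ⟨U1, hU12, hg'⟩ := hg b1 (by omega)
  obtain ⟨cm, hcm, hmert⟩ := mert
  obtain ⟨δ, hδ⟩ : ∃ δ : ℝ, δ = (1 / 2 : ℝ) ^ b1 := ⟨_, rfl⟩
  have hδ0 : 0 < δ := by rw [hδ]; positivity
  have hδb : 4 * δ ≤ (1 / 2 : ℝ) ^ b := by
    have h1 : (1 / 2 : ℝ) ^ b1 ≤ (1 / 2 : ℝ) ^ (b + 2) := pow_le_pow_of_le_one (by norm_num) (by norm_num) (by omega)
    rw [pow_add] at h1
    norm_num at h1 ⊢
    rw [hδ]
    norm_num
    linarith
  have hδ1 : δ ≤ 1 / 4 := by
    have : (1 / 2 : ℝ) ^ b ≤ 1 := pow_le_one₀ (by norm_num) (by norm_num)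
    linarith
  have hC1r : (1 : ℝ) ≤ C := by exact_mod_cast hC1
  have hb1r : (1 : ℝ) ≤ b1 := by exact_mod_cast (by omega : 1 ≤ b1)
  obtain ⟨a, ha⟩ : ∃ a : ℝ, a = 1 / ((C : ℝ) * b1) := ⟨_, rfl⟩
  have ha0 : 0 < a := by rw [ha]; positivity
  rw [← ha, ← hδ] at hg'
  obtain ⟨U2, hU2⟩ := (ev a 1 0 ha0).exists_forall_of_atTop
  obtain ⟨Kc, hKc⟩ : ∃ Kc : ℝ, Kc = (Cc + 2) * 128 / (cm * δ ^ 2) := ⟨_, rfl⟩
  have hKc0 : 0 ≤ Kc := by rw [hKc]; positivity
  obtain ⟨A, hA⟩ : ∃ A : ℝ, A = 1 + Kc := ⟨_, rfl⟩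
  have hA1 : 1 ≤ A := by linarith
  have E := (((log_tend.eventually_ge_atTop ((U1 : ℝ) + U2 + 1)).and
    (ll_tend.eventually_ge_atTop (1 + |Real.log cm|))).and
    (evl a Cc (Real.log 4) ha0)).and (eventually_ge_atTop 3)
  obtain ⟨X0, hX0⟩ := E.exists_forall_of_atTop
  refine ⟨A, hA1, X0, ?_⟩
  intro X hX U Q hU hQ
  obtain ⟨⟨⟨e1, e2⟩, e3⟩, e4⟩ := hX0 X hX
  obtain ⟨L, hL⟩ : ∃ L : ℝ, L = Real.log X := ⟨_, rfl⟩
  obtain ⟨ll, hll⟩ : ∃ ll : ℝ, ll = Real.log L := ⟨_, rfl⟩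
  rw [← hL] at hU e1 e2 e3 ⊢
  rw [← hll] at hU e2 e3
  have hL1 : 1 ≤ L := by
    have h1 : (0 : ℝ) ≤ U1 := Nat.cast_nonneg _
    have h2 : (0 : ℝ) ≤ U2 := Nat.cast_nonneg _
    linarith
  have hll1 : 1 ≤ ll := by
    have := abs_nonneg (Real.log cm)
    linarith
  have hUL : L ≤ U := by
    refine le_trans ?_ hU
    have h1 : 1 ≤ A * ll := one_le_mul_of_one_le_of_one_le hA1 hll1
    have h2 := mul_le_mul_of_nonneg_left h1 (show 0 ≤ L by linarith)
    linarith
  have hUU1 : U1 ≤ U := by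
    have h2 : (0 : ℝ) ≤ U2 := Nat.cast_nonneg _
    have h3 : (U1 : ℝ) ≤ U := by linarith
    exact_mod_cast h3
  have hUU2 : U2 ≤ U := by
    have h2 : (0 : ℝ) ≤ U1 := Nat.cast_nonneg _
    have h3 : (U2 : ℝ) ≤ U := by linarith
    exact_mod_cast h3
  have hUpos : (0 : ℝ) < U := by linarith
  have hU0 : 0 < U := by exact_mod_cast hUpos
  -- the two sets of primes
  obtain ⟨P1, hP1⟩ : ∃ P1, P1 = (PQ Q).filter (fun p => p ≤ U) := ⟨_, rfl⟩
  obtain ⟨P2, hP2⟩ : ∃ P2, P2 = (PQ Q).filter (fun p => U < p) := ⟨_, rfl⟩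
  have hP1p : ∀ p ∈ P1, p.Prime ∧ p ≤ U := by
    intro p hp
    rw [hP1, mem_filter, mem_PQ] at hp
    exact ⟨hp.1.1, hp.2⟩
  have hP2p : ∀ p ∈ P2, p.Prime ∧ U < p := by
    intro p hp
    rw [hP2, mem_filter, mem_PQ] at hp
    exact ⟨hp.1.1, hp.2⟩
  have hd : Disjoint P1 P2 := by
    rw [disjoint_left]
    intro p h1 h2
    have := (hP1p p h1).2
    have := (hP2p p h2).2
    omega
  have hun : P1 ∪ P2 = PQ Q := by
    rw [hP1, hP2]
    ext p
    rw [mem_union, mem_filter, mem_filter]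
    constructor
    · rintro (h | h) <;> exact h.1
    · intro hp
      rcases le_or_gt p U with h | h
      · exact Or.inl ⟨hp, h⟩
      · exact Or.inr ⟨hp, h⟩
  obtain ⟨-, hst1⟩ := hg' U hUU1 P1 (fun _ => {0}) (fun p hp => ⟨(hP1p p hp).1, by
      have h1 := hU2 U hUU2
      have h2 : Real.log p ≤ Real.log U := Real.log_le_log (by exact_mod_cast (hP1p p hp).1.pos)
        (by exact_mod_cast (hP1p p hp).2)
      linarith⟩) (fun p hp => ⟨by
      rw [singleton_subset_iff, mem_range]; exact (hP1p p hp).1.pos, by simp, by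
      simpa using (hP1p p hp).1.one_lt⟩)
  rw [VO_V] at hst1
  have hX2 : 2 ≤ X := by omega
  have hVP : cm / L ≤ V (PQ Q) := by
    rw [hL]
    exact hmert X hX2 (PQ Q) (fun p hp => ⟨(mem_PQ.1 hp).1, (mem_PQ.1 hp).2.trans hQ⟩)
  have hmain := twostage2 P1 P2 U δ (Real.exp (-(3 * (U : ℝ) ^ a))) (fun p hp => (hP1p p hp).1) hP2p hd hδ0
    hδ1 (by
      rw [Real.exp_neg]
      rw [inv_mul_eq_div, le_div_iff₀ (Real.exp_pos _)]
      exact hst1)
  rw [hun] at hmain
  have hV0 : 0 < V (PQ Q) := V_pos fun p hp => (mem_PQ.1 hp).1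
  have hUV : cm * (A * ll) ≤ U * V (PQ Q) := by
    have h1 : A * (L * ll) * (cm / L) ≤ U * V (PQ Q) := mul_le_mul hU hVP (by positivity) hUpos.le
    have h2 : A * (L * ll) * (cm / L) = cm * (A * ll) := by
      field_simp
    linarith
  have hbound : (Real.exp (-(3 * (U : ℝ) ^ a)) + 2 * Real.exp (-(δ ^ 2 / 64 * (U * V (PQ Q) / 2)))) * L ^ Cc ≤ 1 := by
    have hL0 : 0 < L := by linarith
    have g1 : 4 * (Real.exp (-(3 * (U : ℝ) ^ a)) * L ^ Cc) ≤ 1 := by
      apply expneg_le hL0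
      rw [← hll]
      have h1 : L ^ a ≤ (U : ℝ) ^ a := Real.rpow_le_rpow hL0.le hUL ha0.le
      have h2 : 0 ≤ L ^ a := by positivity
      linarith
    have g2 : 4 * (Real.exp (-(δ ^ 2 / 64 * (U * V (PQ Q) / 2))) * L ^ Cc) ≤ 1 := by
      apply expneg_le hL0
      rw [← hll]
      have h1 : δ ^ 2 / 64 * (cm * (A * ll) / 2) ≤ δ ^ 2 / 64 * (U * V (PQ Q) / 2) := by
        apply mul_le_mul_of_nonneg_left _ (by positivity)
        linarith
      have h3 : (Cc : ℝ) + 2 ≤ δ ^ 2 / 128 * (cm * A) := by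
        have h5 := mul_le_mul_of_nonneg_left (show Kc ≤ A by linarith) (show 0 ≤ cm * δ ^ 2 / 128 by positivity)
        have h6 : cm * δ ^ 2 / 128 * Kc = (Cc : ℝ) + 2 := by
          rw [hKc]
          field_simp
        rw [h6] at h5
        refine h5.trans (le_of_eq ?_)
        ring
      have h4 := mul_le_mul_of_nonneg_right h3 (by linarith : (0 : ℝ) ≤ ll)
      have h2 : δ ^ 2 / 64 * (cm * (A * ll) / 2) = δ ^ 2 / 128 * (cm * A) * ll := by ring
      have h5 : Real.log 4 ≤ 2 := by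
        have h6 : Real.log 4 = 2 * Real.log 2 := by
          rw [show (4 : ℝ) = 2 ^ 2 by norm_num, Real.log_pow]
          norm_num
        have := Real.log_two_lt_d9
        rw [h6]
        linarith
      nlinarith
    nlinarith
  have h1 : (((range (∏ p ∈ PQ Q, p)).filter (fun n => (1 / 2 : ℝ) ^ b * (U * V (PQ Q)) <
      |SO (fun _ => {0}) (PQ Q) U n - U * V (PQ Q)|)).card : ℝ) ≤
      (((range (∏ p ∈ PQ Q, p)).filter (fun n => 3 * δ * (U * V (PQ Q)) <
      |SO (fun _ => {0}) (PQ Q) U n - U * V (PQ Q)|)).card : ℝ) := by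
    have : (range (∏ p ∈ PQ Q, p)).filter (fun n => (1 / 2 : ℝ) ^ b * (U * V (PQ Q)) <
      |SO (fun _ => {0}) (PQ Q) U n - U * V (PQ Q)|) ⊆ (range (∏ p ∈ PQ Q, p)).filter (fun n => 3 * δ * (U * V (PQ Q)) <
      |SO (fun _ => {0}) (PQ Q) U n - U * V (PQ Q)|) := by
      intro n hn
      rw [mem_filter] at hn ⊢
      refine ⟨hn.1, lt_of_le_of_lt ?_ hn.2⟩
      apply mul_le_mul_of_nonneg_right _ (by positivity)
      linarith
    exact_mod_cast card_le_card this
  have h2 := h1.trans hmain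
  have hLC : (0 : ℝ) ≤ L ^ Cc := by positivity
  have h3 := mul_le_mul_of_nonneg_right h2 hLC
  refine h3.trans ?_
  have h4 : (0 : ℝ) ≤ ((∏ p ∈ PQ Q, p : ℕ) : ℝ) := Nat.cast_nonneg _
  have h5 := mul_le_mul_of_nonneg_right hbound h4
  rw [one_mul] at h5
  refine le_trans (le_of_eq ?_) h5
  ring


end Pool.Agent.N422.SW
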