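import Pool.Agent.N422.SW2

/-! Primes in short intervals, on average with respect to a sieve weight: intervals of length `A log X log log X`.
Adapted by helper422 from `Pool.Agent.Y829.RS5` (helper829). -/

set_option autoImplicit false

namespace Pool.Agent.N422.SW

open Finset Filter Topology Pool.Agent.Y829 Pool.Agent.Y829.RP Pool.Agent.Y829.RS

/-- the model -/
theorem model2 (K b : ℕ) : ∃ A : ℝ, 1 ≤ A ∧ ∃ X0 : ℕ, ∀ X : ℕ, X0 ≤ X → ∀ U Q : ℕ,
    A * (Real.log X * Real.log (Real.log X)) ≤ U → 1 ≤ Q → Q ≤ X →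
    ∀ c : ℕ → ℕ → ℝ, (∀ n, 0 ≤ wt Q c n) → ∑ d ∈ Icc 1 Q, ss c d ^ 2 / d ≤ Real.log X ^ K →
    1 / (2 * Real.log X ^ K) ≤ mu Q c →
    |∑ h ∈ Icc 1 U, RP.GG Q c h - U * mu Q c| ≤ 2 * (1 / 2 : ℝ) ^ b * (U * mu Q c) := by
  classical
  obtain ⟨A, hA1, X1, hX1⟩ := conc2 b (2 * K + 4 * (K + 2) + 10)
  obtain ⟨X2, hX2⟩ := badmass K (K + 2)
  obtain ⟨cm, hcm, hmert⟩ := mert
  obtain ⟨δ, hδ⟩ : ∃ δ : ℝ, δ = (1 / 2 : ℝ) ^ b := ⟨_, rfl⟩
  have hδ0 : 0 < δ := by rw [hδ]; positivity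
  have E := (log_tend.eventually_ge_atTop (1 + 2 / (δ * cm))).and (eventually_ge_atTop 3)
  obtain ⟨X3, hX3⟩ := E.exists_forall_of_atTop
  refine ⟨A, hA1, max (max X1 X2) X3, ?_⟩
  intro X hX U Q hU hQ1 hQX c hw hc hmu
  have hc1 := hX1 X ((le_max_left _ _).trans ((le_max_left _ _).trans hX)) U Q hU hQX
  have hc2 := hX2 X ((le_max_right _ _).trans ((le_max_left _ _).trans hX)) Q hQ1 hQX c hc
  obtain ⟨e1, e2⟩ := hX3 X ((le_max_right _ _).trans hX)
  have hP : ∀ p ∈ PQ Q, p.Prime := fun p hp => (mem_PQ.1 hp).1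
  have hVP : cm / Real.log X ≤ V (PQ Q) := hmert X (by omega) (PQ Q) fun p hp => ⟨hP p hp, (mem_PQ.1 hp).2.trans hQX⟩
  have hV0 : 0 < V (PQ Q) := V_pos hP
  obtain ⟨L, hL⟩ : ∃ L : ℝ, L = Real.log X := ⟨_, rfl⟩
  rw [← hL] at hc1 hc2 hc e1 hmu hVP
  have hL1 : 1 ≤ L := by
    have : 0 ≤ 2 / (δ * cm) := by positivity
    linarith
  have hL0 : 0 < L := by linarith
  obtain ⟨M, hM⟩ : ∃ M, M = ∏ p ∈ PQ Q, p := ⟨_, rfl⟩
  have hM0 : 0 < M := by rw [hM]; exact prod_pos fun p hp => (hP p hp).pos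
  obtain ⟨N, hN⟩ : ∃ N, N = Q.factorial := ⟨_, rfl⟩
  have hN0 : 0 < N := by rw [hN]; exact Nat.factorial_pos _
  have hdN : ∀ d ∈ Icc 1 Q, d ∣ N := by rw [hN]; exact dvdfac Q
  have hMN : M ∣ N := by
    rw [hM]
    apply Finset.prod_primes_dvd
    · intro p hp; exact (hP p hp).prime
    · intro p hp
      exact hdN p (mem_Icc.2 ⟨(hP p hp).one_lt.le, (mem_PQ.1 hp).2⟩)
  obtain ⟨k, hk⟩ := hMN
  rw [← hM] at hc1
  obtain ⟨bad, hbad⟩ : ∃ bad : ℕ → Prop, bad = fun n => δ * (U * V (PQ Q)) <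
      |SO (fun _ => {0}) (PQ Q) U n - U * V (PQ Q)| := ⟨_, rfl⟩
  have hc1' : (((range M).filter bad).card : ℝ) * L ^ (2 * K + 4 * (K + 2) + 10) ≤ M := by
    rw [hbad, hδ]
    convert hc1
  -- the bad set has density at most `L^(-C)`
  have hper : ∀ n, (if bad (n + M) then (1 : ℝ) else 0) = if bad n then (1 : ℝ) else 0 := by
    intro n
    have h1 : bad (n + M) ↔ bad n := by
      rw [hbad]
      show (δ * (U * V (PQ Q)) < |SO (fun _ => {0}) (PQ Q) U (n + M) - U * V (PQ Q)|) ↔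
        (δ * (U * V (PQ Q)) < |SO (fun _ => {0}) (PQ Q) U n - U * V (PQ Q)|)
      rw [SO_per (fun _ => {0}) (PQ Q) U M n (fun p hp => by
        rw [hM]; exact dvd_prod_of_mem (fun p : ℕ => p) hp)]
    simp only [h1]
  have hcount : (((range N).filter bad).card : ℝ) * L ^ (2 * K + 4 * (K + 2) + 10) ≤ N := by
    have h1 : (((range N).filter bad).card : ℝ) = k * (((range M).filter bad).card : ℝ) := by
      rw [card_filter, card_filter, hk]
      push_cast
      exact per_sum hper k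
    rw [h1, hk]
    push_cast
    have := mul_le_mul_of_nonneg_left hc1' (Nat.cast_nonneg (α := ℝ) k)
    linarith
  have hb := hc2 N hdN ((range N).filter bad) (filter_subset _ _) hcount
  have hb' : ∑ n ∈ (range N).filter bad, |wt Q c n| = ∑ n ∈ (range N).filter bad, wt Q c n :=
    sum_congr rfl fun n _ => abs_of_nonneg (hw n)
  rw [hb'] at hb
  -- the weighted sum
  have hsw := sum_wt Q N c hdN
  have hUr : (0 : ℝ) ≤ U := Nat.cast_nonneg _
  have hNr : (0 : ℝ) < N := by exact_mod_cast hN0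
  have hmu0 : 0 < mu Q c := lt_of_lt_of_le (by positivity) hmu
  have h1 : |∑ n ∈ range N, wt Q c n * SO (fun _ => {0}) (PQ Q) U n - U * V (PQ Q) * ∑ n ∈ range N, wt Q c n| ≤
      2 * δ * (U * V (PQ Q)) * (N * mu Q c) := by
    have h2 : ∑ n ∈ range N, wt Q c n * SO (fun _ => {0}) (PQ Q) U n - U * V (PQ Q) * ∑ n ∈ range N, wt Q c n =
        ∑ n ∈ range N, wt Q c n * (SO (fun _ => {0}) (PQ Q) U n - U * V (PQ Q)) := by
      rw [mul_sum, ← sum_sub_distrib]
      apply sum_congr rfl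
      intro n _
      ring
    rw [h2]
    refine (abs_sum_le_sum_abs _ _).trans ?_
    have h3 : ∀ n ∈ range N, |wt Q c n * (SO (fun _ => {0}) (PQ Q) U n - U * V (PQ Q))| ≤
        wt Q c n * (δ * (U * V (PQ Q))) + (if bad n then wt Q c n * U else 0) := by
      intro n _
      rw [abs_mul, abs_of_nonneg (hw n)]
      by_cases hbn : bad n
      · rw [if_pos hbn]
        have h4 : |SO (fun _ => {0}) (PQ Q) U n - U * V (PQ Q)| ≤ U := by
          have a1 := SO_le (fun _ => {0}) (PQ Q) U n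
          have a2 := SO_nonneg (fun _ => {0}) (PQ Q) U n
          have a3 : U * V (PQ Q) ≤ U * 1 := mul_le_mul_of_nonneg_left (by
            have := VO_le_one (Om := fun _ => ({0} : Finset ℕ)) hP (fun p hp => by simpa using (hP p hp).one_lt)
            rwa [VO_V] at this) hUr
          have a4 : 0 ≤ U * V (PQ Q) := by positivity
          rw [abs_le]
          constructor <;> linarith
        have h5 := mul_le_mul_of_nonneg_left h4 (hw n)
        have h6 : 0 ≤ wt Q c n * (δ * (U * V (PQ Q))) := by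
          have := hw n
          positivity
        linarith
      · rw [if_neg hbn, add_zero]
        apply mul_le_mul_of_nonneg_left _ (hw n)
        rw [hbad] at hbn
        exact not_lt.1 hbn
    refine (sum_le_sum h3).trans ?_
    rw [sum_add_distrib, ← sum_mul, hsw, ← sum_filter, ← sum_mul]
    have h4 : (∑ n ∈ (range N).filter bad, wt Q c n) * U ≤ δ * (U * V (PQ Q)) * (N * mu Q c) := by
      have h5 : (∑ n ∈ (range N).filter bad, wt Q c n) ≤ N / L ^ (K + 2) := by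
        rw [le_div_iff₀ (by positivity)]
        exact hb
      have h6 : (N : ℝ) / L ^ (K + 2) ≤ δ * V (PQ Q) * (N * mu Q c) := by
        have h7 : δ * (cm / L) * (N * (1 / (2 * L ^ K))) ≤ δ * V (PQ Q) * (N * mu Q c) := by
          apply mul_le_mul
          · exact mul_le_mul_of_nonneg_left hVP hδ0.le
          · exact mul_le_mul_of_nonneg_left hmu hNr.le
          · positivity
          · positivity
        refine le_trans ?_ h7
        have h8 : δ * (cm / L) * (N * (1 / (2 * L ^ K))) = (N / L ^ (K + 2)) * (δ * cm * L / 2) := by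
          rw [pow_add]
          field_simp
        rw [h8]
        have h9 : 1 ≤ δ * cm * L / 2 := by
          have h10 : 2 / (δ * cm) ≤ L := by linarith
          rw [div_le_iff₀ (by positivity)] at h10
          linarith
        exact le_mul_of_one_le_right (by positivity) h9
      have h7 := mul_le_mul_of_nonneg_right (h5.trans h6) hUr
      refine h7.trans (le_of_eq ?_)
      ring
    linarith
  rw [sum_GG Q U N c hN0 hdN, hsw] at h1
  have hNV : 0 < (N : ℝ) * V (PQ Q) := by positivity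
  have h2 : N * V (PQ Q) * |∑ h ∈ Icc 1 U, RP.GG Q c h - U * mu Q c| ≤ N * V (PQ Q) * (2 * δ * (U * mu Q c)) := by
    have e3 : N * V (PQ Q) * |∑ h ∈ Icc 1 U, RP.GG Q c h - U * mu Q c| =
        |N * V (PQ Q) * ∑ h ∈ Icc 1 U, RP.GG Q c h - U * V (PQ Q) * (N * mu Q c)| := by
      have e4 : N * V (PQ Q) * ∑ h ∈ Icc 1 U, RP.GG Q c h - U * V (PQ Q) * (N * mu Q c) =
          (N * V (PQ Q)) * (∑ h ∈ Icc 1 U, RP.GG Q c h - U * mu Q c) := by ring
      rw [e4, abs_mul, abs_of_pos hNV]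
    rw [e3]
    refine h1.trans (le_of_eq ?_)
    ring
  rw [← hδ]
  exact le_of_mul_le_mul_left h2 hNV

/-- **Intervals of length `A log X log log X`** -/
theorem main_all2 (K b : ℕ) : ∃ A : ℝ, 1 ≤ A ∧ ∃ B X0 : ℕ, ∀ X U Q : ℕ, X0 ≤ X →
    A * (Real.log X * Real.log (Real.log X)) ≤ U → U ≤ X → 1 ≤ Q → (Q : ℝ) ^ 2 * Real.log X ^ B ≤ X →
    ∀ c : ℕ → ℕ → ℝ, (∀ n, 0 ≤ wt Q c n) → ∑ d ∈ Icc 1 Q, ss c d ^ 2 / d ≤ Real.log X ^ K →
    X / Real.log X ^ K ≤ ∑ n ∈ Ioc X (2 * X), wt Q c n →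
      |∑ n ∈ Ioc X (2 * X), wt Q c n * pw U n - U / Real.log X * ∑ n ∈ Ioc X (2 * X), wt Q c n| ≤
        (1 / 2 : ℝ) ^ b * (U / Real.log X * ∑ n ∈ Ioc X (2 * X), wt Q c n) := by
  classical
  obtain ⟨x, hx⟩ : ∃ x : ℝ, x = (1 / 2 : ℝ) ^ (b + 2) := ⟨_, rfl⟩
  have hx0 : 0 < x := by rw [hx]; positivity
  have hxb : (1 / 2 : ℝ) ^ b = 4 * x := by rw [hx, pow_add]; norm_num; ring
  have hx1 : x ≤ 1 / 4 := by
    have : (1 / 2 : ℝ) ^ b ≤ 1 := pow_le_one₀ (by norm_num) (by norm_num)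
    linarith
  obtain ⟨B, X0, hred⟩ := reduc K (x / 8) (by positivity) (by linarith)
  obtain ⟨A, hA1, X1, hX1⟩ := model2 K (b + 3)
  have E := (log_tend.eventually_ge_atTop (1 : ℝ)).and ((evbig K).and (eventually_ge_atTop 3))
  obtain ⟨X2, hX2⟩ := E.exists_forall_of_atTop
  refine ⟨A, hA1, max B K, max (max X0 X1) X2, ?_⟩
  intro X U Q hX hU hUX hQ hQX c hw hc hW
  obtain ⟨e1, e2, e3⟩ := hX2 X ((le_max_right _ _).trans hX)
  have hX0' : X0 ≤ X := (le_max_left _ _).trans ((le_max_left _ _).trans hX)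
  have hX1' : X1 ≤ X := (le_max_right _ _).trans ((le_max_left _ _).trans hX)
  obtain ⟨L, hL⟩ : ∃ L : ℝ, L = Real.log X := ⟨_, rfl⟩
  have hXr : (0 : ℝ) < X := by exact_mod_cast (by omega : 0 < X)
  have hQr : (1 : ℝ) ≤ Q := by exact_mod_cast hQ
  have hQX2 : (Q : ℝ) ^ 2 * Real.log X ^ B ≤ X := by
    refine le_trans ?_ hQX
    apply mul_le_mul_of_nonneg_left _ (by positivity)
    exact pow_le_pow_right₀ e1 (le_max_left _ _)
  have hQX3 : (Q : ℝ) ^ 2 * Real.log X ^ K ≤ X := by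
    refine le_trans ?_ hQX
    apply mul_le_mul_of_nonneg_left _ (by positivity)
    exact pow_le_pow_right₀ e1 (le_max_right _ _)
  have hQX4 : Q ≤ X := by
    have h1 : (1 : ℝ) ≤ Real.log X ^ K := one_le_pow₀ e1
    have h2 : (Q : ℝ) ≤ X := by nlinarith
    exact_mod_cast h2
  obtain ⟨hr1, hr2⟩ := hred X hX0' U Q hUX hQ hQX2 c hw hc hW
  -- the mean of the weight
  have hmu : 1 / (2 * Real.log X ^ K) ≤ mu Q c := by
    have h1 := sum_dy Q X c
    have h2 : ∑ d ∈ Icc 1 Q, ss c d ≤ X / (2 * Real.log X ^ K) := by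
      apply abs_le_of_sq_le_sq' _ (by positivity) |>.2
      refine (sumss Q c).trans ?_
      have h3 : (∑ d ∈ Icc 1 Q, ss c d ^ 2 / (d : ℝ)) * (Q : ℝ) ^ 2 ≤ X := by
        have h4 := mul_le_mul_of_nonneg_right hc (sq_nonneg (Q : ℝ))
        linarith
      refine h3.trans ?_
      rw [div_pow, le_div_iff₀ (by positivity)]
      have h5 : (2 * Real.log X ^ K) ^ 2 = 4 * Real.log X ^ (2 * K) := by
        rw [mul_pow, ← pow_mul]
        norm_num
        ring
      rw [h5, sq]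
      exact mul_le_mul_of_nonneg_left e2 hXr.le
    have h3 := (abs_le.1 h1).2
    have h4 : (X : ℝ) / Real.log X ^ K - X / (2 * Real.log X ^ K) ≤ X * mu Q c := by linarith
    have h5 : (X : ℝ) / Real.log X ^ K - X / (2 * Real.log X ^ K) = X * (1 / (2 * Real.log X ^ K)) := by
      have : (0 : ℝ) < Real.log X ^ K := by positivity
      field_simp
      ring
    rw [h5] at h4
    exact le_of_mul_le_mul_left h4 hXr
  have hmod := hX1 X hX1' U Q hU hQ hQX4 c hw hc hmu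
  have hbx : 2 * (1 / 2 : ℝ) ^ (b + 3) = x := by
    rw [hx, pow_succ (1 / 2 : ℝ) (b + 2)]
    ring
  rw [hbx] at hmod
  have hmod' := abs_le.1 hmod
  have h5 := hr1 (1 - x) (by linarith) (by linarith [hmod'.1])
  have h6 := hr2 (1 + x) (by linarith) (by linarith [hmod'.2])
  obtain ⟨T, hT⟩ : ∃ T : ℝ, T = U / Real.log X * ∑ n ∈ Ioc X (2 * X), wt Q c n := ⟨_, rfl⟩
  rw [← hT] at h5 h6 ⊢
  have hT0 : 0 ≤ T := by
    have h6 : 0 ≤ ∑ n ∈ Ioc X (2 * X), wt Q c n := sum_nonneg fun n _ => hw n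
    rw [hT]
    positivity
  rw [hxb, abs_le]
  constructor
  · have h7 : (1 - 4 * x) * T ≤ ((1 - x / 8) ^ 2 * (1 - x) - x / 8) * T := by
      apply mul_le_mul_of_nonneg_right _ hT0
      nlinarith [sq_nonneg x, mul_nonneg hx0.le (sq_nonneg x)]
    linarith
  · have h7 : ((1 + x / 8) ^ 2 * (1 + x) + x / 8) * T ≤ (1 + 4 * x) * T := by
      apply mul_le_mul_of_nonneg_right _ hT0
      nlinarith [sq_nonneg x, mul_nonneg hx0.le (sq_nonneg x), mul_nonneg hx0.le (sub_nonneg.2 hx1)]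
    linarith


end Pool.Agent.N422.SW
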